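import Pool.Agent.Helper66.MC.Ops

/-!
`Tw U ⊤` is spanned by the words avoiding `U`; the time statistic.
-/

set_option autoImplicit false

namespace Helper66.MC

open Finsupp

section lists

variable {B : Type*}

theorem append_singleton_sublist {l U : List B} {a i : B} :
    (l ++ [a]).Sublist (U ++ [i]) ↔ (l ++ [a]).Sublist U ∨ (a = i ∧ l.Sublist U) := by
  rw [← List.reverse_sublist, List.reverse_append, List.reverse_append]
  simp only [List.reverse_cons, List.reverse_nil, List.nil_append, List.singleton_append]
  rw [List.cons_sublist_cons', List.reverse_sublist, ← List.reverse_sublist (l₁ := l ++ [a])]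
  simp [List.reverse_append]

variable (v0 : St B)

theorem tyw_nil : tyw v0 ([] : List (Step B)) = [v0.1] := rfl

theorem tyw_cons (s : Step B) (w : List (Step B)) : tyw v0 (s :: w) = tyw v0 w ++ [s.1] := by
  simp [tyw]

end lists

variable {B : Type*} [DecidableEq B] [Fintype B] {M : CoxeterMatrix B} {v0 : St B}

omit [Fintype B] in
theorem tyw_last (w : List (Step B)) : ∃ l, tyw v0 w = l ++ [(en v0 w).1] := by
  cases w with
  | nil => exact ⟨[], rfl⟩
  | cons s w => exact ⟨tyw v0 w, tyw_cons v0 s w⟩

omit [Fintype B] in
theorem tyw_getLast (w : List (Step B)) : (tyw v0 w).getLast? = some (en v0 w).1 := by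
  obtain ⟨l, hl⟩ := tyw_last (v0 := v0) w
  rw [hl]
  simp

variable (M v0) in
/-- the submodule spanned by the mesh relations and the words avoiding `U` -/
noncomputable def Av (U : List B) : Submodule (ZMod 2) (FM B) :=
  K M v0 ⊔ Submodule.span (ZMod 2) {f | ∃ w, ¬ (tyw v0 w).Sublist U ∧ f = single w 1}

theorem single_mem_Av {U : List B} {w : List (Step B)} (h : ¬ (tyw v0 w).Sublist U) (c : ZMod 2) :
    single w c ∈ Av M v0 U := by
  have : single w c = c • (single w 1 : FM B) := by simp
  rw [this]
  exact Submodule.smul_mem _ _ (Submodule.mem_sup_right (Submodule.subset_span ⟨w, h, rfl⟩))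

theorem closed_Av (U : List B) : Closed M v0 (Av M v0 U) where
  ker := le_sup_left
  step s f hf := by
    rw [Av, Submodule.mem_sup] at hf
    obtain ⟨κ, hκ, g, hg, rfl⟩ := hf
    rw [map_add]
    refine Submodule.add_mem _ (Submodule.mem_sup_left (S_mem_K M v0 s hκ)) ?_
    induction hg using Submodule.span_induction with
    | mem g hg =>
      obtain ⟨w, hw, rfl⟩ := hg
      rw [S_single]
      refine single_mem_Av (fun h => hw ?_) 1
      rw [tyw_cons] at h
      exact (List.sublist_append_left _ _).trans h
    | zero => rw [map_zero]; exact Submodule.zero_mem _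
    | add f g _ _ hf hg => rw [map_add]; exact Submodule.add_mem _ hf hg
    | smul c f _ hf => rw [map_smul]; exact Submodule.smul_mem _ _ hf
  gr p f hf := by
    rw [Av, Submodule.mem_sup] at hf
    obtain ⟨κ, hκ, g, hg, rfl⟩ := hf
    rw [map_add]
    refine Submodule.add_mem _ (Submodule.mem_sup_left (K_graded M v0 (adm_en v0) p hκ)) ?_
    induction hg using Submodule.span_induction with
    | mem g hg =>
      obtain ⟨w, hw, rfl⟩ := hg
      by_cases hp : p (en v0 w)
      · rw [pr_single_pos (p := fun w => p (en v0 w)) hp]; exact single_mem_Av hw 1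
      · rw [pr_single_neg (p := fun w => p (en v0 w)) hp]; exact Submodule.zero_mem _
    | zero => rw [map_zero]; exact Submodule.zero_mem _
    | add f g _ _ hf hg => rw [map_add]; exact Submodule.add_mem _ hf hg
    | smul c f _ hf => rw [map_smul]; exact Submodule.smul_mem _ _ hf

/-- D1: `J_U` is spanned by the mesh submodule and the words avoiding `U` -/
theorem Tw_top' (U : List B) : Tw M v0 U ⊤ = Av M v0 U := by
  induction U using List.reverseRecOn with
  | nil =>
    rw [Tw_nil, eq_comm, eq_top_iff]
    intro f _
    rw [← f.sum_single]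
    refine Submodule.sum_mem _ (fun w _ => single_mem_Av ?_ _)
    simp [tyw]
  | append_singleton U i ih =>
    rw [Tw_append, Tw_cons, Tw_nil, ih]
    apply le_antisymm
    · refine T_least (closed_Av _) (fun f hf ho => ?_)
      rw [Av, Submodule.mem_sup] at hf
      obtain ⟨κ, hκ, g, hg, rfl⟩ := hf
      rw [← ho.pr_eq, map_add]
      refine Submodule.add_mem _ (Submodule.mem_sup_left
        (K_graded M v0 (adm_en v0) (fun v => v.1 ∉ ({i} : Set B)) hκ)) ?_
      clear ho
      induction hg using Submodule.span_induction with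
      | mem g hg =>
        obtain ⟨w, hw, rfl⟩ := hg
        by_cases hp : (en v0 w).1 ∉ ({i} : Set B)
        · rw [pr_single_pos (p := fun w => (en v0 w).1 ∉ ({i} : Set B)) hp]
          refine single_mem_Av (fun h => ?_) 1
          obtain ⟨l, hl⟩ := tyw_last (v0 := v0) w
          rw [hl, append_singleton_sublist] at h
          rcases h with h | h
          · exact hw (by rw [hl]; exact h)
          · exact hp (by rw [Set.mem_singleton_iff]; exact h.1)
        · rw [pr_single_neg (p := fun w => (en v0 w).1 ∉ ({i} : Set B)) hp]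
          exact Submodule.zero_mem _
      | zero => rw [map_zero]; exact Submodule.zero_mem _
      | add f g _ _ hf hg => rw [map_add]; exact Submodule.add_mem _ hf hg
      | smul c f _ hf => rw [map_smul]; exact Submodule.smul_mem _ _ hf
    · rw [Av, sup_le_iff]
      refine ⟨(closed_T M v0 {i} _).ker, ?_⟩
      rw [Submodule.span_le]
      rintro _ ⟨w, hw, rfl⟩
      by_cases hi : (en v0 w).1 = i
      · cases w with
        | nil =>
          exfalso
          apply hw
          rw [tyw_nil]
          rw [en_nil] at hi
          rw [hi]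
          exact List.sublist_append_right _ _
        | cons s w =>
          rw [← S_single]
          have hs : s = (i, s.2) := by
            ext1
            · exact hi
            · rfl
          rw [hs]
          refine S_mem_T (closed_Av U) (single_mem_Av (fun h => hw ?_) 1)
          rw [tyw_cons, hs]
          exact List.Sublist.append h (List.Sublist.refl _)
      · refine mem_T_of_out (single_mem_Av (fun h => hw ?_) 1) (On_single ?_ 1)
        · exact h.trans (List.sublist_append_left _ _)
        · rw [Set.mem_singleton_iff]; exact hi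

theorem Tw_top (U : List B) :
    Tw M v0 U ⊤ = K M v0 ⊔
      Submodule.span (ZMod 2) {f | ∃ w, ¬ (tyw v0 w).Sublist U ∧ f = single w 1} := Tw_top' U

section time

variable (ω : List B) (hn : 0 < ω.length)

omit [DecidableEq B] [Fintype B] in
theorem per_add_len (t : ℕ) : per ω hn (t + ω.length) = per ω hn t := by
  simp [per]

omit [DecidableEq B] [Fintype B] in
theorem ex_per (hall : ∀ b, b ∈ ω) (t : ℕ) (b : B) :
    ∃ u, t ≤ u ∧ u < t + ω.length ∧ per ω hn u = b := by
  obtain ⟨r, hr, hrb⟩ := List.mem_iff_getElem.1 (hall b)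
  -- the representative of r in [t, t + n)
  refine ⟨t + (r + (ω.length - t % ω.length)) % ω.length, by omega,
    by have := Nat.mod_lt (r + (ω.length - t % ω.length)) hn; omega, ?_⟩
  have h1 : (t + (r + (ω.length - t % ω.length)) % ω.length) % ω.length = r := by
    have h2 : t % ω.length < ω.length := Nat.mod_lt _ hn
    rw [Nat.add_mod, Nat.mod_mod, ← Nat.add_mod]
    have h3 := Nat.div_add_mod t ω.length
    have h4 : t + (r + (ω.length - t % ω.length)) = r + ω.length * (t / ω.length + 1) := by
      rw [mul_add]; omega
    rw [h4, Nat.add_mul_mod_self_left, Nat.mod_eq_of_lt hr]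
  simp only [per, h1, hrb]

omit [DecidableEq B] [Fintype B] in
theorem next_spec (hall : ∀ b, b ∈ ω) (t : ℕ) (b : B) :
    t ≤ nextTime (per ω hn) t b ∧ nextTime (per ω hn) t b < t + ω.length ∧
      per ω hn (nextTime (per ω hn) t b) = b := by
  obtain ⟨u, h1, h2, h3⟩ := ex_per ω hn hall t b
  have hne : {u | t ≤ u ∧ per ω hn u = b}.Nonempty := ⟨u, h1, h3⟩
  have hm := Nat.sInf_mem hne
  have hle : nextTime (per ω hn) t b ≤ u := Nat.sInf_le ⟨h1, h3⟩
  exact ⟨hm.1, by omega, hm.2⟩

omit [DecidableEq B] [Fintype B] in
theorem next_le (q : ℕ → B) {t u : ℕ} {b : B} (h1 : t ≤ u) (h2 : q u = b) :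
    nextTime q t b ≤ u := Nat.sInf_le ⟨h1, h2⟩

omit [DecidableEq B] [Fintype B] in
theorem per_inj_mod (hnd : ω.Nodup) {t u : ℕ} (h : per ω hn t = per ω hn u) :
    t % ω.length = u % ω.length := by
  unfold per at h
  exact (List.Nodup.getElem_inj_iff hnd).1 h

omit [DecidableEq B] [Fintype B] in
/-- going from the letter at time `t` to another letter and back takes one period -/
theorem next_mesh (hnd : ω.Nodup) (hall : ∀ b, b ∈ ω) (t : ℕ) (j : B)
    (hj : j ≠ per ω hn t) :
    nextTime (per ω hn) (nextTime (per ω hn) (t + 1) j + 1) (per ω hn t) = t + ω.length := by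
  obtain ⟨h1, h2, h3⟩ := next_spec ω hn hall (t + 1) j
  set u := nextTime (per ω hn) (t + 1) j with hu
  have hun : u ≠ t + ω.length := by
    intro h
    rw [h, per_add_len] at h3
    exact hj h3.symm
  obtain ⟨g1, g2, g3⟩ := next_spec ω hn hall (u + 1) (per ω hn t)
  set u' := nextTime (per ω hn) (u + 1) (per ω hn t) with hu'
  have hle : u' ≤ t + ω.length := by
    rw [hu']
    exact next_le _ (by omega) (per_add_len ω hn t)
  have hmod := per_inj_mod ω hn hnd g3
  -- t < u' ≤ t + n and u' ≡ t
  by_contra hne
  have hlt : u' < t + ω.length := lt_of_le_of_ne hle hne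
  have hdvd : ω.length ∣ u' - t := (Nat.modEq_iff_dvd' (by omega)).1 hmod.symm
  have := Nat.le_of_dvd (by omega) hdvd
  omega

/-- D5 -/
theorem per_tm (hall : ∀ b, b ∈ ω) (w : List (Step B)) :
    per ω hn (tm v0 (per ω hn) w) = (en v0 w).1 := by
  cases w with
  | nil => exact (next_spec ω hn hall 0 v0.1).2.2
  | cons s w => exact (next_spec ω hn hall _ s.1).2.2

/-- D2 -/
theorem adm_tm (hnd : ω.Nodup) (hall : ∀ b, b ∈ ω) : Adm v0 (tm v0 (per ω hn)) where
  cons s w w' h := by
    simp only [tm, h]
  mesh w j e j' e' hj hj' := by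
    rw [← per_tm ω hn hall] at hj hj' ⊢
    have h1 := next_mesh ω hn hnd hall (tm v0 (per ω hn) w) j hj
    have h2 := next_mesh ω hn hnd hall (tm v0 (per ω hn) w) j' hj'
    simp only [tm]
    rw [h1, h2]

omit [DecidableEq B] [Fintype B] in
theorem fin_append_singleton (q : ℕ → B) (R : List B) (r : B) (t : ℕ) :
    fin q (R ++ [r]) t = nextTime q (fin q R t) r + 1 := by
  induction R generalizing t with
  | nil => rfl
  | cons x R ih => exact ih _

omit [DecidableEq B] [Fintype B] in
/-- D3 -/
theorem fin_tyw (q : ℕ → B) (w : List (Step B)) : fin q (tyw v0 w) 0 = tm v0 q w + 1 := by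
  induction w with
  | nil => rfl
  | cons s w ih => rw [tyw_cons, fin_append_singleton, ih]; rfl

omit [DecidableEq B] [Fintype B] in
/-- D4 -/
theorem tyw_sublist_of_tm_lt (hall : ∀ b, b ∈ ω) (w : List (Step B)) (t : ℕ)
    (h : tm v0 (per ω hn) w < t) :
    (tyw v0 w).Sublist ((List.range t).map (per ω hn)) := by
  induction w generalizing t with
  | nil =>
    rw [tyw_nil, List.singleton_sublist, List.mem_map]
    exact ⟨_, List.mem_range.2 h, (next_spec ω hn hall 0 v0.1).2.2⟩
  | cons s w ih =>
    obtain ⟨h1, -, h3⟩ := next_spec ω hn hall (tm v0 (per ω hn) w + 1) s.1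
    have h' : nextTime (per ω hn) (tm v0 (per ω hn) w + 1) s.1 < t := h
    set u := nextTime (per ω hn) (tm v0 (per ω hn) w + 1) s.1 with hu
    have h4 := ih u (by omega)
    rw [tyw_cons]
    have h5 : ((List.range (u + 1)).map (per ω hn)).Sublist ((List.range t).map (per ω hn)) :=
      (List.range_sublist.2 (by omega)).map _
    refine List.Sublist.trans ?_ h5
    rw [List.range_succ, List.map_append, List.map_singleton, h3]
    exact h4.append (List.Sublist.refl _)

end time

theorem S_apply_nil (s : Step B) (f : FM B) : S s f [] = 0 := by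
  rw [S, lmapDomain_apply, mapDomain_of_notMem_range]
  rintro ⟨w, hw⟩
  exact List.cons_ne_nil _ _ hw

/-- D6 -/
theorem nil_not_mem_K (h : InRange M v0) : (single [] 1 : FM B) ∉ K M v0 := by
  intro hk
  have key : ∀ f ∈ K M v0, f [] = 0 := by
    intro f hf
    induction hf using Submodule.span_induction with
    | mem f hf =>
      cases hf with
      | inv w hw =>
        cases w with
        | nil => exact absurd h hw
        | cons s w => rw [← S_single]; exact S_apply_nil _ _
      | mesh u w =>
        cases u with
        | cons s u => exact S_apply_nil _ _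
        | nil =>
          rw [app_nil, meshMap_apply, Finsupp.finsetSum_apply]
          refine Finset.sum_eq_zero (fun j _ => ?_)
          rw [Finsupp.finsetSum_apply]
          exact Finset.sum_eq_zero (fun e _ => S_apply_nil _ _)
    | zero => rfl
    | add f g _ _ hf hg => rw [Finsupp.add_apply, hf, hg, add_zero]
    | smul c f _ hf => rw [Finsupp.smul_apply, hf, smul_zero]
  have := key _ hk
  rw [single_eq_same] at this
  exact one_ne_zero this

end Helper66.MC
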