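import Mathlib

/-!
# Coxeter systems: geometric representation, descents and dihedral decompositions

Pure Coxeter-group part of MP_73c0e1_co.
-/

set_option autoImplicit false

namespace Helper66.MC

open CoxeterSystem

/-! ### Sequences `U` and the dihedral computation -/

/-- Chebyshev-like sequence: `U 0 = 0`, `U 1 = 1`, `U (n+2) = 2 c U (n+1) - U n` -/
noncomputable def UU (c : ℝ) : ℕ → ℝ
  | 0 => 0
  | 1 => 1
  | n + 2 => 2 * c * UU c (n + 1) - UU c n

theorem UU_cos (θ : ℝ) (n : ℕ) :
    Real.sin θ * UU (Real.cos θ) n = Real.sin (n * θ) ∧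
    Real.sin θ * UU (Real.cos θ) (n + 1) = Real.sin ((n + 1) * θ) := by
  induction n with
  | zero => simp [UU]
  | succ n ih =>
    refine ⟨by rw [ih.2]; push_cast; rfl, ?_⟩
    have h : Real.sin θ * UU (Real.cos θ) (n + 1 + 1) =
        2 * Real.cos θ * (Real.sin θ * UU (Real.cos θ) (n + 1)) -
          Real.sin θ * UU (Real.cos θ) n := by
      show Real.sin θ * (2 * Real.cos θ * UU (Real.cos θ) (n + 1) - UU (Real.cos θ) n) = _
      ring
    rw [h, ih.1, ih.2]
    have e1 : ((↑(n + 1) + 1) * θ) = (n + 1) * θ + θ := by push_cast; ring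
    have e2 : ((n : ℝ) * θ) = (n + 1) * θ - θ := by ring
    rw [e1, e2, Real.sin_add, Real.sin_sub]
    ring

theorem UU_one (n : ℕ) : UU 1 n = n ∧ UU 1 (n + 1) = n + 1 := by
  induction n with
  | zero => simp [UU]
  | succ n ih =>
    refine ⟨by rw [ih.2]; push_cast; rfl, ?_⟩
    show 2 * 1 * UU 1 (n + 1) - UU 1 n = _
    rw [ih.1, ih.2]
    push_cast
    ring

theorem UU_nonneg (m : ℕ) (hm : m ≠ 1) (n : ℕ) (hn : n ≤ m ∨ m = 0) :
    0 ≤ UU (Real.cos (Real.pi / m)) n := by
  rcases Nat.eq_zero_or_pos m with rfl | hpos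
  · simp only [Nat.cast_zero, div_zero, Real.cos_zero]
    rw [(UU_one n).1]
    positivity
  · have hn' : n ≤ m := by omega
    have hm2 : 2 ≤ m := by omega
    have hmR : (0 : ℝ) < m := by exact_mod_cast hpos
    have hs : 0 < Real.sin (Real.pi / m) := by
      apply Real.sin_pos_of_pos_of_lt_pi
      · positivity
      · rw [div_lt_iff₀ hmR]
        have : (2 : ℝ) ≤ m := by exact_mod_cast hm2
        nlinarith [Real.pi_pos]
    have h := (UU_cos (Real.pi / m) n).1
    have h2 : 0 ≤ Real.sin (n * (Real.pi / m)) := by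
      apply Real.sin_nonneg_of_nonneg_of_le_pi
      · positivity
      · have : (n : ℝ) ≤ m := by exact_mod_cast hn'
        calc (n : ℝ) * (Real.pi / m) ≤ m * (Real.pi / m) := by
              apply mul_le_mul_of_nonneg_right this
              positivity
          _ = Real.pi := by field_simp
    rw [← h] at h2
    exact nonneg_of_mul_nonneg_right h2 hs

section dihedral

variable {V : Type*} [AddCommGroup V] [Module ℝ V]

/-- powers of a product of two reflections, as sums -/
theorem tau_pow (fi fj : V →ₗ[ℝ] ℝ) (ai aj : V) (c : ℝ) (hii : fi ai = 1) (hjj : fj aj = 1)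
    (hij : fi aj = -c) (hji : fj ai = -c) (si sj : Module.End ℝ V)
    (hsi : ∀ v, si v = v - (2 * fi v) • ai) (hsj : ∀ v, sj v = v - (2 * fj v) • aj)
    (v : V) (R : ℕ → ℝ) (hR0 : R 0 = - fi v) (hR1 : R 1 = fj v)
    (hR : ∀ n, R (n + 2) = 2 * c * R (n + 1) - R n) (n : ℕ) :
    fi (((si * sj) ^ n) v) = - R (2 * n) ∧ fj (((si * sj) ^ n) v) = R (2 * n + 1) ∧
      ((si * sj) ^ n) v = v - (2 * ∑ t ∈ Finset.range n, R (2 * t + 2)) • ai
        - (2 * ∑ t ∈ Finset.range n, R (2 * t + 1)) • aj := by
  induction n with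
  | zero => simp [hR0, hR1]
  | succ n ih =>
    obtain ⟨h1, h2, h3⟩ := ih
    have hR2 := hR (2 * n)
    have hR3 := hR (2 * n + 1)
    have e : ((si * sj) ^ (n + 1)) v = si (sj (((si * sj) ^ n) v)) := by
      rw [pow_succ']
      rfl
    have e1 : sj (((si * sj) ^ n) v) = ((si * sj) ^ n) v - (2 * R (2 * n + 1)) • aj := by
      rw [hsj, h2]
    have e2 : fi (sj (((si * sj) ^ n) v)) = R (2 * n + 2) := by
      rw [e1, map_sub, map_smul, h1, hij, hR2]
      simp only [smul_eq_mul]
      ring
    have e3 : fj (sj (((si * sj) ^ n) v)) = - R (2 * n + 1) := by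
      rw [e1, map_sub, map_smul, h2, hjj]
      simp only [smul_eq_mul]
      ring
    have e4 : ((si * sj) ^ (n + 1)) v = sj (((si * sj) ^ n) v) - (2 * R (2 * n + 2)) • ai := by
      rw [e, hsi, e2]
    refine ⟨?_, ?_, ?_⟩
    · rw [e4, map_sub, map_smul, e2, hii]
      simp only [smul_eq_mul]
      have : 2 * (n + 1) = 2 * n + 2 := by ring
      rw [this]
      ring
    · rw [e4, map_sub, map_smul, e3, hji]
      simp only [smul_eq_mul]
      have : 2 * (n + 1) + 1 = 2 * n + 1 + 2 := by ring
      rw [this, hR3]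
      ring
    · rw [e4, e1, h3, Finset.sum_range_succ, Finset.sum_range_succ]
      module

/-- `(s_i s_j)^m = 1` -/
theorem tau_pow_eq_one (fi fj : V →ₗ[ℝ] ℝ) (ai aj : V) (m : ℕ) (hm : 2 ≤ m)
    (hii : fi ai = 1) (hjj : fj aj = 1)
    (hij : fi aj = -Real.cos (Real.pi / m)) (hji : fj ai = -Real.cos (Real.pi / m))
    (si sj : Module.End ℝ V)
    (hsi : ∀ v, si v = v - (2 * fi v) • ai) (hsj : ∀ v, sj v = v - (2 * fj v) • aj) :
    (si * sj) ^ m = 1 := by
  ext v
  have hmR : (0 : ℝ) < m := by exact_mod_cast (by omega : 0 < m)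
  set θ : ℝ := Real.pi / m with hθ
  have hmθ : (m : ℝ) * θ = Real.pi := by rw [hθ]; field_simp
  have hs : 0 < Real.sin θ := by
    apply Real.sin_pos_of_pos_of_lt_pi
    · positivity
    · rw [hθ, div_lt_iff₀ hmR]
      have : (2 : ℝ) ≤ m := by exact_mod_cast hm
      nlinarith [Real.pi_pos]
  set p : ℝ := fi v
  set q : ℝ := fj v
  set R : ℕ → ℝ := fun n => (Real.sin (n * θ) * q + Real.sin ((n - 1) * θ) * p) / Real.sin θ
    with hRdef
  have hR0 : R 0 = - fi v := by
    simp only [hRdef, Nat.cast_zero, zero_mul, Real.sin_zero, zero_sub, neg_mul, one_mul,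
      Real.sin_neg, zero_add]
    field_simp
    rfl
  have hR1 : R 1 = fj v := by
    simp only [hRdef, Nat.cast_one, one_mul, sub_self, zero_mul, Real.sin_zero, add_zero]
    field_simp
    rfl
  have hR : ∀ n, R (n + 2) = 2 * Real.cos θ * R (n + 1) - R n := by
    intro n
    simp only [hRdef]
    have a1 : ((n + 2 : ℕ) : ℝ) * θ = n * θ + 2 * θ := by push_cast; ring
    have a2 : (((n + 2 : ℕ) : ℝ) - 1) * θ = n * θ + θ := by push_cast; ring
    have a3 : ((n + 1 : ℕ) : ℝ) * θ = n * θ + θ := by push_cast; ring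
    have a4 : (((n + 1 : ℕ) : ℝ) - 1) * θ = n * θ := by push_cast; ring
    have a5 : ((n : ℝ) - 1) * θ = n * θ - θ := by ring
    rw [a1, a2, a3, a4, a5, Real.sin_add, Real.sin_add, Real.sin_sub, Real.sin_two_mul,
      Real.cos_two_mul]
    field_simp
    ring
  have h := (tau_pow fi fj ai aj (Real.cos θ) hii hjj hij hji si sj hsi hsj v R hR0 hR1 hR m).2.2
  have s1 : ∀ n : ℕ, 2 * Real.sin θ ^ 2 * ∑ t ∈ Finset.range n, R (2 * t + 1) =
      q * (1 - Real.cos (2 * n * θ)) + p * (Real.cos θ - Real.cos (2 * n * θ - θ)) := by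
    intro n
    induction n with
    | zero => simp
    | succ n ih =>
      rw [Finset.sum_range_succ, mul_add, ih]
      simp only [hRdef]
      have a1 : ((2 * n + 1 : ℕ) : ℝ) * θ = 2 * n * θ + θ := by push_cast; ring
      have a2 : (((2 * n + 1 : ℕ) : ℝ) - 1) * θ = 2 * n * θ := by push_cast; ring
      have a3 : 2 * ((n + 1 : ℕ) : ℝ) * θ = 2 * n * θ + 2 * θ := by push_cast; ring
      have a4 : 2 * ((n + 1 : ℕ) : ℝ) * θ - θ = 2 * n * θ + θ := by push_cast; ring
      rw [a1, a2, a4, a3, Real.cos_sub, Real.cos_add, Real.cos_add, Real.sin_add,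
        Real.sin_two_mul, Real.cos_two_mul]
      field_simp
      have := Real.sin_sq_add_cos_sq θ
      have h2 : Real.cos θ ^ 2 = 1 - Real.sin θ ^ 2 := by linarith
      ring_nf
      rw [h2]
      ring
  have s2 : ∀ n : ℕ, 2 * Real.sin θ ^ 2 * ∑ t ∈ Finset.range n, R (2 * t + 2) =
      q * (Real.cos θ - Real.cos (2 * n * θ + θ)) + p * (1 - Real.cos (2 * n * θ)) := by
    intro n
    induction n with
    | zero => simp
    | succ n ih =>
      rw [Finset.sum_range_succ, mul_add, ih]
      simp only [hRdef]
      have a1 : ((2 * n + 2 : ℕ) : ℝ) * θ = 2 * n * θ + 2 * θ := by push_cast; ring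
      have a2 : (((2 * n + 2 : ℕ) : ℝ) - 1) * θ = 2 * n * θ + θ := by push_cast; ring
      have a3 : 2 * ((n + 1 : ℕ) : ℝ) * θ = 2 * n * θ + 2 * θ := by push_cast; ring
      rw [a1, a2, a3, Real.cos_add (2 * n * θ + 2 * θ), Real.cos_add, Real.cos_add, Real.sin_add,
        Real.sin_add, Real.sin_two_mul, Real.cos_two_mul]
      field_simp
      have := Real.sin_sq_add_cos_sq θ
      have h2 : Real.cos θ ^ 2 = 1 - Real.sin θ ^ 2 := by linarith
      have h3 : Real.cos θ ^ 3 = Real.cos θ * (1 - Real.sin θ ^ 2) := by rw [← h2]; ring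
      ring_nf
      rw [h3, h2]
      ring
  have e1 : 2 * (m : ℝ) * θ = 2 * Real.pi := by rw [mul_assoc, hmθ]
  have z1 : ∑ t ∈ Finset.range m, R (2 * t + 1) = 0 := by
    have := s1 m
    rw [e1, Real.cos_two_pi, Real.cos_two_pi_sub] at this
    have h0 : 2 * Real.sin θ ^ 2 * ∑ t ∈ Finset.range m, R (2 * t + 1) = 0 := by
      rw [this]; ring
    rcases mul_eq_zero.mp h0 with h0 | h0
    · exfalso
      have : 0 < 2 * Real.sin θ ^ 2 := by positivity
      linarith
    · exact h0
  have z2 : ∑ t ∈ Finset.range m, R (2 * t + 2) = 0 := by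
    have := s2 m
    rw [e1, Real.cos_two_pi, add_comm (2 * Real.pi) θ, Real.cos_add_two_pi] at this
    have h0 : 2 * Real.sin θ ^ 2 * ∑ t ∈ Finset.range m, R (2 * t + 2) = 0 := by
      rw [this]; ring
    rcases mul_eq_zero.mp h0 with h0 | h0
    · exfalso
      have : 0 < 2 * Real.sin θ ^ 2 := by positivity
      linarith
    · exact h0
  rw [z1, z2] at h
  rw [h]
  simp

end dihedral

/-! ### The geometric representation -/

section geo

variable {B : Type*} (M : CoxeterMatrix B)

/-- entries of the Gram matrix -/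
noncomputable def kk (i j : B) : ℝ := - Real.cos (Real.pi / M i j)

theorem kk_self (i : B) : kk M i i = 1 := by simp [kk]

theorem kk_symm (i j : B) : kk M i j = kk M j i := by rw [kk, kk, M.symmetric]

/-- simple roots -/
noncomputable def al (i : B) : B →₀ ℝ := Finsupp.single i 1

/-- the functional `⟨·, α_i⟩` -/
noncomputable def form (i : B) : (B →₀ ℝ) →ₗ[ℝ] ℝ :=
  Finsupp.linearCombination ℝ (fun j => kk M j i)

theorem form_al (i j : B) : form M i (al j) = kk M j i := by
  simp [form, al, Finsupp.linearCombination_single]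

/-- simple reflections -/
noncomputable def sig (i : B) : Module.End ℝ (B →₀ ℝ) :=
  LinearMap.id - (2 : ℝ) • (form M i).smulRight (al i)

theorem sig_apply (i : B) (v : B →₀ ℝ) : sig M i v = v - (2 * form M i v) • al i := by
  simp [sig, mul_smul]

theorem sig_self (i : B) : sig M i (al i) = - al i := by
  rw [sig_apply, form_al, kk_self]
  module

theorem sig_sq (i : B) : sig M i * sig M i = 1 := by
  refine LinearMap.ext fun v => ?_
  show sig M i (sig M i v) = v
  rw [sig_apply M i (sig M i v), sig_apply M i v, map_sub, map_smul, form_al, kk_self]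
  simp only [smul_eq_mul]
  module

theorem sig_liftable : M.IsLiftable (sig M) := by
  intro i j
  rcases eq_or_ne i j with rfl | hij
  · rw [M.diagonal, pow_one, sig_sq]
  · rcases Nat.eq_zero_or_pos (M i j) with h0 | hpos
    · rw [h0, pow_zero]
    · have h1 : M i j ≠ 1 := M.off_diagonal i j hij
      refine tau_pow_eq_one (form M i) (form M j) (al i) (al j) (M i j) (by omega) ?_ ?_ ?_ ?_
        (sig M i) (sig M j) (sig_apply M i) (sig_apply M j)
      · rw [form_al, kk_self]
      · rw [form_al, kk_self]
      · rw [form_al, kk_symm, kk]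
      · rw [form_al, kk]

end geo

/-! ### Roots -/

section roots

variable {B W : Type*} [Group W] {M : CoxeterMatrix B} (cs : CoxeterSystem M W)

/-- the geometric representation -/
noncomputable def rho : W →* Module.End ℝ (B →₀ ℝ) := cs.lift ⟨sig M, sig_liftable M⟩

theorem rho_simple (i : B) : rho cs (cs.simple i) = sig M i :=
  cs.lift_apply_simple (sig_liftable M) i

theorem rho_alt (i j : B) (n : ℕ) :
    rho cs (cs.wordProd (alternatingWord i j n)) (al i) =
      if Even n then UU (Real.cos (Real.pi / M i j)) (n + 1) • al i +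
          UU (Real.cos (Real.pi / M i j)) n • al j
        else UU (Real.cos (Real.pi / M i j)) n • al i +
          UU (Real.cos (Real.pi / M i j)) (n + 1) • al j := by
  induction n with
  | zero => simp [alternatingWord, UU]
  | succ n ih =>
    have hU : UU (Real.cos (Real.pi / M i j)) (n + 1 + 1) =
      2 * Real.cos (Real.pi / M i j) * UU (Real.cos (Real.pi / M i j)) (n + 1) -
        UU (Real.cos (Real.pi / M i j)) n := rfl
    rw [alternatingWord_succ', cs.wordProd_cons, map_mul, rho_simple, Module.End.mul_apply, ih]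
    by_cases hn : Even n
    · have hn1 : ¬ Even (n + 1) := by simp [hn, parity_simps]
      rw [if_pos hn, if_pos hn, if_neg hn1, sig_apply, map_add, map_smul, map_smul, form_al,
        form_al, kk_self, kk, hU]
      simp only [smul_eq_mul]
      module
    · have hn1 : Even (n + 1) := by simp [hn, parity_simps]
      rw [if_neg hn, if_neg hn, if_pos hn1, sig_apply, map_add, map_smul, map_smul, form_al,
        form_al, kk_self, kk_symm, kk, hU]
      simp only [smul_eq_mul]
      module

theorem rho_ne_zero (w : W) (i : B) : rho cs w (al i) ≠ 0 := by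
  intro h
  have h1 : rho cs w⁻¹ (rho cs w (al i)) = al i := by
    rw [← Module.End.mul_apply, ← map_mul, inv_mul_cancel, map_one]
    rfl
  rw [h, map_zero] at h1
  have h2 := congrArg (fun f => f i) h1
  simp [al] at h2

/-- maximal dihedral decomposition -/
theorem max_dihedral {i j : B} (w : W) (hj : cs.IsRightDescent w j) :
    ∃ v a, w = v * cs.wordProd (alternatingWord i j a) ∧ cs.length w = cs.length v + a ∧
      1 ≤ a ∧ ¬ cs.IsRightDescent v i ∧ ¬ cs.IsRightDescent v j := by
  classical
  let P : ℕ → Prop := fun a => ∃ v, w = v * cs.wordProd (alternatingWord i j a) ∧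
    cs.length w = cs.length v + a
  have hP1 : P 1 := by
    refine ⟨w * cs.simple j, ?_, ?_⟩
    · simp [alternatingWord]
    · rw [cs.isRightDescent_iff] at hj
      exact hj.symm
  have hbd : ∀ a, P a → a ≤ cs.length w := by
    rintro a ⟨v, _, h⟩
    omega
  set a := Nat.findGreatest P (cs.length w) with ha
  have hPa : P a := Nat.findGreatest_spec (hbd 1 hP1) hP1
  have h1a : 1 ≤ a := Nat.le_findGreatest (hbd 1 hP1) hP1
  have hmax : ∀ b, P b → b ≤ a := fun b hb => Nat.le_findGreatest (hbd b hb) hb
  obtain ⟨v, hv, hl⟩ := hPa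
  -- the next letter is not a descent
  have next : ¬ cs.IsRightDescent v (if Even a then j else i) := by
    intro hd
    rw [cs.isRightDescent_iff] at hd
    have : P (a + 1) := by
      refine ⟨v * cs.simple (if Even a then j else i), ?_, by omega⟩
      rw [alternatingWord_succ', cs.wordProd_cons, ← mul_assoc, cs.simple_mul_simple_cancel_right]
      exact hv
    have := hmax _ this
    omega
  -- the first letter is not a descent
  have first : ¬ cs.IsRightDescent v (if Even (a - 1) then j else i) := by
    intro hd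
    rw [cs.isRightDescent_iff] at hd
    obtain ⟨b, hb⟩ : ∃ b, a = b + 1 := ⟨a - 1, by omega⟩
    rw [hb] at hv hl hd
    simp only [Nat.add_sub_cancel] at hd
    rw [alternatingWord_succ', cs.wordProd_cons, ← mul_assoc] at hv
    have h2 : cs.length w ≤ cs.length (v * cs.simple (if Even b then j else i)) + b := by
      rw [hv]
      refine (cs.length_mul_le _ _).trans ?_
      have := cs.length_wordProd_le (alternatingWord i j b)
      rw [length_alternatingWord] at this
      omega
    omega
  refine ⟨v, a, hv, hl, h1a, ?_, ?_⟩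
  · by_cases he : Even a
    · have : ¬ Even (a - 1) := by
        intro h
        have h3 : Even (a - 1 + 1) := by rw [Nat.sub_add_cancel h1a]; exact he
        rw [Nat.even_add_one] at h3
        exact h3 h
      rwa [if_neg this] at first
    · rwa [if_neg he] at next
  · by_cases he : Even a
    · rwa [if_pos he] at next
    · have : Even (a - 1) := by
        by_contra h
        have h3 : Even (a - 1 + 1) := by rw [Nat.even_add_one]; exact h
        rw [Nat.sub_add_cancel h1a] at h3
        exact he h3
      rwa [if_pos this] at first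

/-- nonnegative combination -/
theorem comb_nonneg {f g : B →₀ ℝ} {a b : ℝ} (ha : 0 ≤ a) (hb : 0 ≤ b) (hf : ∀ x, 0 ≤ f x)
    (hg : ∀ x, 0 ≤ g x) : ∀ x, 0 ≤ (a • f + b • g) x := by
  intro x
  simp only [Finsupp.add_apply, Finsupp.smul_apply, smul_eq_mul]
  exact add_nonneg (mul_nonneg ha (hf x)) (mul_nonneg hb (hg x))

theorem alt_pos {i j : B} (hij : i ≠ j) (v : W) (a : ℕ) (ha : a < M i j ∨ M i j = 0)
    (hi : ∀ x, 0 ≤ rho cs v (al i) x) (hj : ∀ x, 0 ≤ rho cs v (al j) x) :
    ∀ x, 0 ≤ rho cs (v * cs.wordProd (alternatingWord i j a)) (al i) x := by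
  rw [map_mul, Module.End.mul_apply, rho_alt]
  have h1 := UU_nonneg (M i j) (M.off_diagonal i j hij) a (by omega)
  have h2 := UU_nonneg (M i j) (M.off_diagonal i j hij) (a + 1) (by omega)
  split_ifs
  · rw [map_add, map_smul, map_smul]
    exact comb_nonneg h2 h1 hi hj
  · rw [map_add, map_smul, map_smul]
    exact comb_nonneg h1 h2 hi hj

/-- if `a ≥ M i j ≠ 0` then a reduced product `v * alt_a(i,j)` has `i` as a right descent -/
theorem descent_of_long {i j : B} (h0 : M i j ≠ 0) (v w : W) (a : ℕ) (ha : M i j ≤ a)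
    (hw : w = v * cs.wordProd (alternatingWord i j a)) (hl : cs.length w = cs.length v + a) :
    cs.IsRightDescent w i := by
  obtain ⟨b, rfl⟩ : ∃ b, a = b + M i j := ⟨a - M i j, by omega⟩
  -- split off a braid word
  have split : ∀ (b m : ℕ), ∃ L : List B, L.length = b ∧
      alternatingWord i j (b + m) = L ++ alternatingWord i j m := by
    intro b m
    induction b with
    | zero => exact ⟨[], rfl, by simp⟩
    | succ b ih =>
      obtain ⟨L, hL, hL'⟩ := ih
      refine ⟨(if Even (b + m) then j else i) :: L, by simp [hL], ?_⟩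
      rw [show b + 1 + m = (b + m) + 1 by ring, alternatingWord_succ', hL']
      rfl
  obtain ⟨L, hL, hL'⟩ := split b (M i j)
  obtain ⟨m, hm⟩ : ∃ m, M i j = m + 1 := ⟨M i j - 1, by omega⟩
  have hbraid : cs.wordProd (alternatingWord i j (M i j)) =
      cs.wordProd (alternatingWord i j m) * cs.simple i := by
    have h1 := cs.wordProd_braidWord_eq i j
    rw [braidWord, braidWord, M.symmetric j i] at h1
    rw [h1, hm, alternatingWord_succ, cs.wordProd_concat]
  rw [cs.isRightDescent_iff]
  have h3 : w * cs.simple i = v * cs.wordProd L * cs.wordProd (alternatingWord i j m) := by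
    rw [hw, hL', cs.wordProd_append, hbraid]
    simp only [mul_assoc, cs.simple_mul_simple_self, mul_one]
  have h4 : cs.length (w * cs.simple i) ≤ cs.length v + b + m := by
    rw [h3]
    refine (cs.length_mul_le _ _).trans ?_
    refine Nat.add_le_add ((cs.length_mul_le _ _).trans ?_) ?_
    · refine Nat.add_le_add le_rfl ?_
      rw [← hL]
      exact cs.length_wordProd_le L
    · have := cs.length_wordProd_le (alternatingWord i j m)
      rwa [length_alternatingWord] at this
  have h5 := cs.length_mul_simple w i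
  omega

/-- positivity: if `i` is not a right descent of `w` then `w α_i ≥ 0` -/
theorem rho_pos (w : W) (i : B) (hi : ¬ cs.IsRightDescent w i) :
    ∀ x, 0 ≤ rho cs w (al i) x := by
  classical
  induction hn : cs.length w using Nat.strong_induction_on generalizing w i with
  | _ n ih =>
    rcases eq_or_ne w 1 with rfl | hw
    · intro x
      rw [map_one]
      show 0 ≤ (al i : B →₀ ℝ) x
      rw [al, Finsupp.single_apply]
      split_ifs <;> norm_num
    · obtain ⟨j, hj⟩ := cs.exists_rightDescent_of_ne_one hw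
      have hij : i ≠ j := by
        rintro rfl
        exact hi hj
      obtain ⟨v, a, hv, hl, h1a, hvi, hvj⟩ := max_dihedral (i := i) cs w hj
      have ha : a < M i j ∨ M i j = 0 := by
        by_contra hcon
        push Not at hcon
        exact hi (descent_of_long cs hcon.2 v w a hcon.1 hv hl)
      have hlt : cs.length v < n := by omega
      have p1 := ih _ hlt v i hvi rfl
      have p2 := ih _ hlt v j hvj rfl
      rw [hv]
      exact alt_pos cs hij v a ha p1 p2

/-- negativity: if `i` is a right descent of `w` then `w α_i ≤ 0` -/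
theorem rho_neg (w : W) (i : B) (hi : cs.IsRightDescent w i) :
    ∀ x, rho cs w (al i) x ≤ 0 := by
  intro x
  rw [cs.isRightDescent_iff_not_isRightDescent_mul] at hi
  have h := rho_pos cs _ i hi x
  rw [map_mul, Module.End.mul_apply, rho_simple, sig_self, map_neg, Finsupp.neg_apply] at h
  linarith

theorem not_both (w : W) (i : B) (h1 : ∀ x, 0 ≤ rho cs w (al i) x)
    (h2 : ∀ x, rho cs w (al i) x ≤ 0) : False := by
  apply rho_ne_zero cs w i
  ext x
  exact le_antisymm (h2 x) (h1 x)

theorem isRightDescent_of_neg (w : W) (i : B) (h : ∀ x, rho cs w (al i) x ≤ 0) :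
    cs.IsRightDescent w i := by
  by_contra hcon
  exact not_both cs w i (rho_pos cs w i hcon) h

/-! ### The statements -/

include cs in
theorem M_ne_zero [Finite W] (i j : B) : M i j ≠ 0 := by
  classical
  intro h0
  have hij : i ≠ j := by
    rintro rfl
    rw [M.diagonal] at h0
    exact one_ne_zero h0
  have hfin := isOfFinOrder_of_finite (cs.simple i * cs.simple j)
  obtain ⟨n, hn, hpow⟩ := isOfFinOrder_iff_pow_eq_one.mp hfin
  have h1 := cs.prod_alternatingWord_eq_mul_pow i j (2 * n)
  rw [if_pos (even_two_mul n), one_mul, Nat.mul_div_cancel_left n (by norm_num), hpow] at h1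
  have h2 := rho_alt cs i j (2 * n)
  rw [if_pos (even_two_mul n), h1, map_one, h0] at h2
  simp only [Nat.cast_zero, div_zero, Real.cos_zero] at h2
  rw [(UU_one (2 * n)).1, (UU_one (2 * n)).2] at h2
  have h3 := congrArg (fun f => f j) h2
  simp only [al, Module.End.one_apply, Finsupp.add_apply, Finsupp.smul_apply,
    Finsupp.single_apply, if_neg hij, if_true, smul_eq_mul, mul_zero, zero_add, mul_one] at h3
  have : ((2 * n : ℕ) : ℝ) = 0 := h3.symm
  have h4 : 2 * n = 0 := by exact_mod_cast this
  omega

theorem simple_injective : Function.Injective cs.simple := by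
  classical
  intro i j h
  by_contra hij
  have h1 : sig M i (al i) = sig M j (al i) := by
    rw [← rho_simple cs i, ← rho_simple cs j, h]
  rw [sig_self, sig_apply] at h1
  have h2 := congrArg (fun f => f i) h1
  simp only [al, Finsupp.neg_apply, Finsupp.single_apply, if_true, Finsupp.sub_apply,
    Finsupp.smul_apply, if_neg (Ne.symm hij), smul_eq_mul, mul_zero, sub_zero] at h2
  norm_num at h2

theorem two_right_descents [Finite W] {i j : B} (hij : i ≠ j) {w : W}
    (hi : cs.IsRightDescent w i) (hj : cs.IsRightDescent w j) :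
    ∃ w1, w = w1 * cs.wordProd (alternatingWord i j (M i j)) ∧
      cs.length w = cs.length w1 + M i j := by
  obtain ⟨v, a, hv, hl, h1a, hvi, hvj⟩ := max_dihedral (i := i) cs w hj
  have h0 := M_ne_zero cs i j
  have h1 : ¬ a < M i j := by
    intro ha
    have hpos := alt_pos cs hij v a (Or.inl ha) (rho_pos cs v i hvi) (rho_pos cs v j hvj)
    rw [← hv] at hpos
    exact not_both cs w i hpos (rho_neg cs w i hi)
  have h2 : ¬ M i j < a := by
    intro ha
    have h3 := cs.not_isReduced_alternatingWord i j h0 ha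
    have h4 := cs.length_wordProd_le (alternatingWord i j a)
    rw [CoxeterSystem.IsReduced] at h3
    rw [length_alternatingWord] at h3 h4
    have h5 := cs.length_mul_le v (cs.wordProd (alternatingWord i j a))
    rw [← hv] at h5
    omega
  have h3 : a = M i j := by omega
  subst h3
  exact ⟨v, hv, hl⟩

theorem dihedral_decomp [Finite W] {i j : B} (_hij : i ≠ j) {w : W}
    (hi : ¬ cs.IsRightDescent w i) (hj : cs.IsRightDescent w j) :
    ∃ v a, w = v * cs.wordProd (alternatingWord i j a) ∧ cs.length w = cs.length v + a ∧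
      1 ≤ a ∧ a < M i j ∧ ¬ cs.IsRightDescent v i ∧ ¬ cs.IsRightDescent v j := by
  obtain ⟨v, a, hv, hl, h1a, hvi, hvj⟩ := max_dihedral (i := i) cs w hj
  have h0 := M_ne_zero cs i j
  refine ⟨v, a, hv, hl, h1a, ?_, hvi, hvj⟩
  by_contra hcon
  exact hi (descent_of_long cs h0 v w a (by omega) hv hl)

/-- every simple index is a right descent of a longest element -/
theorem longest_descent {w0 : W} (h0 : ∀ w, cs.length w ≤ cs.length w0) (i : B) :
    cs.IsRightDescent w0 i := by
  by_contra hcon
  rw [cs.not_isRightDescent_iff] at hcon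
  have := h0 (w0 * cs.simple i)
  omega

/-- a linear map sending all simple roots to nonpositive vectors sends nonnegative vectors to
nonpositive vectors -/
theorem map_nonneg_nonpos (T : Module.End ℝ (B →₀ ℝ)) (hT : ∀ i x, T (al i) x ≤ 0)
    (f : B →₀ ℝ) (hf : ∀ x, 0 ≤ f x) : ∀ x, T f x ≤ 0 := by
  intro x
  have h1 : f = f.sum (fun i a => a • al i) := by
    conv_lhs => rw [← Finsupp.sum_single f]
    apply Finsupp.sum_congr
    intro i _
    simp [al]
  rw [h1, Finsupp.sum, map_sum, Finsupp.finsetSum_apply]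
  apply Finset.sum_nonpos
  intro i _
  rw [map_smul, Finsupp.smul_apply, smul_eq_mul]
  exact mul_nonpos_of_nonneg_of_nonpos (hf i) (hT i x)

theorem longest_add {w0 : W} (h0 : ∀ w, cs.length w ≤ cs.length w0) (v : W) :
    cs.length w0 = cs.length (w0 * v⁻¹) + cs.length v := by
  induction hn : cs.length v generalizing v with
  | zero =>
    rw [cs.length_eq_zero_iff] at hn
    subst hn
    simp
  | succ n ih =>
    have hv1 : v ≠ 1 := by
      rintro rfl
      simp at hn
    obtain ⟨i, hi⟩ := cs.exists_leftDescent_of_ne_one hv1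
    rw [cs.isLeftDescent_iff] at hi
    set u := cs.simple i * v with hu
    have hv : v = cs.simple i * u := by rw [hu, cs.simple_mul_simple_cancel_left]
    have hun : cs.length u = n := by omega
    have h1 := ih u hun
    have h2 : ¬ cs.IsRightDescent u⁻¹ i := by
      rw [cs.isRightDescent_inv_iff, CoxeterSystem.IsLeftDescent, ← hv]
      omega
    have h3 := rho_pos cs _ i h2
    have h4 : ∀ x, rho cs (w0 * u⁻¹) (al i) x ≤ 0 := by
      rw [map_mul, Module.End.mul_apply]
      exact map_nonneg_nonpos _ (fun j => rho_neg cs w0 j (longest_descent cs h0 j)) _ h3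
    have h5 := isRightDescent_of_neg cs _ i h4
    rw [cs.isRightDescent_iff] at h5
    have h6 : w0 * v⁻¹ = w0 * u⁻¹ * cs.simple i := by
      rw [hv, mul_inv_rev, cs.inv_simple, mul_assoc]
    rw [h6]
    omega

theorem longest_add' {w0 : W} (h0 : ∀ w, cs.length w ≤ cs.length w0) (v : W) :
    cs.length w0 = cs.length v + cs.length (v⁻¹ * w0) := by
  have h1 : ∀ w, cs.length w ≤ cs.length w0⁻¹ := by
    intro w
    rw [cs.length_inv]
    exact h0 w
  have h2 := longest_add cs h1 v⁻¹
  rw [cs.length_inv, inv_inv, cs.length_inv] at h2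
  have h3 : cs.length (w0⁻¹ * v) = cs.length (v⁻¹ * w0) := by
    rw [← cs.length_inv]
    simp
  rw [h3] at h2
  omega

end roots

end Helper66.MC
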