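import Pool.Agent.Helper66.MC.Dihedral
import Pool.Agent.Helper66.MC.Avoid
import Pool.Agent.Helper66.MC.Cox

/-!
W-level assembly: operators of reduced words, saturation, vanishing and nonvanishing,
the key statement and nestedness.
-/

set_option autoImplicit false

namespace Helper66.MC

open Finsupp CoxeterSystem

section words

variable {B W : Type*} [Group W] {M : CoxeterMatrix B} (cs : CoxeterSystem M W)

omit [Group W] in
theorem exists_eq_append_last {U : List B} (h : U ≠ []) : ∃ V i, U = V ++ [i] :=
  ⟨U.dropLast, U.getLast h, (List.dropLast_append_getLast h).symm⟩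

theorem isReduced_append_singleton {V : List B} {i : B} (hV : cs.IsReduced V)
    (hi : ¬ cs.IsRightDescent (cs.wordProd V) i) : cs.IsReduced (V ++ [i]) := by
  rw [cs.not_isRightDescent_iff] at hi
  rw [CoxeterSystem.IsReduced, wordProd_append, wordProd_singleton, hi, hV.eq]
  simp

theorem isReduced_prefix {V X : List B} (h : cs.IsReduced (V ++ X)) : cs.IsReduced V := by
  have := h.take V.length
  simpa using this

theorem isRightDescent_last {V : List B} {i : B} (h : cs.IsReduced (V ++ [i])) :
    cs.IsRightDescent (cs.wordProd (V ++ [i])) i := by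
  have h1 := isReduced_prefix cs h
  rw [CoxeterSystem.IsRightDescent, h.eq, wordProd_append, wordProd_singleton,
    simple_mul_simple_cancel_right, h1.eq]
  simp

theorem exists_last_of_descent {w : W} {i : B} (h : cs.IsRightDescent w i) :
    ∃ V : List B, cs.IsReduced V ∧ cs.IsReduced (V ++ [i]) ∧ cs.wordProd (V ++ [i]) = w := by
  obtain ⟨V, hV, hw⟩ := cs.exists_isReduced (w * cs.simple i)
  have h1 : cs.wordProd (V ++ [i]) = w := by
    rw [wordProd_append, wordProd_singleton, ← hw, simple_mul_simple_cancel_right]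
  refine ⟨V, hV, ?_, h1⟩
  apply isReduced_append_singleton cs hV
  rw [← hw]
  exact (cs.isRightDescent_iff_not_isRightDescent_mul).1 h

theorem isReduced_append {V X : List B} (hlen : cs.length (cs.wordProd (V ++ X))
    = V.length + X.length) : cs.IsReduced (V ++ X) := by
  rw [CoxeterSystem.IsReduced, hlen]; simp

end words

variable {B W : Type*} [DecidableEq B] [Fintype B] [Group W] [Finite W] {M : CoxeterMatrix B}
  (cs : CoxeterSystem M W) {v0 : St B}

/-- E1: the operator of a reduced word only depends on the element -/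
theorem Tw_eq_of_reduced (n : ℕ) : ∀ U U' : List B, cs.IsReduced U → cs.IsReduced U' →
    U.length = n → cs.wordProd U = cs.wordProd U' → ∀ N : Submodule (ZMod 2) (FM B),
    Closed M v0 N → Tw M v0 U N = Tw M v0 U' N := by
  induction n with
  | zero =>
    intro U U' hU hU' hn h N _
    have h1 : U = [] := List.length_eq_zero_iff.1 hn
    have h2 : U' = [] := by
      rw [← List.length_eq_zero_iff, ← hU'.eq, ← h, hU.eq, hn]
    rw [h1, h2]
  | succ n ih =>
    -- the case of equal last letters
    have same : ∀ (U U' : List B) (i : B), cs.IsReduced (U ++ [i]) → cs.IsReduced (U' ++ [i]) →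
        U.length = n → cs.wordProd (U ++ [i]) = cs.wordProd (U' ++ [i]) →
        ∀ N : Submodule (ZMod 2) (FM B), Closed M v0 N →
        Tw M v0 (U ++ [i]) N = Tw M v0 (U' ++ [i]) N := by
      intro U U' i hU hU' hn h N hN
      rw [wordProd_append, wordProd_append] at h
      have h1 := ih U U' (isReduced_prefix cs hU) (isReduced_prefix cs hU') hn
        (mul_right_cancel h) N hN
      rw [Tw_append, Tw_append, h1]
    intro U U' hU hU' hn h N hN
    have hU0 : U ≠ [] := by rintro rfl; simp at hn
    have hn' : U'.length = n + 1 := by rw [← hU'.eq, ← h, hU.eq, hn]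
    have hU0' : U' ≠ [] := by rintro rfl; simp at hn'
    obtain ⟨U1, i, rfl⟩ := exists_eq_append_last hU0
    obtain ⟨U2, j, rfl⟩ := exists_eq_append_last hU0'
    have hl1 : U1.length = n := by simpa using hn
    have hl2 : U2.length = n := by simpa using hn'
    by_cases hij : i = j
    · subst hij
      exact same U1 U2 i hU hU' hl1 h N hN
    · have hi := isRightDescent_last cs hU
      have hj := isRightDescent_last cs hU'
      rw [← h] at hj
      obtain ⟨w1, hw1, hlen⟩ := two_right_descents cs hij hi hj
      obtain ⟨V, hV, rfl⟩ := cs.exists_isReduced w1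
      have hM : M i j ≠ 0 := M_ne_zero cs i j
      obtain ⟨m, hm⟩ : ∃ m, M i j = m + 1 := ⟨M i j - 1, by omega⟩
      have hbr : cs.wordProd (alternatingWord i j (M i j))
          = cs.wordProd (alternatingWord j i (M i j)) := by
        have := cs.wordProd_braidWord_eq i j
        rw [braidWord, braidWord, M.symmetric j i] at this
        exact this
      have hlV : V.length + M i j = n + 1 := by
        rw [← hV.eq, ← hlen, hU.eq, hn]
      have r1 : cs.IsReduced (V ++ alternatingWord i j (M i j)) := by
        apply isReduced_append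
        rw [wordProd_append, ← hw1, hU.eq, length_alternatingWord, hn, hlV]
      have r2 : cs.IsReduced (V ++ alternatingWord j i (M i j)) := by
        apply isReduced_append
        rw [wordProd_append, ← hbr, ← hw1, hU.eq, length_alternatingWord, hn, hlV]
      have e1 : V ++ alternatingWord i j (M i j) = (V ++ alternatingWord j i m) ++ [j] := by
        rw [hm, alternatingWord_succ, List.concat_eq_append, List.append_assoc]
      have e2 : V ++ alternatingWord j i (M i j) = (V ++ alternatingWord i j m) ++ [i] := by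
        rw [hm, alternatingWord_succ, List.concat_eq_append, List.append_assoc]
      -- U = ... i ~ V ++ alt j i
      have s1 : Tw M v0 (U1 ++ [i]) N = Tw M v0 (V ++ alternatingWord j i (M i j)) N := by
        rw [e2] at r2 ⊢
        apply same _ _ _ hU r2 hl1 _ N hN
        rw [← e2, wordProd_append cs V, ← hbr, ← hw1]
      have s2 : Tw M v0 (U2 ++ [j]) N = Tw M v0 (V ++ alternatingWord i j (M i j)) N := by
        rw [e1] at r1 ⊢
        apply same _ _ _ hU' r1 hl2 _ N hN
        rw [← e1, wordProd_append cs V, ← hw1, h]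
      rw [s1, s2, Tw_append, Tw_append]
      exact (Tw_braid hij hM (closed_Tw hN)).symm

theorem Tw_reduced {U U' : List B} (hU : cs.IsReduced U) (hU' : cs.IsReduced U')
    (h : cs.wordProd U = cs.wordProd U') {N : Submodule (ZMod 2) (FM B)} (hN : Closed M v0 N) :
    Tw M v0 U N = Tw M v0 U' N := Tw_eq_of_reduced cs _ U U' hU hU' rfl h N hN

/-- absorption -/
theorem T_absorb {V : List B} (hV : cs.IsReduced V) {i : B}
    (hi : cs.IsRightDescent (cs.wordProd V) i) {N : Submodule (ZMod 2) (FM B)}
    (hN : Closed M v0 N) : T M v0 {i} (Tw M v0 V N) = Tw M v0 V N := by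
  obtain ⟨V1, -, h2, h3⟩ := exists_last_of_descent cs hi
  rw [Tw_reduced cs hV h2 h3.symm hN, Tw_append, Tw_cons, Tw_nil, T_T]

/-- every word has a reduced subword with the same operator -/
theorem exists_reduced_subword (U : List B) : ∃ V : List B, V.Sublist U ∧ cs.IsReduced V ∧
    ∀ (v0 : St B) (N : Submodule (ZMod 2) (FM B)), Closed M v0 N →
      Tw M v0 U N = Tw M v0 V N := by
  induction U using List.reverseRecOn with
  | nil => exact ⟨[], List.Sublist.refl _, by simp [CoxeterSystem.IsReduced], fun _ _ _ => rfl⟩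
  | append_singleton U i ih =>
    obtain ⟨V, h1, h2, h3⟩ := ih
    by_cases hi : cs.IsRightDescent (cs.wordProd V) i
    · refine ⟨V, h1.trans (List.sublist_append_left _ _), h2, fun v0 N hN => ?_⟩
      rw [Tw_append, Tw_cons, Tw_nil, h3 v0 N hN, T_absorb cs h2 hi hN]
    · refine ⟨V ++ [i], h1.append (List.Sublist.refl _), isReduced_append_singleton cs h2 hi,
        fun v0 N hN => ?_⟩
      rw [Tw_append, Tw_append, h3 v0 N hN]

/-- the operator of the first `t` letters is the one of the greedy product -/
theorem Tw_greedy (q : ℕ → B) (t : ℕ) : ∀ V : List B, cs.IsReduced V →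
    cs.wordProd V = greedy cs q t → ∀ (v0 : St B) (N : Submodule (ZMod 2) (FM B)),
    Closed M v0 N → Tw M v0 ((List.range t).map q) N = Tw M v0 V N := by
  induction t with
  | zero =>
    intro V hV h v0 N _
    have : V = [] := by
      rw [← List.length_eq_zero_iff, ← hV.eq, h]
      simp [greedy]
    rw [this]
    rfl
  | succ t ih =>
    intro V hV h v0 N hN
    rw [List.range_succ, List.map_append, List.map_singleton, Tw_append, Tw_cons, Tw_nil]
    obtain ⟨V', hV', hw⟩ := cs.exists_isReduced (greedy cs q t)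
    rw [ih V' hV' hw.symm v0 N hN]
    by_cases hu : cs.length (greedy cs q t) < cs.length (greedy cs q t * cs.simple (q t))
    · have hg : greedy cs q (t + 1) = greedy cs q t * cs.simple (q t) := by
        rw [greedy, if_pos hu]
      have hnd : ¬ cs.IsRightDescent (cs.wordProd V') (q t) := by
        rw [← hw, CoxeterSystem.IsRightDescent]
        omega
      have hr := isReduced_append_singleton cs hV' hnd
      have he : cs.wordProd V = cs.wordProd (V' ++ [q t]) := by
        rw [h, hg, wordProd_append, wordProd_singleton, ← hw]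
      rw [Tw_reduced cs hV hr he hN, Tw_append, Tw_cons, Tw_nil]
    · have hg : greedy cs q (t + 1) = greedy cs q t := by
        rw [greedy, if_neg hu]
      have hd : cs.IsRightDescent (cs.wordProd V') (q t) := by
        rw [← hw, CoxeterSystem.IsRightDescent]
        have := cs.length_mul_simple_ne (greedy cs q t) (q t)
        omega
      rw [T_absorb cs hV' hd hN]
      exact Tw_reduced cs hV' hV (by rw [h, hg, hw]) hN

omit [Fintype B] in
theorem sat_top (i : B) : Sat v0 i (⊤ : Submodule (ZMod 2) (FM B)) :=
  fun _ _ _ _ _ => Submodule.mem_top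

/-- E2 -/
theorem sat_Tw (n : ℕ) : ∀ V : List B, cs.IsReduced V → V.length = n → ∀ i,
    ¬ cs.IsRightDescent (cs.wordProd V) i → Sat v0 i (Tw M v0 V ⊤) := by
  induction n using Nat.strong_induction_on with
  | _ n ih =>
    intro V hV hn i hi
    rcases Nat.eq_zero_or_pos n with h0 | h0
    · subst h0
      rw [List.length_eq_zero_iff.1 hn, Tw_nil]
      exact sat_top i
    have hV0 : V ≠ [] := by rintro rfl; simp at hn; omega
    obtain ⟨V1, j, rfl⟩ := exists_eq_append_last hV0
    have hj := isRightDescent_last cs hV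
    have hij : i ≠ j := by
      rintro rfl; exact hi hj
    obtain ⟨v, a, hw, hlen, ha1, ha2, hvi, hvj⟩ := dihedral_decomp cs hij hi hj
    obtain ⟨V', hV', rfl⟩ := cs.exists_isReduced v
    have hr : cs.IsReduced (V' ++ alternatingWord i j a) := by
      apply isReduced_append
      rw [wordProd_append, ← hw, hlen, hV'.eq, length_alternatingWord]
    have hl : V'.length < n := by
      rw [hV.eq, hn, hV'.eq] at hlen
      omega
    rw [Tw_reduced cs hV hr (by rw [hw, wordProd_append]) (closed_top M v0), Tw_append]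
    exact sat_Tw_alt hij (closed_Tw (closed_top M v0)) (ih _ hl V' hV' rfl i hvi)
      (ih _ hl V' hV' rfl j hvj) ha2

section finite

variable (ω : List B) (hn : 0 < ω.length) (hnd : ω.Nodup) (hall : ∀ b, b ∈ ω)

include hall in
omit [DecidableEq B] [Fintype B] in
theorem tm_lt (w : List (Step B)) : tm v0 (per ω hn) w < (w.length + 1) * ω.length := by
  induction w with
  | nil =>
    have := (next_spec ω hn hall 0 v0.1).2.1
    simp only [tm, List.length_nil]
    omega
  | cons s w ih =>
    have := (next_spec ω hn hall (tm v0 (per ω hn) w + 1) s.1).2.1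
    simp only [tm, List.length_cons]
    rw [add_mul (w.length + 1), one_mul]
    omega

theorem sup_span_mono {P P' : List (Step B) → Prop} (h : ∀ w, P w → P' w) :
    K M v0 ⊔ Submodule.span (ZMod 2) {f | ∃ w, P w ∧ f = single w 1}
      ≤ K M v0 ⊔ Submodule.span (ZMod 2) {f | ∃ w, P' w ∧ f = single w 1} := by
  rw [sup_le_iff]
  refine ⟨le_sup_left, ?_⟩
  rw [Submodule.span_le]
  rintro _ ⟨w, hw, rfl⟩
  exact Submodule.mem_sup_right (Submodule.subset_span ⟨w, h w hw, rfl⟩)

/-- a homogeneous single word in `K ⊔ span (words with property P)` but not in `K`: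
some word with `P` and with the same statistics is not in `K` -/
theorem exists_word {z : List (Step B)} (hz : (single z 1 : FM B) ∉ K M v0)
    {P : List (Step B) → Prop} (hmem : (single z 1 : FM B) ∈ K M v0 ⊔
      Submodule.span (ZMod 2) {f | ∃ w, P w ∧ f = single w 1})
    {β γ : Type*} {g : List (Step B) → β} (hg : Adm v0 g) {g' : List (Step B) → γ}
    (hg' : Adm v0 g') : ∃ w, P w ∧ g w = g z ∧ g' w = g' z ∧ (single w 1 : FM B) ∉ K M v0 := by
  classical
  by_contra hcon
  push Not at hcon
  apply hz
  rw [Submodule.mem_sup] at hmem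
  obtain ⟨κ, hκ, f, hf, hkf⟩ := hmem
  have h1 : pr (fun w => g' w = g' z) (pr (fun w => g w = g z) (single z 1 : FM B))
      = single z 1 := by
    rw [pr_single_pos (p := fun w => g w = g z) rfl, pr_single_pos (p := fun w => g' w = g' z) rfl]
  rw [← h1, ← hkf, map_add, map_add]
  refine Submodule.add_mem _ (K_graded M v0 hg' (fun x => x = g' z)
    (K_graded M v0 hg (fun x => x = g z) hκ)) ?_
  clear hkf h1
  induction hf using Submodule.span_induction with
  | mem f hf =>
    obtain ⟨w, hw, rfl⟩ := hf
    by_cases h2 : g w = g z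
    · rw [pr_single_pos (p := fun w => g w = g z) h2]
      by_cases h3 : g' w = g' z
      · rw [pr_single_pos (p := fun w => g' w = g' z) h3]
        exact hcon w hw h2 h3
      · rw [pr_single_neg (p := fun w => g' w = g' z) h3]
        exact Submodule.zero_mem _
    · rw [pr_single_neg (p := fun w => g w = g z) h2, map_zero]
      exact Submodule.zero_mem _
  | zero => rw [map_zero, map_zero]; exact Submodule.zero_mem _
  | add f g _ _ hf hg => rw [map_add, map_add]; exact Submodule.add_mem _ hf hg
  | smul c f _ hf => rw [map_smul, map_smul]; exact Submodule.smul_mem _ _ hf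

theorem Tw_absorb_all {V : List B} (hV : cs.IsReduced V)
    (hd : ∀ i, cs.IsRightDescent (cs.wordProd V) i) {N : Submodule (ZMod 2) (FM B)}
    (hN : Closed M v0 N) (U : List B) : Tw M v0 U (Tw M v0 V N) = Tw M v0 V N := by
  induction U with
  | nil => rfl
  | cons i U ih => rw [Tw_cons, T_absorb cs hV (hd i) hN, ih]

include hn hall in
/-- E3 -/
theorem Tw_longest {V : List B} (hV : cs.IsReduced V)
    (hd : ∀ i, cs.IsRightDescent (cs.wordProd V) i) : Tw M v0 V ⊤ = K M v0 := by
  classical
  apply le_antisymm _ (closed_Tw (closed_top M v0)).ker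
  intro f hf
  -- choose D larger than all lengths
  let D := f.support.sup List.length + 1
  have h1 : f ∈ Tw M v0 ((List.range (D * ω.length)).map (per ω hn)) ⊤ := by
    have := Tw_mono (M := M) (v0 := v0) (U := (List.range (D * ω.length)).map (per ω hn))
      (le_top : Tw M v0 V ⊤ ≤ ⊤)
    rw [Tw_absorb_all cs hV hd (closed_top M v0)] at this
    exact this hf
  rw [Tw_top, Submodule.mem_sup] at h1
  obtain ⟨κ, hκ, g, hg, hkg⟩ := h1
  have hfD : pr (fun w => w.length < D) f = f := by
    rw [pr_eq_self_iff]
    intro w hw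
    exact Nat.lt_succ_of_le (Finset.le_sup (f := List.length) (Finsupp.mem_support_iff.2 hw))
  have hgD : pr (fun w => w.length < D) g = 0 := by
    clear hkg
    induction hg using Submodule.span_induction with
    | mem f hf =>
      obtain ⟨w, hw, rfl⟩ := hf
      refine pr_single_neg (p := fun w : List (Step B) => w.length < D) (fun h => hw ?_) 1
      apply tyw_sublist_of_tm_lt ω hn hall
      refine lt_of_lt_of_le (tm_lt ω hn hall w) ?_
      exact Nat.mul_le_mul_right _ h
    | zero => rw [map_zero]
    | add f g _ _ hf hg => rw [map_add, hf, hg, add_zero]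
    | smul c f _ hf => rw [map_smul, hf, smul_zero]
  rw [← hfD, ← hkg, map_add, hgD, add_zero]
  exact K_graded M v0 (adm_length v0) (fun n => n < D) hκ

variable {w0 : W} (h0 : ∀ w : W, cs.length w ≤ cs.length w0)

include h0 in
omit [DecidableEq B] [Fintype B] [Finite W] in
theorem descent_w0 (i : B) : cs.IsRightDescent w0 i := by
  have h1 := h0 (w0 * cs.simple i)
  have h2 := cs.length_mul_simple_ne w0 i
  rw [CoxeterSystem.IsRightDescent]
  omega

include hn hall h0 in
theorem Tw_w0 {V : List B} (hV : cs.IsReduced V) (h : cs.wordProd V = w0) :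
    Tw M v0 V ⊤ = K M v0 :=
  Tw_longest cs ω hn hall hV (fun i => by rw [h]; exact descent_w0 cs h0 i)

include hn hall h0 in
/-- a word not in `K` is a subword of every word containing `w0` -/
theorem sublist_of_not_mem_K {w : List (Step B)} (hw : (single w 1 : FM B) ∉ K M v0)
    {V : List B} (hV : HasW0 cs w0 V) : (tyw v0 w).Sublist V := by
  obtain ⟨V', h1, h2, h3⟩ := hV
  by_contra hcon
  apply hw
  have hr : cs.IsReduced V' := by rw [CoxeterSystem.IsReduced, h2, h3]
  rw [← Tw_w0 cs ω hn hall h0 hr h2, Tw_top]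
  exact Submodule.mem_sup_right (Submodule.subset_span ⟨w, fun h => hcon (h.trans h1), rfl⟩)

include hn hall h0 in
/-- E4 -/
theorem exists_nonzero (i : B) : ∃ (v0 : St B) (z : List (Step B)),
    (single z 1 : FM B) ∉ K M v0 ∧ (en v0 z).1 = i ∧
    ∀ V : List B, cs.IsReduced V → cs.wordProd V = w0 * cs.simple i →
      (single z 1 : FM B) ∈ Tw M v0 V ⊤ := by
  classical
  -- the starting type
  have hlen1 : ∀ i : B, cs.length (w0 * cs.simple i * w0⁻¹) = 1 := by
    intro i
    have h1 := longest_add cs h0 (w0 * cs.simple i)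
    have h2 := (cs.isRightDescent_iff).1 (descent_w0 cs h0 i)
    have h3 : w0 * (w0 * cs.simple i)⁻¹ = w0 * cs.simple i * w0⁻¹ := by
      rw [mul_inv_rev, cs.inv_simple, mul_assoc]
    rw [h3] at h1
    omega
  obtain ⟨i0, hi0⟩ := (cs.length_eq_one_iff).1 (hlen1 i)
  let v0 : St B := (i0, fun _ => 1)
  have hr : InRange M v0 := by
    intro a b hab
    have h1 : M a b ≠ 0 := M_ne_zero cs a b
    have h2 : M a b ≠ 1 := M.off_diagonal a b hab
    refine ⟨le_refl _, ?_⟩
    have : 2 ≤ M a b := by omega
    show (1 : ℤ) + 1 ≤ _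
    exact_mod_cast this
  have hnil := nil_not_mem_K hr
  obtain ⟨V0, hV0, hV0w⟩ := cs.exists_isReduced w0
  -- long words are in K
  have hlong : ∀ w : List (Step B), (single w 1 : FM B) ∉ K M v0 → w.length ≤ V0.length := by
    intro w hw
    have := sublist_of_not_mem_K cs ω hn hall h0 hw
      ⟨V0, List.Sublist.refl _, hV0w.symm, by rw [← hV0.eq, ← hV0w]⟩
    have := this.length_le
    simp only [tyw, List.length_cons, List.length_reverse, List.length_map] at this
    omega
  -- longest word not in K
  obtain ⟨z, hz, hmax⟩ : ∃ z : List (Step B), (single z 1 : FM B) ∉ K M v0 ∧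
      ∀ s, (single (s :: z) 1 : FM B) ∈ K M v0 := by
    by_contra hcon
    push Not at hcon
    have : ∀ n : ℕ, ∃ z : List (Step B), z.length = n ∧ (single z 1 : FM B) ∉ K M v0 := by
      intro n
      induction n with
      | zero => exact ⟨[], rfl, hnil⟩
      | succ n ih =>
        obtain ⟨z, hzl, hz⟩ := ih
        obtain ⟨s, hs⟩ := hcon z hz
        exact ⟨s :: z, by simp [hzl], hs⟩
    obtain ⟨z, hzl, hz⟩ := this (V0.length + 1)
    have := hlong z hz
    omega
  set i' := (en v0 z).1 with hi'
  obtain ⟨V', hV', hVr, hVw⟩ := exists_last_of_descent cs (descent_w0 cs h0 i')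
  have hV'w : cs.wordProd V' = w0 * cs.simple i' := by
    rw [← hVw, wordProd_append, wordProd_singleton, simple_mul_simple_cancel_right]
  have hnd' : ¬ cs.IsRightDescent (cs.wordProd V') i' := by
    rw [hV'w]
    exact (cs.isRightDescent_iff_not_isRightDescent_mul).1 (descent_w0 cs h0 i')
  have hzV' : (single z 1 : FM B) ∈ Tw M v0 V' ⊤ := by
    refine sat_Tw cs _ V' hV' rfl i' hnd' (en v0 z) _ rfl
      (On_single (p := fun w => en v0 w = en v0 z) rfl 1) (fun s => ?_)
    rw [S_single]
    exact (closed_Tw (closed_top M v0)).ker (hmax s)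
  have hww : w0 * cs.simple i' = w0 * cs.simple i := by
    by_contra hne
    obtain ⟨j, hj⟩ := (cs.length_eq_one_iff).1 (hlen1 i')
    have hji : j ≠ i0 := by
      rintro rfl
      apply hne
      have := hj.trans hi0.symm
      exact mul_right_cancel this
    have hjV : cs.wordProd (j :: V') = w0 := by
      rw [wordProd_cons, hV'w, ← hj]
      have : w0 * cs.simple i' * w0⁻¹ * (w0 * cs.simple i') = w0 * (cs.simple i' * cs.simple i') := by
        group
      rw [this, simple_mul_simple_self, mul_one]
    have hjr : cs.IsReduced (j :: V') := by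
      rw [CoxeterSystem.IsReduced, hjV, ← hVw, hVr.eq]
      simp
    apply hz
    rw [← Tw_w0 cs ω hn hall h0 hjr hjV, Tw_top]
    rw [Tw_top] at hzV'
    refine sup_span_mono (fun w hw h => hw ?_) hzV'
    rw [tyw] at h ⊢
    rw [List.cons_sublist_cons'] at h
    rcases h with h | h
    · exact h
    · exact absurd h.1.symm hji
  have hii : i' = i := simple_injective cs (mul_left_cancel hww)
  refine ⟨v0, z, hz, hii, fun V hV hVw' => ?_⟩
  rw [Tw_reduced cs hV hV' (by rw [hVw', hV'w, hww]) (closed_top M v0)]
  exact hzV'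

include hnd hall h0 in
/-- E5 -/
theorem key' (U : List B) (hU : ¬ HasW0 cs w0 U) : ∃ (v0 : St B) (w : List (Step B)),
    ¬ (tyw v0 w).Sublist U ∧ (single w 1 : FM B) ∉ K M v0 ∧
    ∀ t, Used cs (per ω hn) t → (en v0 w).1 = per ω hn t → t ≤ tm v0 (per ω hn) w := by
  classical
  obtain ⟨V, hVU, hV, hVT⟩ := exists_reduced_subword cs U
  have hVw : cs.wordProd V ≠ w0 := by
    intro h
    exact hU ⟨V, hVU, h, by rw [← h, hV.eq]⟩
  obtain ⟨X, hX, hXw⟩ := cs.exists_isReduced ((cs.wordProd V)⁻¹ * w0)
  have hX0 : X ≠ [] := by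
    rintro rfl
    rw [wordProd_nil] at hXw
    exact hVw (by rw [inv_mul_eq_one] at hXw; exact hXw)
  obtain ⟨X1, i, rfl⟩ := exists_eq_append_last hX0
  have hadd := longest_add' cs h0 (cs.wordProd V)
  rw [hV.eq, hXw, hX.eq] at hadd
  have hprod : cs.wordProd (V ++ (X1 ++ [i])) = w0 := by
    rw [wordProd_append, ← hXw]; group
  have hred : cs.IsReduced (V ++ (X1 ++ [i])) := by
    apply isReduced_append
    rw [hprod, hadd]
  have hred1 : cs.IsReduced (V ++ X1) := by
    rw [← List.append_assoc] at hred
    exact isReduced_prefix cs hred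
  have hprod1 : cs.wordProd (V ++ X1) = w0 * cs.simple i := by
    rw [← hprod, ← List.append_assoc, wordProd_append cs (V ++ X1), wordProd_singleton,
      simple_mul_simple_cancel_right]
  obtain ⟨v0, z, hz, hzi, hzV⟩ := exists_nonzero cs ω hn hall h0 i
  have hzU : (single z 1 : FM B) ∈ Tw M v0 U ⊤ := by
    have h1 := hzV _ hred1 hprod1
    rw [Tw_append] at h1
    rw [hVT v0 ⊤ (closed_top M v0)]
    exact Tw_le (closed_Tw (closed_top M v0)) h1
  rw [Tw_top] at hzU
  obtain ⟨w, hwU, hwt, hwe, hwK⟩ := exists_word hz hzU (adm_tm ω hn hnd hall) (adm_en v0)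
  refine ⟨v0, w, hwU, hwK, fun t ht hte => ?_⟩
  rw [hwt]
  rw [hwe, hzi] at hte
  -- show t ≤ tm z
  by_contra hlt
  push Not at hlt
  obtain ⟨Y, hY, hYw⟩ := cs.exists_isReduced (greedy cs (per ω hn) t)
  have hused : cs.length (greedy cs (per ω hn) t * cs.simple i)
      = cs.length (greedy cs (per ω hn) t) + 1 := by
    rw [Used, ← hte] at ht
    rcases cs.length_mul_simple (greedy cs (per ω hn) t) i with h | h
    · exact h
    · omega
  obtain ⟨Z, hZ, hZw⟩ := cs.exists_isReduced (w0 * (greedy cs (per ω hn) t * cs.simple i)⁻¹)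
  have hadd2 := longest_add cs h0 (greedy cs (per ω hn) t * cs.simple i)
  have hprod2 : cs.wordProd (Z ++ Y) = w0 * cs.simple i := by
    rw [wordProd_append, ← hZw, ← hYw, mul_inv_rev, cs.inv_simple]
    group
  have hred2 : cs.IsReduced (Z ++ Y) := by
    apply isReduced_append
    have h1 := (cs.isRightDescent_iff).1 (descent_w0 cs h0 i)
    rw [hprod2]
    rw [hZw, hZ.eq, hused, hYw, hY.eq] at hadd2
    omega
  have h3 := hzV _ hred2 hprod2
  rw [Tw_top] at h3
  have h4 : (single z 1 : FM B) ∈ Tw M v0 Y ⊤ := by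
    rw [Tw_top]
    exact sup_span_mono (fun w hw h => hw (h.trans (List.sublist_append_right _ _))) h3
  rw [← Tw_greedy cs (per ω hn) t Y hY hYw.symm v0 ⊤ (closed_top M v0), Tw_top] at h4
  obtain ⟨w', hw'1, hw'2, -, -⟩ := exists_word hz h4 (adm_tm ω hn hnd hall) (adm_en v0)
  apply hw'1
  apply tyw_sublist_of_tm_lt ω hn hall
  rw [hw'2]
  exact hlt

include hnd hall h0 in
theorem key (U : List B) (hU : ¬ HasW0 cs w0 U) : ∃ R : List B, R ≠ [] ∧ ¬ R.Sublist U ∧
    (∀ V : List B, HasW0 cs w0 V → R.Sublist V) ∧
    ∀ t, Used cs (per ω hn) t → R.getLast? = some (per ω hn t) → t < fin (per ω hn) R 0 := by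
  obtain ⟨v0, w, h1, h2, h3⟩ := key' cs ω hn hnd hall h0 U hU
  refine ⟨tyw v0 w, by simp [tyw], h1, fun V hV => sublist_of_not_mem_K cs ω hn hall h0 h2 hV,
    fun t ht hte => ?_⟩
  rw [fin_tyw]
  rw [tyw_getLast, Option.some.injEq] at hte
  have := h3 t ht hte
  omega

include hnd hall h0 in
/-- E6 -/
theorem nested (t : ℕ) (ht : Used cs (per ω hn) (t + ω.length)) : Used cs (per ω hn) t := by
  classical
  by_contra hcon
  set i := per ω hn t with hi
  have hi' : per ω hn (t + ω.length) = i := per_add_len ω hn t
  -- `t` is not used: absorption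
  obtain ⟨V, hV, hVw⟩ := cs.exists_isReduced (greedy cs (per ω hn) t)
  have hd : cs.IsRightDescent (cs.wordProd V) i := by
    rw [← hVw, CoxeterSystem.IsRightDescent]
    rw [Used, ← hi] at hcon
    have := cs.length_mul_simple_ne (greedy cs (per ω hn) t) i
    omega
  obtain ⟨Y, hY, hYw⟩ := cs.exists_isReduced (greedy cs (per ω hn) (t + ω.length))
  have hsplit : (List.range (t + ω.length)).map (per ω hn)
      = (List.range ω.length).map (per ω hn) ++ (List.range t).map (per ω hn) := by
    rw [add_comm t, List.range_add, List.map_append, List.map_map]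
    congr 1
    apply List.map_congr_left
    intro x _
    show per ω hn (ω.length + x) = per ω hn x
    rw [add_comm, per_add_len]
  have habs : ∀ v0 : St B, T M v0 {i} (Tw M v0 Y ⊤) = Tw M v0 Y ⊤ := by
    intro v0
    have hc : Closed M v0 (Tw M v0 ((List.range ω.length).map (per ω hn)) ⊤) :=
      closed_Tw (closed_top M v0)
    rw [← Tw_greedy cs (per ω hn) _ Y hY hYw.symm v0 ⊤ (closed_top M v0), hsplit, Tw_append,
      Tw_greedy cs (per ω hn) t V hV hVw.symm v0 _ hc, T_absorb cs hV hd hc]
  have hused : cs.length (cs.wordProd Y * cs.simple i) = cs.length (cs.wordProd Y) + 1 := by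
    rw [Used, hi', hYw] at ht
    rcases cs.length_mul_simple (cs.wordProd Y) i with h | h
    · exact h
    · omega
  have hYi : cs.IsReduced (Y ++ [i]) := by
    apply isReduced_append
    rw [wordProd_append, wordProd_singleton, hused, hY.eq]
    rfl
  obtain ⟨Z, hZ, hZw⟩ := cs.exists_isReduced ((cs.wordProd (Y ++ [i]))⁻¹ * w0)
  have hadd := longest_add' cs h0 (cs.wordProd (Y ++ [i]))
  rw [hYi.eq, hZw, hZ.eq] at hadd
  have hprod : cs.wordProd ((Y ++ [i]) ++ Z) = w0 := by
    rw [wordProd_append, ← hZw]; group
  have hred : cs.IsReduced ((Y ++ [i]) ++ Z) := by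
    apply isReduced_append
    rw [hprod, hadd]
  have hno : ¬ HasW0 cs w0 (Y ++ Z) := by
    rintro ⟨V', h1, -, h3⟩
    have := h1.length_le
    rw [h3, hadd] at this
    simp at this
  obtain ⟨v0, w, h1, h2, -⟩ := key' cs ω hn hnd hall h0 (Y ++ Z) hno
  apply h2
  have h3 : Tw M v0 (Y ++ Z) ⊤ = K M v0 := by
    rw [← Tw_w0 cs ω hn hall h0 hred hprod, Tw_append, Tw_append, Tw_append, Tw_cons, Tw_nil,
      habs v0]
  rw [← h3, Tw_top]
  exact Submodule.mem_sup_right (Submodule.subset_span ⟨w, h1, rfl⟩)

end finite

end Helper66.MC
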