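import Pool.Agent.Helper66.MC.Mesh

/-!
Closed (graded, stable) submodules and the operators `T A`.
-/

set_option autoImplicit false

namespace Helper66.MC

open Finsupp

variable {B : Type*} [DecidableEq B] [Fintype B] (M : CoxeterMatrix B) (v0 : St B)

/-- closed submodules: contain the mesh submodule, stable under steps, graded by the end state -/
structure Closed (N : Submodule (ZMod 2) (FM B)) : Prop where
  ker : K M v0 ≤ N
  step : ∀ (s : Step B) (f : FM B), f ∈ N → S s f ∈ N
  gr : ∀ (p : St B → Prop) (f : FM B), f ∈ N → pr (fun w => p (en v0 w)) f ∈ N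

theorem closed_K : Closed M v0 (K M v0) where
  ker := le_rfl
  step s _ hf := S_mem_K M v0 s hf
  gr p _ hf := K_graded M v0 (adm_en v0) p hf

theorem closed_top : Closed M v0 ⊤ where
  ker := le_top
  step _ _ _ := trivial
  gr _ _ _ := trivial

theorem closed_sInf {s : Set (Submodule (ZMod 2) (FM B))} (hs : ∀ N ∈ s, Closed M v0 N) :
    Closed M v0 (sInf s) where
  ker := le_sInf (fun N hN => (hs N hN).ker)
  step t f hf := by
    rw [Submodule.mem_sInf] at hf ⊢
    exact fun N hN => (hs N hN).step t f (hf N hN)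
  gr p f hf := by
    rw [Submodule.mem_sInf] at hf ⊢
    exact fun N hN => (hs N hN).gr p f (hf N hN)

/-- the smallest closed submodule containing the part of `N` with end type outside `A` -/
noncomputable def T (A : Set B) (N : Submodule (ZMod 2) (FM B)) : Submodule (ZMod 2) (FM B) :=
  sInf {N' | Closed M v0 N' ∧ ∀ f ∈ N, On (fun w => (en v0 w).1 ∉ A) f → f ∈ N'}

theorem closed_T (A : Set B) (N : Submodule (ZMod 2) (FM B)) : Closed M v0 (T M v0 A N) :=
  closed_sInf M v0 (fun _ h => h.1)

variable {M v0}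

theorem mem_T_of_out {A : Set B} {N : Submodule (ZMod 2) (FM B)} {f : FM B} (hf : f ∈ N)
    (ho : On (fun w => (en v0 w).1 ∉ A) f) : f ∈ T M v0 A N := by
  rw [T, Submodule.mem_sInf]
  exact fun N' hN' => hN'.2 f hf ho

theorem T_least {A : Set B} {N N' : Submodule (ZMod 2) (FM B)} (hN' : Closed M v0 N')
    (h : ∀ f ∈ N, On (fun w => (en v0 w).1 ∉ A) f → f ∈ N') : T M v0 A N ≤ N' :=
  sInf_le ⟨hN', h⟩

theorem T_le {A : Set B} {N : Submodule (ZMod 2) (FM B)} (hN : Closed M v0 N) :
    T M v0 A N ≤ N := T_least hN (fun _ h _ => h)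

theorem T_mono {A : Set B} {N N' : Submodule (ZMod 2) (FM B)} (h : N ≤ N') :
    T M v0 A N ≤ T M v0 A N' :=
  T_least (closed_T M v0 A N') (fun _ hf ho => mem_T_of_out (h hf) ho)

theorem T_T {A : Set B} {N : Submodule (ZMod 2) (FM B)} :
    T M v0 A (T M v0 A N) = T M v0 A N := by
  apply le_antisymm
  · exact T_le (closed_T M v0 A N)
  · exact T_least (closed_T _ _ _ _) (fun f hf ho => mem_T_of_out (mem_T_of_out hf ho) ho)

/-- an element supported on types outside `A` lies in `T A N` iff it lies in `N` -/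
theorem mem_T_iff_of_out {A : Set B} {N : Submodule (ZMod 2) (FM B)} (hN : Closed M v0 N)
    {f : FM B} (ho : On (fun w => (en v0 w).1 ∉ A) f) : f ∈ T M v0 A N ↔ f ∈ N :=
  ⟨fun h => T_le hN h, fun h => mem_T_of_out h ho⟩

theorem S_invalid {i : B} {e : Bool} {f : FM B} (h : On (fun w => (en v0 w).1 = i) f) :
    S (i, e) f ∈ K M v0 := by
  apply mem_K_of_On
  apply On_S
  exact h.mono (fun w hw hv => hv.2.1 hw.symm)

theorem S_mem_T {i : B} {e : Bool} {N : Submodule (ZMod 2) (FM B)} (hN : Closed M v0 N)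
    {f : FM B} (hf : f ∈ N) : S (i, e) f ∈ T M v0 {i} N := by
  have h1 := pr_add_pr_not (fun w => (en v0 w).1 = i) f
  rw [← h1, map_add]
  refine Submodule.add_mem _ ?_ ?_
  · exact (closed_T M v0 {i} N).ker (S_invalid (On_pr _ _))
  · refine (closed_T M v0 {i} N).step _ _ (mem_T_of_out ?_ ?_)
    · exact hN.gr (fun v => ¬ v.1 = i) f hf
    · exact (On_pr _ _).mono (fun w hw => by simpa using hw)

/-- explicit description of `T {i} N` -/
noncomputable def Ex (i : B) (N : Submodule (ZMod 2) (FM B)) : Submodule (ZMod 2) (FM B) where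
  carrier := {f | ∃ f0 ∈ N, On (fun w => (en v0 w).1 ≠ i) f0 ∧ ∃ g : Bool → FM B,
    (∀ e, g e ∈ N) ∧ f - f0 - ∑ e : Bool, S (i, e) (g e) ∈ K M v0}
  zero_mem' := ⟨0, Submodule.zero_mem _, On_zero _, fun _ => 0, fun _ => Submodule.zero_mem _, by
    simp⟩
  add_mem' := by
    rintro a b ⟨f0, h0, ho, g, hg, hk⟩ ⟨f0', h0', ho', g', hg', hk'⟩
    refine ⟨f0 + f0', Submodule.add_mem _ h0 h0', ho.add ho', fun e => g e + g' e,
      fun e => Submodule.add_mem _ (hg e) (hg' e), ?_⟩
    have : a + b - (f0 + f0') - ∑ e : Bool, S (i, e) (g e + g' e)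
        = (a - f0 - ∑ e : Bool, S (i, e) (g e)) + (b - f0' - ∑ e : Bool, S (i, e) (g' e)) := by
      simp only [map_add, Finset.sum_add_distrib]
      abel
    rw [this]
    exact Submodule.add_mem _ hk hk'
  smul_mem' := by
    rintro c a ⟨f0, h0, ho, g, hg, hk⟩
    refine ⟨c • f0, Submodule.smul_mem _ _ h0, ho.smul c, fun e => c • g e,
      fun e => Submodule.smul_mem _ _ (hg e), ?_⟩
    have : c • a - c • f0 - ∑ e : Bool, S (i, e) (c • g e)
        = c • (a - f0 - ∑ e : Bool, S (i, e) (g e)) := by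
      simp only [map_smul, smul_sub, Finset.smul_sum]
    rw [this]
    exact Submodule.smul_mem _ _ hk

theorem mem_Ex_K {i : B} {N : Submodule (ZMod 2) (FM B)} {f : FM B} (hf : f ∈ K M v0) :
    f ∈ Ex (M := M) (v0 := v0) i N :=
  ⟨0, Submodule.zero_mem _, On_zero _, fun _ => 0, fun _ => Submodule.zero_mem _, by simpa using hf⟩

theorem mem_Ex_off {i : B} {N : Submodule (ZMod 2) (FM B)} {f : FM B} (hf : f ∈ N)
    (ho : On (fun w => (en v0 w).1 ≠ i) f) : f ∈ Ex (M := M) (v0 := v0) i N :=
  ⟨f, hf, ho, fun _ => 0, fun _ => Submodule.zero_mem _, by simp⟩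

theorem mem_Ex_S {i : B} {N : Submodule (ZMod 2) (FM B)} {f : FM B} (e : Bool) (hf : f ∈ N) :
    S (i, e) f ∈ Ex (M := M) (v0 := v0) i N := by
  classical
  refine ⟨0, Submodule.zero_mem _, On_zero _, fun e' => if e' = e then f else 0, ?_, ?_⟩
  · intro e'
    dsimp only
    split_ifs
    · exact hf
    · exact Submodule.zero_mem _
  · rw [Finset.sum_eq_single e]
    · simp
    · intro e' _ he'
      simp [he']
    · intro h
      exact absurd (Finset.mem_univ _) h

theorem mem_Ex_step {i : B} {N : Submodule (ZMod 2) (FM B)} (hN : Closed M v0 N) {f : FM B}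
    (s : Step B) (hf : f ∈ N) : S s f ∈ Ex (M := M) (v0 := v0) i N := by
  obtain ⟨j, e⟩ := s
  by_cases hj : j = i
  · subst hj; exact mem_Ex_S e hf
  · refine mem_Ex_off (hN.step _ _ hf) ?_
    apply On_S
    intro w _
    exact hj

theorem closed_Ex {i : B} {N : Submodule (ZMod 2) (FM B)} (hN : Closed M v0 N) :
    Closed M v0 (Ex (M := M) (v0 := v0) i N) where
  ker _ hf := mem_Ex_K hf
  step := by
    rintro s f ⟨f0, h0, ho, g, hg, hk⟩
    have : S s f = S s f0 + ∑ e : Bool, S s (S (i, e) (g e))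
        + S s (f - f0 - ∑ e : Bool, S (i, e) (g e)) := by
      simp only [map_sub, map_sum]
      abel
    rw [this]
    refine Submodule.add_mem _ (Submodule.add_mem _ (mem_Ex_step hN s h0)
      (Submodule.sum_mem _ (fun e _ => mem_Ex_step hN s (hN.step _ _ (hg e)))))
      (mem_Ex_K (S_mem_K M v0 s hk))
  gr := by
    rintro p f ⟨f0, h0, ho, g, hg, hk⟩
    have : pr (fun w => p (en v0 w)) f = pr (fun w => p (en v0 w)) f0
        + ∑ e : Bool, S (i, e) (pr (fun w => p (move (en v0 w) (i, e))) (g e))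
        + pr (fun w => p (en v0 w)) (f - f0 - ∑ e : Bool, S (i, e) (g e)) := by
      simp only [map_sub, map_sum, pr_S, en_cons]
      abel
    rw [this]
    refine Submodule.add_mem _ (Submodule.add_mem _ ?_ ?_) ?_
    · refine mem_Ex_off (hN.gr p f0 h0) ?_
      rw [← pr_eq_self_iff, pr_pr]
      have h2 := ho.pr_eq
      conv_rhs => rw [← h2, pr_pr]
      have h3 : (fun w => (en v0 w).1 ≠ i ∧ p (en v0 w))
          = (fun w => p (en v0 w) ∧ (en v0 w).1 ≠ i) := funext fun w => propext and_comm
      rw [h3]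
    · refine Submodule.sum_mem _ (fun e _ => mem_Ex_S e ?_)
      exact hN.gr (fun v => p (move v (i, e))) _ (hg e)
    · exact mem_Ex_K (K_graded M v0 (adm_en v0) p hk)

theorem T_expl {i : B} {N : Submodule (ZMod 2) (FM B)} (hN : Closed M v0 N) {f : FM B}
    (hf : f ∈ T M v0 {i} N) : ∃ f0 ∈ N, On (fun w => (en v0 w).1 ≠ i) f0 ∧ ∃ g : Bool → FM B,
    (∀ e, g e ∈ N) ∧ f - f0 - ∑ e : Bool, S (i, e) (g e) ∈ K M v0 := by
  have h : T M v0 {i} N ≤ Ex (M := M) (v0 := v0) i N := by
    refine T_least (closed_Ex hN) (fun f hf ho => mem_Ex_off hf ?_)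
    exact ho.mono (fun w hw => by simpa using hw)
  exact h hf

/-- explicit description of homogeneous elements of `T {i} N` of end type `i` -/
theorem T_expl_hom {N : Submodule (ZMod 2) (FM B)} (hN : Closed M v0 N) {f : FM B} {v : St B}
    (hf : f ∈ T M v0 {v.1} N) (hv : On (fun w => en v0 w = v) f) :
    ∃ g : B → Bool → FM B, (∀ o e, g o e ∈ N ∧ On (fun w => en v0 w = move v (o, e)) (g o e)) ∧
      f - ∑ o ∈ Finset.univ.erase v.1, ∑ e : Bool, S (v.1, !e) (g o e) ∈ K M v0 := by
  classical
  obtain ⟨f0, h0, ho, g, hg, hk⟩ := T_expl hN hf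
  refine ⟨fun o e => pr (fun w => en v0 w = move v (o, e)) (g (!e)), fun o e =>
    ⟨hN.gr (fun x => x = move v (o, e)) _ (hg _), On_pr _ _⟩, ?_⟩
  have h1 := K_graded M v0 (adm_en v0) (fun x => x = v) hk
  rw [map_sub, map_sub, hv.pr_eq, map_sum] at h1
  have h2 : pr (fun w => en v0 w = v) f0 = 0 :=
    ho.pr_eq_zero (fun w hw h => hw (congrArg Prod.fst h))
  rw [h2, sub_zero] at h1
  -- the part of `g e` moving to `v` by `(v.1, e)`
  have key : ∀ e : Bool, S (v.1, e) (pr (fun w => move (en v0 w) (v.1, e) = v) (g e))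
      - ∑ o ∈ Finset.univ.erase v.1, S (v.1, e) (pr (fun w => en v0 w = move v (o, !e)) (g e))
      ∈ K M v0 := by
    intro e
    have hsplit : pr (fun w => move (en v0 w) (v.1, e) = v) (g e)
        = pr (fun w => move (en v0 w) (v.1, e) = v ∧ (en v0 w).1 = v.1) (g e)
        + ∑ o ∈ Finset.univ.erase v.1, pr (fun w => en v0 w = move v (o, !e)) (g e) := by
      ext w
      rw [Finsupp.add_apply, Finsupp.finsetSum_apply]
      simp only [pr_apply]
      by_cases hw : (en v0 w).1 = v.1
      · have hz : ∑ o ∈ Finset.univ.erase v.1,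
            (if en v0 w = move v (o, !e) then (g e) w else 0) = 0 := by
          refine Finset.sum_eq_zero (fun o ho => ?_)
          rw [if_neg]
          intro h
          rw [h] at hw
          exact (Finset.ne_of_mem_erase ho) hw
        rw [hz]
        simp [hw]
      · have hnot : ¬ (move (en v0 w) (v.1, e) = v ∧ (en v0 w).1 = v.1) := fun h => hw h.2
        rw [if_neg hnot, zero_add]
        by_cases hm : move (en v0 w) (v.1, e) = v
        · rw [if_pos hm, Finset.sum_eq_single (en v0 w).1]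
          · rw [if_pos]
            conv_rhs => rw [← hm]
            exact (move_move (en v0 w) (v.1, e)).symm
          · intro o _ hne
            rw [if_neg]
            intro h
            rw [h] at hne
            exact hne rfl
          · intro h
            exact absurd (Finset.mem_erase.2 ⟨hw, Finset.mem_univ _⟩) h
        · rw [if_neg hm]
          symm
          refine Finset.sum_eq_zero (fun o _ => ?_)
          rw [if_neg]
          intro h
          apply hm
          rw [h]
          have := move_move v (o, !e)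
          simpa using this
    rw [hsplit, map_add, map_sum, add_sub_cancel_right]
    apply S_invalid
    exact (On_pr _ _).mono (fun w hw => hw.2)
  have h3 : f - ∑ o ∈ Finset.univ.erase v.1, ∑ e : Bool,
      S (v.1, !e) (pr (fun w => en v0 w = move v (o, e)) (g (!e)))
      = (f - ∑ e : Bool, pr (fun w => en v0 w = v) (S (v.1, e) (g e)))
      + ∑ e : Bool, (S (v.1, e) (pr (fun w => move (en v0 w) (v.1, e) = v) (g e))
      - ∑ o ∈ Finset.univ.erase v.1, S (v.1, e) (pr (fun w => en v0 w = move v (o, !e)) (g e))) := by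
    rw [Finset.sum_sub_distrib, Finset.sum_comm (s := Finset.univ.erase v.1)]
    simp only [Fintype.sum_bool, pr_S, en_cons, Bool.not_true, Bool.not_false]
    abel
  rw [h3]
  exact Submodule.add_mem _ h1 (Submodule.sum_mem _ (fun e _ => key e))

end Helper66.MC
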