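import Mathlib

/-!
Basic definitions for the multi-cluster complex problem MP_73c0e1_co (interface file).
-/

set_option autoImplicit false

namespace Helper66.MC

variable {B W : Type*} [Group W] {M : CoxeterMatrix B}

/-- the periodic word `ω ω ω ...` -/
def per (ω : List B) (h : 0 < ω.length) (t : ℕ) : B := ω[t % ω.length]'(Nat.mod_lt _ h)

open Classical in
/-- greedy product (Demazure product) of the first `t` letters of `q` -/
noncomputable def greedy (cs : CoxeterSystem M W) (q : ℕ → B) : ℕ → W
  | 0 => 1
  | t + 1 =>
      if cs.length (greedy cs q t) < cs.length (greedy cs q t * cs.simple (q t))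
      then greedy cs q t * cs.simple (q t) else greedy cs q t

/-- letter `t` is used by the greedy product -/
def Used (cs : CoxeterSystem M W) (q : ℕ → B) (t : ℕ) : Prop :=
  cs.length (greedy cs q t) < cs.length (greedy cs q t * cs.simple (q t))

/-- first time `u ≥ t` with letter `b` (junk value `0` if there is none) -/
noncomputable def nextTime (q : ℕ → B) (t : ℕ) (b : B) : ℕ := sInf {u | t ≤ u ∧ q u = b}

/-- end time (exclusive) of the greedy embedding of the word `R` into `q`, starting at time `t` -/
noncomputable def fin (q : ℕ → B) : List B → ℕ → ℕ
  | [], t => t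
  | r :: R, t => fin q R (nextTime q t r + 1)

/-- the word `U` contains a reduced word of `w0` as a subword -/
def HasW0 (cs : CoxeterSystem M W) (w0 : W) (U : List B) : Prop :=
  ∃ V : List B, V.Sublist U ∧ cs.wordProd V = w0 ∧ V.length = cs.length w0

end Helper66.MC
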