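import Mathlib

/-!
Abstract lemma on graded modules over `k[R, L]` (two commuting operators of degree `+1`, `-1`)
concentrated in degrees `1..n`, with middle exactness of the Koszul complex in these degrees:
radical and socle filtrations coincide.
-/

set_option autoImplicit false

namespace Helper66.MC

section

variable {k X : Type*} [Ring k] [AddCommGroup X] [Module k X] (R L : X →ₗ[k] X)
  (E : ℤ → Submodule k X)

/-- radical filtration -/
def Fil : ℕ → ℤ → Submodule k X
  | 0, v => E v
  | r + 1, v => (Fil r (v - 1)).map R ⊔ (Fil r (v + 1)).map L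

structure KData (n : ℕ) : Prop where
  hR : ∀ v x, x ∈ E v → R x ∈ E (v + 1)
  hL : ∀ v x, x ∈ E v → L x ∈ E (v - 1)
  hc : ∀ v x, x ∈ E v → R (L x) = L (R x)
  h0 : ∀ v, v ≤ 0 → ∀ x ∈ E v, x = 0
  hn : ∀ v, (n : ℤ) + 1 ≤ v → ∀ x ∈ E v, x = 0

structure KExact (n : ℕ) : Prop where
  ex : ∀ v : ℤ, 1 ≤ v → v ≤ n → ∀ x ∈ E (v - 1), ∀ y ∈ E (v + 1), R x = L y →
    ∃ h ∈ E v, x = L h ∧ y = R h

variable {R L E}

theorem mem_Fil_succ {r : ℕ} {v : ℤ} {x : X} :
    x ∈ Fil R L E (r + 1) v ↔ ∃ a ∈ Fil R L E r (v - 1), ∃ b ∈ Fil R L E r (v + 1),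
      x = R a + L b := by
  simp only [Fil, Submodule.mem_sup, Submodule.mem_map]
  constructor
  · rintro ⟨_, ⟨a, ha, rfl⟩, _, ⟨b, hb, rfl⟩, rfl⟩
    exact ⟨a, ha, b, hb, rfl⟩
  · rintro ⟨a, ha, b, hb, rfl⟩
    exact ⟨_, ⟨a, ha, rfl⟩, _, ⟨b, hb, rfl⟩, rfl⟩

variable {n : ℕ}

namespace KData

variable (D : KData R L E n)
include D

theorem Fil_le (r : ℕ) : ∀ v, Fil R L E r v ≤ E v := by
  induction r with
  | zero => intro v; exact le_rfl
  | succ r ih =>
    intro v x hx
    obtain ⟨a, ha, b, hb, rfl⟩ := mem_Fil_succ.1 hx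
    have h1 := D.hR _ _ (ih _ ha)
    have h2 := D.hL _ _ (ih _ hb)
    rw [sub_add_cancel] at h1
    rw [add_sub_cancel_right] at h2
    exact (E v).add_mem h1 h2

theorem powR (p : ℕ) : ∀ v x, x ∈ E v → (R ^ p) x ∈ E (v + p) := by
  induction p with
  | zero => intro v x hx; simpa using hx
  | succ p ih =>
    intro v x hx
    rw [pow_succ', Module.End.mul_apply]
    have := D.hR _ _ (ih v x hx)
    push_cast
    rwa [← add_assoc]

theorem powL (p : ℕ) : ∀ v x, x ∈ E v → (L ^ p) x ∈ E (v - p) := by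
  induction p with
  | zero => intro v x hx; simpa using hx
  | succ p ih =>
    intro v x hx
    rw [pow_succ', Module.End.mul_apply]
    have := D.hL _ _ (ih v x hx)
    push_cast
    rwa [← sub_sub]

theorem R_powL (p : ℕ) : ∀ v x, x ∈ E v → R ((L ^ p) x) = (L ^ p) (R x) := by
  induction p with
  | zero => intro v x hx; simp
  | succ p ih =>
    intro v x hx
    rw [pow_succ', Module.End.mul_apply, Module.End.mul_apply, D.hc _ _ (D.powL p v x hx),
      ih v x hx]

theorem powR_powL (q : ℕ) (p : ℕ) : ∀ v x, x ∈ E v → (R ^ q) ((L ^ p) x) = (L ^ p) ((R ^ q) x) := by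
  induction q with
  | zero => intro v x hx; simp
  | succ q ih =>
    intro v x hx
    rw [pow_succ', Module.End.mul_apply, Module.End.mul_apply, ih v x hx,
      D.R_powL p _ _ (D.powR q v x hx)]

theorem Fil_succ_le (r : ℕ) : ∀ v, Fil R L E (r + 1) v ≤ Fil R L E r v := by
  induction r with
  | zero =>
    intro v
    exact D.Fil_le 1 v
  | succ r ih =>
    intro v x hx
    obtain ⟨a, ha, b, hb, rfl⟩ := mem_Fil_succ.1 hx
    exact mem_Fil_succ.2 ⟨a, ih _ ha, b, ih _ hb, rfl⟩

theorem powR_mem_Fil (p : ℕ) : ∀ v x, x ∈ E v → (R ^ p) x ∈ Fil R L E p (v + p) := by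
  induction p with
  | zero => intro v x hx; simpa [Fil] using hx
  | succ p ih =>
    intro v x hx
    rw [pow_succ', Module.End.mul_apply]
    refine mem_Fil_succ.2 ⟨(R ^ p) x, ?_, 0, Submodule.zero_mem _, by simp⟩
    have := ih v x hx
    push_cast
    rwa [← add_assoc, add_sub_cancel_right]

theorem powL_mem_Fil' (q : ℕ) (r : ℕ) : ∀ v x, x ∈ Fil R L E r v →
    (L ^ q) x ∈ Fil R L E (r + q) (v - q) := by
  induction q with
  | zero => intro v x hx; simpa using hx
  | succ q ih =>
    intro v x hx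
    rw [pow_succ', Module.End.mul_apply, ← add_assoc]
    refine mem_Fil_succ.2 ⟨0, Submodule.zero_mem _, (L ^ q) x, ?_, by simp⟩
    have := ih v x hx
    push_cast
    rwa [← sub_sub, sub_add_cancel]

theorem powL_mem_Fil (p : ℕ) : ∀ v x, x ∈ E v → (L ^ p) x ∈ Fil R L E p (v - p) := by
  intro v x hx
  have := D.powL_mem_Fil' p 0 v x hx
  simpa using this

theorem pow_vanish {p q : ℕ} (hpq : n ≤ p + q) {v : ℤ} {x : X} (hx : x ∈ E v) :
    (R ^ p) ((L ^ q) x) = 0 := by
  by_cases h1 : (n : ℤ) + 1 ≤ v + p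
  · rw [D.powR_powL p q v x hx]
    rw [D.hn _ h1 _ (D.powR p v x hx), map_zero]
  · by_cases h2 : v - q ≤ 0
    · rw [D.h0 _ h2 _ (D.powL q v x hx), map_zero]
    · push Not at h1 h2
      omega

theorem Fil_vanish (r : ℕ) : ∀ (p q : ℕ), n ≤ p + q + r → ∀ v x, x ∈ Fil R L E r v →
    (R ^ p) ((L ^ q) x) = 0 := by
  induction r with
  | zero =>
    intro p q h v x hx
    exact D.pow_vanish (by omega) hx
  | succ r ih =>
    intro p q h v x hx
    obtain ⟨a, ha, b, hb, rfl⟩ := mem_Fil_succ.1 hx
    rw [map_add, map_add]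
    have e1 : (R ^ p) ((L ^ q) (R a)) = 0 := by
      rw [← D.R_powL q _ _ (D.Fil_le r _ ha)]
      have := ih (p + 1) q (by omega) _ _ ha
      rwa [pow_succ, Module.End.mul_apply] at this
    have e2 : (R ^ p) ((L ^ q) (L b)) = 0 := by
      have := ih p (q + 1) (by omega) _ _ hb
      rwa [pow_succ, Module.End.mul_apply] at this
    rw [e1, e2, add_zero]

theorem Fil_split (r : ℕ) : ∀ u x, x ∈ Fil R L E (r + 1) u →
    ∃ f ∈ Fil R L E r (u - 1), ∃ w ∈ E (u + r + 1), x = R f + (L ^ (r + 1)) w := by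
  induction r with
  | zero =>
    intro u x hx
    obtain ⟨a, ha, b, hb, rfl⟩ := mem_Fil_succ.1 hx
    exact ⟨a, ha, b, by simpa [Fil] using hb, by simp⟩
  | succ r ih =>
    intro u x hx
    obtain ⟨a, ha, b, hb, rfl⟩ := mem_Fil_succ.1 hx
    obtain ⟨f, hf, w, hw, rfl⟩ := ih _ _ hb
    rw [add_sub_cancel_right] at hf
    refine ⟨a + L f, ?_, w, ?_, ?_⟩
    · refine Submodule.add_mem _ ha ?_
      refine mem_Fil_succ.2 ⟨0, Submodule.zero_mem _, f, ?_, by simp⟩
      rwa [sub_add_cancel]
    · push_cast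
      convert hw using 2
      ring
    · rw [map_add, map_add, D.hc _ _ (D.Fil_le r _ hf), add_assoc]
      congr 2
      rw [pow_succ' L (r + 1), Module.End.mul_apply]

variable (X' : KExact R L E n)
include X'

/-- rectangular exactness -/
theorem rect (N : ℕ) : ∀ (s t : ℕ), s + t = N → ∀ v : ℤ, 0 ≤ v - t → v + s ≤ n + 1 →
    ∀ a ∈ E (v + s), ∀ b ∈ E (v - t), (L ^ s) a = (R ^ t) b →
    ∃ g ∈ E (v + s - t), a = (R ^ t) g ∧ b = (L ^ s) g := by
  induction N using Nat.strong_induction_on with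
  | _ N IH =>
    intro s t hst v hv1 hv2 a ha b hb hab
    rcases Nat.eq_zero_or_pos s with hs | hs
    · subst hs
      refine ⟨b, by simpa using hb, by simpa using hab, by simp⟩
    rcases Nat.eq_zero_or_pos t with ht | ht
    · subst ht
      refine ⟨a, by simpa using ha, by simp, by simpa using hab.symm⟩
    obtain ⟨s, rfl⟩ : ∃ s', s = s' + 1 := ⟨s - 1, by omega⟩
    obtain ⟨t, rfl⟩ : ∃ t', t = t' + 1 := ⟨t - 1, by omega⟩
    have hx : (R ^ t) b ∈ E (v - 1) := by
      have := D.powR t _ _ hb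
      convert this using 2
      push_cast
      ring
    have hy : (L ^ s) a ∈ E (v + 1) := by
      have := D.powL s _ _ ha
      convert this using 2
      push_cast
      ring
    have hRx : R ((R ^ t) b) = L ((L ^ s) a) := by
      rw [← Module.End.mul_apply, ← Module.End.mul_apply, ← pow_succ', ← pow_succ', hab]
    obtain ⟨h, hh, h1, h2⟩ := X'.ex v (by push_cast at hv1; omega) (by push_cast at hv2; omega)
      _ hx _ hy hRx
    -- first recursive call at vertex v+1
    obtain ⟨g2, hg2, e1, e2⟩ := IH (s + 1) (by omega) s 1 rfl (v + 1)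
      (by push_cast at hv1 ⊢; omega) (by push_cast at hv2 ⊢; omega) a
      (by convert ha using 2; push_cast; ring) h (by simpa using hh)
      (by rw [h2, pow_one])
    -- second recursive call at vertex v-1
    obtain ⟨g, hg, e3, e4⟩ := IH (s + 1 + t) (by omega) (s + 1) t rfl (v - 1)
      (by push_cast at hv1 ⊢; omega) (by push_cast at hv2 ⊢; omega) g2
      (by convert hg2 using 2; push_cast; ring) b (by convert hb using 2; push_cast; ring)
      (by rw [pow_succ', Module.End.mul_apply, ← e2, h1])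
    refine ⟨g, ?_, ?_, e4⟩
    · convert hg using 2
      push_cast
      ring
    · rw [e1, e3, pow_one, pow_succ', Module.End.mul_apply]

/-- elements killed by all `R^p L^q`, `p+q=b`, lie in `Fil (n-b)` -/
theorem rigid (b : ℕ) : b ≤ n → ∀ v z, z ∈ E v →
    (∀ p q : ℕ, p + q = b → (R ^ p) ((L ^ q) z) = 0) → z ∈ Fil R L E (n - b) v := by
  induction b with
  | zero =>
    intro _ v z hz h
    have : z = 0 := by simpa using h 0 0 rfl
    rw [this]
    exact Submodule.zero_mem _
  | succ b ih =>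
    intro hb v z hz h
    by_cases hv0 : v ≤ 0
    · rw [D.h0 v hv0 z hz]; exact Submodule.zero_mem _
    by_cases hvn : (n : ℤ) + 1 ≤ v
    · rw [D.hn v hvn z hz]; exact Submodule.zero_mem _
    push Not at hv0 hvn
    have hRz : R z ∈ Fil R L E (n - b) (v + 1) := by
      apply ih (by omega) (v + 1) (R z) (D.hR v z hz)
      intro p q hpq
      rw [← D.R_powL q v z hz]
      have := h (p + 1) q (by omega)
      rwa [pow_succ, Module.End.mul_apply] at this
    obtain ⟨r, hr⟩ : ∃ r, n - b = r + 1 := ⟨n - b - 1, by omega⟩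
    have hr' : n - (b + 1) = r := by omega
    rw [hr] at hRz
    obtain ⟨f, hf, w, hw, hfw⟩ := D.Fil_split r _ _ hRz
    rw [add_sub_cancel_right] at hf
    rw [hr']
    have hz' : z - f ∈ E v := Submodule.sub_mem _ hz (D.Fil_le r v hf)
    have hRz' : R (z - f) = (L ^ (r + 1)) w := by
      rw [map_sub, hfw]; abel
    suffices hs : z - f ∈ Fil R L E r v by
      have := Submodule.add_mem _ hs hf
      simpa using this
    by_cases hcase : v ≤ b
    · -- use rect at v+1
      obtain ⟨g, hg, e1, e2⟩ := D.rect X' (r + 1 + 1) (r + 1) 1 rfl (v + 1)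
        (by push_cast; omega) (by push_cast; omega) w
        (by convert hw using 2; push_cast; ring) (z - f) (by simpa using hz')
        (by rw [pow_one]; exact hRz'.symm)
      rw [e2, pow_succ, Module.End.mul_apply]
      have := D.powL_mem_Fil r _ _ (D.hL _ _ hg)
      convert this using 2
      push_cast
      ring
    · push Not at hcase
      have hw0 : w = 0 := D.hn _ (by omega) _ hw
      rw [hw0, map_zero] at hRz'
      -- z - f = L^(n-v) g with g ∈ E n
      obtain ⟨s, hs⟩ : ∃ s : ℕ, (n : ℤ) - v = s := ⟨((n : ℤ) - v).toNat, by omega⟩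
      obtain ⟨g, hg, e1, e2⟩ := D.rect X' (s + 1) s 1 rfl (v + 1)
        (by push_cast; omega) (by omega) 0 (Submodule.zero_mem _) (z - f) (by simpa using hz')
        (by rw [pow_one, map_zero, hRz'])
      have hgn : g ∈ E n := by
        convert hg using 2
        push_cast
        omega
      have hLz : (L ^ (b + 1)) (z - f) = 0 := by
        rw [map_sub]
        have h1 : (L ^ (b + 1)) z = 0 := by
          have := h 0 (b + 1) (by omega)
          simpa using this
        have h2 : (L ^ (b + 1)) f = 0 := by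
          have := D.Fil_vanish r 0 (b + 1) (by omega) v f hf
          simpa using this
        rw [h1, h2, sub_zero]
      have hLg : (L ^ (b + 1 + s)) g = 0 := by
        rw [pow_add, Module.End.mul_apply, ← e2, hLz]
      obtain ⟨t, ht⟩ : ∃ t : ℕ, v - (b + 1) = t := ⟨(v - (b + 1)).toNat, by omega⟩
      obtain ⟨g', hg', e3, -⟩ := D.rect X' (b + 1 + s + t) (b + 1 + s) t rfl (v - (b + 1))
        (by omega) (by push_cast; omega) g (by convert hgn using 2; push_cast; omega) 0
        (Submodule.zero_mem _) (by rw [map_zero, hLg])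
      rw [e2, e3]
      have hm1 := D.powR_mem_Fil t _ _ hg'
      have hm2 := D.powL_mem_Fil' s t _ _ hm1
      have ert : r = t + s := by omega
      rw [ert]
      convert hm2 using 2
      push_cast
      omega

/-- the saturation statement -/
theorem sat {r : ℕ} (hr : r + 1 ≤ n) {v : ℤ} {z : X} (hz : z ∈ E v)
    (h1 : R z ∈ Fil R L E (r + 1) (v + 1)) (h2 : L z ∈ Fil R L E (r + 1) (v - 1)) :
    z ∈ Fil R L E r v := by
  have := D.rigid X' (n - r) (by omega) v z hz ?_
  · rwa [show n - (n - r) = r by omega] at this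
  · intro p q hpq
    rcases Nat.eq_zero_or_pos p with hp | hp
    · subst hp
      obtain ⟨q, rfl⟩ : ∃ q', q = q' + 1 := ⟨q - 1, by omega⟩
      have := D.Fil_vanish (r + 1) 0 q (by omega) _ _ h2
      rwa [pow_succ, Module.End.mul_apply]
    · obtain ⟨p, rfl⟩ : ∃ p', p = p' + 1 := ⟨p - 1, by omega⟩
      have := D.Fil_vanish (r + 1) p q (by omega) _ _ h1
      rw [← D.R_powL q v z hz] at this
      rwa [pow_succ, Module.End.mul_apply]

end KData

end

end Helper66.MC
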