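import Pool.Agent.Helper66.MC.Ops
import Pool.Agent.Helper66.MC.Koszul

/-!
Braid relation and saturation for the operators `T {i}`.
-/

set_option autoImplicit false

namespace Helper66.MC

open Finsupp

variable {B : Type*} [DecidableEq B] [Fintype B] {M : CoxeterMatrix B} {v0 : St B}

section chain

/-- types along a chain -/
def ty (i j : B) (p k : ℤ) : B := if Even (k - p) then i else j

/-- states along a chain -/
def ch (i j : B) (p : ℤ) (a : Sym2 B → ℤ) (k : ℤ) : St B :=
  (ty i j p k, Function.update a s(i, j) k)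

omit [DecidableEq B] [Fintype B] in
theorem ty_cases (i j : B) (p k : ℤ) :
    (ty i j p k = i ∧ ty i j p (k + 1) = j ∧ ty i j p (k - 1) = j) ∨
    (ty i j p k = j ∧ ty i j p (k + 1) = i ∧ ty i j p (k - 1) = i) := by
  unfold ty
  by_cases h : Even (k - p)
  · left
    refine ⟨if_pos h, if_neg ?_, if_neg ?_⟩
    · intro h'
      have h1 := h'.sub h
      rw [show k + 1 - p - (k - p) = 1 by ring] at h1
      exact absurd h1 (by decide)
    · intro h'
      have h1 := h.sub h'
      rw [show k - p - (k - 1 - p) = 1 by ring] at h1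
      exact absurd h1 (by decide)
  · right
    rw [Int.not_even_iff_odd] at h
    refine ⟨if_neg (by rwa [Int.not_even_iff_odd]), if_pos ?_, if_pos ?_⟩
    · have := h.add_odd (show Odd (1 : ℤ) by decide)
      rwa [show k - p + 1 = k + 1 - p by ring] at this
    · have := h.sub_odd (show Odd (1 : ℤ) by decide)
      rwa [show k - p - 1 = k - 1 - p by ring] at this

omit [Fintype B] in
theorem move_ch_up (i j : B) (p : ℤ) (a : Sym2 B → ℤ) (k : ℤ) :
    move (ch i j p a k) (ty i j p (k + 1), true) = ch i j p a (k + 1) := by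
  rcases ty_cases i j p k with ⟨h1, h2, -⟩ | ⟨h1, h2, -⟩
  · simp [move, ch, h1, h2, sgn]
  · simp [move, ch, h1, h2, sgn, Sym2.eq_swap (a := j) (b := i)]

omit [Fintype B] in
theorem move_ch_down (i j : B) (p : ℤ) (a : Sym2 B → ℤ) (k : ℤ) :
    move (ch i j p a k) (ty i j p (k - 1), false) = ch i j p a (k - 1) := by
  rcases ty_cases i j p k with ⟨h1, -, h2⟩ | ⟨h1, -, h2⟩
  · simp only [move, ch, h1, h2]
    simp [sgn, sub_eq_add_neg]
  · simp only [move, ch, h1, h2]
    rw [Sym2.eq_swap (a := j) (b := i)]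
    simp [sgn, sub_eq_add_neg]

/-- every state with type in `{i,j}` is on a chain -/
theorem exists_ch {i j : B} (v : St B) (hv : v.1 = i ∨ v.1 = j) :
    ∃ p a k, ch i j p a k = v ∧ ty i j p k = v.1 := by
  rcases hv with h | h
  · refine ⟨v.2 s(i, j), v.2, v.2 s(i, j), ?_, ?_⟩
    · ext1
      · simp [ch, ty, h]
      · simp [ch]
    · simp [ty, h]
  · refine ⟨v.2 s(i, j) - 1, v.2, v.2 s(i, j), ?_, ?_⟩
    · ext1
      · simp [ch, ty, h]
      · simp [ch]
    · simp [ty, h]

variable (v0) in
/-- right (`e = true`) and left (`e = false`) move on the chains of `{i,j}` -/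
noncomputable def RL (i j : B) (e : Bool) : FM B →ₗ[ZMod 2] FM B :=
  S (j, e) ∘ₗ pr (fun w => (en v0 w).1 = i) + S (i, e) ∘ₗ pr (fun w => (en v0 w).1 = j)

theorem RL_on {i j : B} (hij : i ≠ j) (e : Bool) {p : ℤ} {a : Sym2 B → ℤ} {k : ℤ} {f : FM B}
    (hf : On (fun w => en v0 w = ch i j p a k) f) :
    RL v0 i j e f = S (ty i j p (k + 1), e) f := by
  rcases ty_cases i j p k with ⟨h1, h2, -⟩ | ⟨h1, h2, -⟩
  · have e1 : pr (fun w => (en v0 w).1 = i) f = f :=
      (hf.mono (fun w hw => by rw [hw]; exact h1)).pr_eq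
    have e2 : pr (fun w => (en v0 w).1 = j) f = 0 :=
      hf.pr_eq_zero (fun w hw h => by rw [hw] at h; exact hij (h1.symm.trans h))
    simp [RL, e1, e2, h2]
  · have e1 : pr (fun w => (en v0 w).1 = j) f = f :=
      (hf.mono (fun w hw => by rw [hw]; exact h1)).pr_eq
    have e2 : pr (fun w => (en v0 w).1 = i) f = 0 :=
      hf.pr_eq_zero (fun w hw h => by rw [hw] at h; exact hij (h.symm.trans h1))
    simp [RL, e1, e2, h2]

omit [DecidableEq B] [Fintype B] in
theorem ty_pred_eq (i j : B) (p k : ℤ) : ty i j p (k - 1) = ty i j p (k + 1) := by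
  rcases ty_cases i j p k with ⟨-, h2, h3⟩ | ⟨-, h2, h3⟩ <;> rw [h2, h3]

omit [DecidableEq B] [Fintype B] in
theorem ty_succ_ne {i j : B} (hij : i ≠ j) (p k : ℤ) : ty i j p (k + 1) ≠ ty i j p k := by
  rcases ty_cases i j p k with ⟨h1, h2, -⟩ | ⟨h1, h2, -⟩ <;> rw [h1, h2]
  · exact hij.symm
  · exact hij

omit [DecidableEq B] [Fintype B] in
theorem ty_mem (i j : B) (p k : ℤ) : ty i j p k = i ∨ ty i j p k = j := by
  rcases ty_cases i j p k with ⟨h1, -, -⟩ | ⟨h1, -, -⟩
  · exact Or.inl h1
  · exact Or.inr h1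

end chain

section quot

variable {i j : B} {N : Submodule (ZMod 2) (FM B)}

variable (M v0 i j N) in
/-- the dihedral core -/
noncomputable abbrev KK : Submodule (ZMod 2) (FM B) := T M v0 {i, j} N

theorem closed_KK : Closed M v0 (KK M v0 i j N) := closed_T M v0 _ _

theorem mem_KK_of_out {f : FM B} (hf : f ∈ N)
    (ho : On (fun w => (en v0 w).1 ≠ i ∧ (en v0 w).1 ≠ j) f) : f ∈ KK M v0 i j N :=
  mem_T_of_out hf (ho.mono (fun w hw => by
    simp only [Set.mem_insert_iff, Set.mem_singleton_iff, not_or]; exact hw))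

theorem T_KK {t : B} (ht : t = i ∨ t = j) :
    T M v0 {t} (KK M v0 i j N) = KK M v0 i j N := by
  apply le_antisymm
  · exact T_le closed_KK
  · refine T_least (closed_T M v0 _ _) (fun f hf ho => mem_T_of_out (mem_T_of_out hf ho) ?_)
    refine ho.mono (fun w hw h => hw ?_)
    rw [Set.mem_singleton_iff] at h
    rw [h]
    rcases ht with rfl | rfl <;> simp

theorem RL_mem {N' : Submodule (ZMod 2) (FM B)} (hN' : Closed M v0 N') (e : Bool) {f : FM B}
    (hf : f ∈ N') : RL v0 i j e f ∈ N' := by
  simp only [RL, LinearMap.add_apply, LinearMap.comp_apply]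
  exact Submodule.add_mem _ (hN'.step _ _ (hN'.gr (fun v => v.1 = i) f hf))
    (hN'.step _ _ (hN'.gr (fun v => v.1 = j) f hf))

variable (M v0 i j N) in
/-- induced move on the quotient -/
noncomputable def RLq (e : Bool) :
    (FM B ⧸ KK M v0 i j N) →ₗ[ZMod 2] (FM B ⧸ KK M v0 i j N) :=
  (KK M v0 i j N).mapQ (KK M v0 i j N) (RL v0 i j e) (fun _ hf => RL_mem closed_KK e hf)

theorem RLq_mk (e : Bool) (f : FM B) : RLq M v0 i j N e ((KK M v0 i j N).mkQ f)
    = (KK M v0 i j N).mkQ (RL v0 i j e f) := by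
  simp [RLq]

variable (M v0 i j N) in
/-- the chain modules -/
noncomputable def EE (p : ℤ) (a : Sym2 B → ℤ) (k : ℤ) :
    Submodule (ZMod 2) (FM B ⧸ KK M v0 i j N) where
  carrier := {x | ∃ f ∈ N, On (fun w => en v0 w = ch i j p a k) f ∧ (KK M v0 i j N).mkQ f = x}
  zero_mem' := ⟨0, Submodule.zero_mem _, On_zero _, map_zero _⟩
  add_mem' := by
    rintro x y ⟨f, hf, ho, rfl⟩ ⟨g, hg, ho', rfl⟩
    exact ⟨f + g, Submodule.add_mem _ hf hg, ho.add ho', map_add _ _ _⟩
  smul_mem' := by
    rintro c x ⟨f, hf, ho, rfl⟩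
    exact ⟨c • f, Submodule.smul_mem _ _ hf, ho.smul c, map_smul _ _ _⟩

theorem mkQ_mem_EE (hN : Closed M v0 N) {p : ℤ} {a : Sym2 B → ℤ} {k : ℤ} {f : FM B}
    (ho : On (fun w => en v0 w = ch i j p a k) f) :
    (KK M v0 i j N).mkQ f ∈ EE M v0 i j N p a k ↔ f ∈ N := by
  constructor
  · rintro ⟨g, hg, -, he⟩
    have : f - g ∈ KK M v0 i j N := by
      rw [Submodule.mkQ_apply, Submodule.mkQ_apply, eq_comm, Submodule.Quotient.eq] at he
      exact he
    have h2 := T_le hN this
    have := Submodule.add_mem _ h2 hg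
    simpa using this
  · intro hf
    exact ⟨f, hf, ho, rfl⟩

theorem mkQ_eq_zero {f : FM B} : (KK M v0 i j N).mkQ f = 0 ↔ f ∈ KK M v0 i j N := by
  rw [Submodule.mkQ_apply, Submodule.Quotient.mk_eq_zero]

theorem mkQ_eq {f g : FM B} : (KK M v0 i j N).mkQ f = (KK M v0 i j N).mkQ g
    ↔ f - g ∈ KK M v0 i j N := by
  rw [Submodule.mkQ_apply, Submodule.mkQ_apply, Submodule.Quotient.eq]

theorem notInRange_mem {v : St B} (hv : ¬ InRange M v) {f : FM B}
    (ho : On (fun w => en v0 w = v) f) : f ∈ K M v0 :=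
  mem_K_of_On M v0 (ho.mono (fun w hw (h : Valid M v0 w) => hv (by
    rw [← hw]; exact Valid.inRange M v0 h)))

theorem ch_inRange_bounds (hij : i ≠ j) {p : ℤ} {a : Sym2 B → ℤ} {k : ℤ}
    (h : InRange M (ch i j p a k)) : 1 ≤ k ∧ k + 1 ≤ M i j := by
  have := h i j hij
  simpa [ch] using this

theorem ch_inRange_iff {p : ℤ} {a : Sym2 B → ℤ} {k k' : ℤ}
    (hk : 1 ≤ k ∧ k + 1 ≤ M i j) (h : InRange M (ch i j p a k')) : InRange M (ch i j p a k) := by
  intro x y hxy
  have := h x y hxy
  simp only [ch] at this ⊢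
  by_cases he : s(x, y) = s(i, j)
  · rw [he, Function.update_self]
    have hM : M x y = M i j := by
      rcases Sym2.eq_iff.1 he with ⟨rfl, rfl⟩ | ⟨rfl, rfl⟩
      · rfl
      · exact M.symmetric x y
    rw [hM]
    exact hk
  · rw [Function.update_of_ne he] at this ⊢
    exact this

theorem kdata (hij : i ≠ j) (hN : Closed M v0 N) {n : ℕ} (hn : M i j = n + 1) (p : ℤ)
    (a : Sym2 B → ℤ) :
    KData (RLq M v0 i j N true) (RLq M v0 i j N false) (EE M v0 i j N p a) n where
  hR := by
    rintro k _ ⟨f, hf, ho, rfl⟩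
    rw [RLq_mk]
    refine ⟨_, RL_mem hN true hf, ?_, rfl⟩
    rw [RL_on hij true ho]
    refine On_S (ho.mono (fun w hw => ?_))
    rw [en_cons, hw, move_ch_up]
  hL := by
    rintro k _ ⟨f, hf, ho, rfl⟩
    rw [RLq_mk]
    refine ⟨_, RL_mem hN false hf, ?_, rfl⟩
    rw [RL_on hij false ho]
    refine On_S (ho.mono (fun w hw => ?_))
    rw [en_cons, hw, ← ty_pred_eq, move_ch_down]
  hc := by
    rintro k _ ⟨f, hf, ho, rfl⟩
    rw [RLq_mk, RLq_mk, RLq_mk, RLq_mk, mkQ_eq]
    have hoU : On (fun w => en v0 w = ch i j p a (k + 1)) (RL v0 i j true f) := by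
      rw [RL_on hij true ho]
      refine On_S (ho.mono (fun w hw => ?_))
      rw [en_cons, hw, move_ch_up]
    have hoD : On (fun w => en v0 w = ch i j p a (k - 1)) (RL v0 i j false f) := by
      rw [RL_on hij false ho]
      refine On_S (ho.mono (fun w hw => ?_))
      rw [en_cons, hw, ← ty_pred_eq, move_ch_down]
    rw [RL_on hij true hoD, RL_on hij false hoU, RL_on hij true ho, RL_on hij false ho]
    rw [sub_add_cancel, show k + 1 + 1 = (k + 1) + 1 by rfl, ← ty_pred_eq i j p (k + 1),
      add_sub_cancel_right]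
    -- now mesh
    have hty : On (fun w => (en v0 w).1 = ty i j p k) f :=
      ho.mono (fun w hw => by rw [hw]; rfl)
    have hmesh := mesh_mem_K M v0 hty
    rw [meshMap_apply, ← Finset.add_sum_erase (Finset.univ.erase (ty i j p k)) _
      (Finset.mem_erase.2 ⟨ty_succ_ne hij p k, Finset.mem_univ _⟩)] at hmesh
    have hrest : ∑ x ∈ (Finset.univ.erase (ty i j p k)).erase (ty i j p (k + 1)), ∑ e : Bool,
        S (ty i j p k, !e) (S (x, e) f) ∈ KK M v0 i j N := by
      refine Submodule.sum_mem _ (fun x hx => Submodule.sum_mem _ (fun e _ => ?_))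
      refine closed_KK.step _ _ (mem_KK_of_out (hN.step _ _ hf) ?_)
      apply On_S
      intro w _
      rw [Finset.mem_erase, Finset.mem_erase] at hx
      simp only [en_cons, move]
      rcases ty_cases i j p k with ⟨h1, h2, -⟩ | ⟨h1, h2, -⟩
      · rw [h1, h2] at hx
        exact ⟨hx.2.1, hx.1⟩
      · rw [h1, h2] at hx
        exact ⟨hx.1, hx.2.1⟩
    have h3 := Submodule.sub_mem _ (closed_KK.ker hmesh) hrest
    rw [add_sub_cancel_right, Fintype.sum_bool, Bool.not_true, Bool.not_false] at h3
    -- char 2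
    rw [ZModModule.sub_eq_add, add_comm]
    exact h3
  h0 := by
    rintro k hk _ ⟨f, hf, ho, rfl⟩
    rw [mkQ_eq_zero]
    refine closed_KK.ker (notInRange_mem (v := ch i j p a k) (fun h => ?_) ho)
    have := (ch_inRange_bounds hij h).1
    omega
  hn := by
    rintro k hk _ ⟨f, hf, ho, rfl⟩
    rw [mkQ_eq_zero]
    refine closed_KK.ker (notInRange_mem (v := ch i j p a k) (fun h => ?_) ho)
    have := (ch_inRange_bounds hij h).2
    rw [hn] at this
    push_cast at this
    omega

theorem kdata_Fil_le (hij : i ≠ j) (hN : Closed M v0 N) (p : ℤ) (a : Sym2 B → ℤ) (r : ℕ) :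
    ∀ k, Fil (RLq M v0 i j N true) (RLq M v0 i j N false) (EE M v0 i j N p a) r k
      ≤ EE M v0 i j N p a k := by
  induction r with
  | zero => intro k; exact le_rfl
  | succ r ih =>
    intro k x hx
    obtain ⟨y, hy, z, hz, rfl⟩ := mem_Fil_succ.1 hx
    obtain ⟨f, hf, hof, rfl⟩ := ih _ hy
    obtain ⟨g, hg, hog, rfl⟩ := ih _ hz
    rw [RLq_mk, RLq_mk, ← map_add]
    refine ⟨_, Submodule.add_mem _ (RL_mem hN true hf) (RL_mem hN false hg), ?_, rfl⟩
    rw [RL_on hij true hof, RL_on hij false hog]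
    refine On.add (On_S (hof.mono (fun w hw => ?_))) (On_S (hog.mono (fun w hw => ?_)))
    · rw [en_cons, hw, move_ch_up, sub_add_cancel]
    · rw [en_cons, hw, ← ty_pred_eq i j p (k + 1), move_ch_down, add_sub_cancel_right]

theorem kexact (hij : i ≠ j) (hN : Closed M v0 N) (hi : Sat v0 i N) (hj : Sat v0 j N) {n : ℕ}
    (hn : M i j = n + 1) (p : ℤ) (a : Sym2 B → ℤ) :
    KExact (RLq M v0 i j N true) (RLq M v0 i j N false) (EE M v0 i j N p a) n where
  ex := by
    rintro k hk1 hk2 _ ⟨f, hf, hof, rfl⟩ _ ⟨g, hg, hog, rfl⟩ hfg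
    rw [RLq_mk, RLq_mk, mkQ_eq, RL_on hij true hof, RL_on hij false hog, sub_add_cancel,
      ← ty_pred_eq i j p (k + 1), add_sub_cancel_right] at hfg
    by_cases hr : InRange M (ch i j p a k)
    swap
    · have hk : 1 ≤ k ∧ k + 1 ≤ M i j := ⟨hk1, by rw [hn]; push_cast; omega⟩
      have h1 : ¬ InRange M (ch i j p a (k - 1)) := fun h => hr (ch_inRange_iff hk h)
      have h2 : ¬ InRange M (ch i j p a (k + 1)) := fun h => hr (ch_inRange_iff hk h)
      refine ⟨0, Submodule.zero_mem _, ?_, ?_⟩
      · rw [map_zero, mkQ_eq_zero]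
        exact closed_KK.ker (notInRange_mem h1 hof)
      · rw [map_zero, mkQ_eq_zero]
        exact closed_KK.ker (notInRange_mem h2 hog)
    -- main case
    have htm : ty i j p k = i ∨ ty i j p k = j := ty_mem i j p k
    have htk : (ch i j p a k).1 = ty i j p k := rfl
    have hne : ty i j p (k + 1) ≠ ty i j p k := ty_succ_ne hij p k
    have hmem : S (ty i j p k, true) f - S (ty i j p k, false) g
        ∈ T M v0 {(ch i j p a k).1} (KK M v0 i j N) := by
      rw [htk, T_KK htm]; exact hfg
    have hon : On (fun w => en v0 w = ch i j p a k)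
        (S (ty i j p k, true) f - S (ty i j p k, false) g) := by
      refine On.sub (On_S (hof.mono (fun w hw => ?_))) (On_S (hog.mono (fun w hw => ?_)))
      · have := move_ch_up i j p a (k - 1)
        rw [sub_add_cancel] at this
        rw [en_cons, hw, this]
      · have := move_ch_down i j p a (k + 1)
        rw [add_sub_cancel_right] at this
        rw [en_cons, hw, this]
    obtain ⟨g', hg', hk'⟩ := T_expl_hom closed_KK hmem hon
    rw [htk] at hk'
    set t := ty i j p k with ht
    set t' := ty i j p (k + 1) with ht'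
    let x : B → Bool → FM B := fun o e =>
      (if o = t' then (if e then - g else f) else 0) - g' o e
    have hdown : ch i j p a (k - 1) = move (ch i j p a k) (t', false) := by
      rw [ht', ← ty_pred_eq, move_ch_down]
    have hup : ch i j p a (k + 1) = move (ch i j p a k) (t', true) := by
      rw [ht', move_ch_up]
    have hxon : ∀ o e, o ≠ (ch i j p a k).1 →
        On (fun w => en v0 w = move (ch i j p a k) (o, e)) (x o e) := by
      intro o e _
      refine On.sub ?_ (hg' o e).2
      by_cases ho : o = t'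
      · rw [if_pos ho, ho]
        cases e
        · rw [if_neg (by simp)]
          exact hof.mono (fun w hw => by rw [hw, hdown])
        · rw [if_pos rfl, ← neg_one_smul (ZMod 2) g]
          exact (hog.mono (fun w hw => by rw [hw, hup])).smul _
      · rw [if_neg ho]
        exact On_zero _
    have hxsum : ∑ o ∈ Finset.univ.erase (ch i j p a k).1, ∑ e : Bool,
        S ((ch i j p a k).1, !e) (x o e) ∈ K M v0 := by
      rw [htk]
      convert hk' using 1
      simp only [x, map_sub, Finset.sum_sub_distrib]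
      congr 1
      rw [Finset.sum_eq_single t']
      · simp [sub_eq_add_neg, add_comm]
      · intro o _ ho
        simp [ho]
      · intro h
        exact absurd (Finset.mem_erase.2 ⟨hne, Finset.mem_univ _⟩) h
    obtain ⟨h, hho, hh⟩ := K_exact M v0 (ch i j p a k) hr x hxon hxsum
    have hKN : K M v0 ≤ N := hN.ker
    have hKcl : K M v0 ≤ KK M v0 i j N := closed_KK.ker
    have hKKN : KK M v0 i j N ≤ N := T_le hN
    have hxN : ∀ o e, x o e ∈ N := by
      intro o e
      refine Submodule.sub_mem _ ?_ (hKKN (hg' o e).1)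
      split_ifs
      · exact Submodule.neg_mem _ hg
      · exact hf
      · exact Submodule.zero_mem _
    have hSh : ∀ s, S s h ∈ N := by
      rintro ⟨o, e⟩
      by_cases ho : o = t
      · rw [ho]
        exact hKN (S_invalid (hho.mono (fun w hw => by rw [hw]; exact htk)))
      · have := Submodule.sub_mem _ (hxN o e) (hKN (hh o e ho))
        simpa using this
    have hhN : h ∈ N := by
      rcases htm with hti | htj
      · exact hi _ h hti hho hSh
      · exact hj _ h htj hho hSh
    refine ⟨(KK M v0 i j N).mkQ h, ⟨h, hhN, hho, rfl⟩, ?_, ?_⟩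
    · rw [RLq_mk, mkQ_eq, RL_on hij false hho]
      have h1 := hKcl (hh t' false hne)
      have h2 := Submodule.add_mem _ h1 (hg' t' false).1
      simp only [x, if_true, Bool.false_eq_true, if_false] at h2
      convert h2 using 1
      abel
    · rw [RLq_mk, mkQ_eq, RL_on hij true hho, ZModModule.sub_eq_add]
      have h1 := hKcl (hh t' true hne)
      have h2 := Submodule.neg_mem _ (Submodule.add_mem _ h1 (hg' t' true).1)
      simp only [x, if_true] at h2
      convert h2 using 1
      abel

/-- one step of the description of the operators along a chain -/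
theorem chain_step (hij : i ≠ j) (hN : Closed M v0 N) {N' : Submodule (ZMod 2) (FM B)}
    (hN' : Closed M v0 N') (hle : N' ≤ N) (hge : KK M v0 i j N ≤ N') {t t' : B}
    (htt : (t = i ∧ t' = j) ∨ (t = j ∧ t' = i)) (r : ℕ)
    (H : ∀ p a k f, On (fun w => en v0 w = ch i j p a k) f →
      (f ∈ N' ↔ (KK M v0 i j N).mkQ f ∈ Fil (RLq M v0 i j N true) (RLq M v0 i j N false)
        (EE M v0 i j N p a) (if ty i j p k = t' then r else r - 1) k)) :
    ∀ p a k f, On (fun w => en v0 w = ch i j p a k) f →
      (f ∈ T M v0 {t} N' ↔ (KK M v0 i j N).mkQ f ∈ Fil (RLq M v0 i j N true)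
        (RLq M v0 i j N false) (EE M v0 i j N p a) (if ty i j p k = t then r + 1 else r) k) := by
  intro p a k f hf
  have hti : t = i ∨ t = j := htt.imp (fun h => h.1) (fun h => h.1)
  have hne : t' ≠ t := by
    rcases htt with ⟨h1, h2⟩ | ⟨h1, h2⟩ <;> rw [h1, h2]
    · exact hij.symm
    · exact hij
  by_cases hk : ty i j p k = t
  · -- the type `t`
    have hk' : ty i j p (k + 1) = t' := by
      rcases ty_cases i j p k with ⟨h1, h2, -⟩ | ⟨h1, h2, -⟩ <;>
      rcases htt with ⟨h3, h4⟩ | ⟨h3, h4⟩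
      · rw [h2, h4]
      · exact absurd (h1.symm.trans (hk.trans h3)) hij
      · exact absurd ((h1.symm.trans (hk.trans h3))).symm hij
      · rw [h2, h4]
    have hk'' : ty i j p (k - 1) = t' := by rw [ty_pred_eq, hk']
    rw [if_pos hk]
    constructor
    · intro hfT
      have htk : (ch i j p a k).1 = t := hk
      have hfT' : f ∈ T M v0 {(ch i j p a k).1} N' := by rw [htk]; exact hfT
      obtain ⟨g, hg, hkk⟩ := T_expl_hom hN' hfT' hf
      rw [htk, ← Finset.add_sum_erase (Finset.univ.erase t) _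
        (Finset.mem_erase.2 ⟨hne, Finset.mem_univ _⟩)] at hkk
      have hrest : ∑ x ∈ (Finset.univ.erase t).erase t', ∑ e : Bool,
          S (t, !e) (g x e) ∈ KK M v0 i j N := by
        refine Submodule.sum_mem _ (fun x hx => Submodule.sum_mem _ (fun e _ => ?_))
        refine closed_KK.step _ _ (mem_KK_of_out (hle (hg x e).1) ?_)
        refine (hg x e).2.mono (fun w hw => ?_)
        rw [Finset.mem_erase, Finset.mem_erase] at hx
        rw [hw]
        rcases htt with ⟨h3, h4⟩ | ⟨h3, h4⟩
        · rw [h3, h4] at hx; exact ⟨hx.2.1, hx.1⟩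
        · rw [h3, h4] at hx; exact ⟨hx.1, hx.2.1⟩
      have hKcl : K M v0 ≤ KK M v0 i j N := closed_KK.ker
      have h4 := Submodule.add_mem _ (hKcl hkk) hrest
      rw [sub_add_eq_sub_sub, sub_add_cancel, Fintype.sum_bool, Bool.not_true, Bool.not_false,
        ← mkQ_eq] at h4
      have hdn : On (fun w => en v0 w = ch i j p a (k - 1)) (g t' false) := by
        have := (hg t' false).2
        rw [← hk'', move_ch_down] at this
        rw [← hk'']; exact this
      have hup : On (fun w => en v0 w = ch i j p a (k + 1)) (g t' true) := by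
        have := (hg t' true).2
        rw [← hk', move_ch_up] at this
        rw [← hk']; exact this
      refine mem_Fil_succ.2 ⟨(KK M v0 i j N).mkQ (g t' false), ?_,
        (KK M v0 i j N).mkQ (g t' true), ?_, ?_⟩
      · have := (H p a (k - 1) _ hdn).1 (hg t' false).1
        rwa [if_pos hk''] at this
      · have := (H p a (k + 1) _ hup).1 (hg t' true).1
        rwa [if_pos hk'] at this
      · rw [h4, RLq_mk, RLq_mk, RL_on hij true hdn, RL_on hij false hup, sub_add_cancel,
          ← ty_pred_eq i j p (k + 1), add_sub_cancel_right, hk, map_add, add_comm]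
    · intro hm
      obtain ⟨x, hx, y, hy, hxy⟩ := mem_Fil_succ.1 hm
      have hxE : x ∈ EE M v0 i j N p a (k - 1) := (kdata_Fil_le hij hN p a r _) hx
      have hyE : y ∈ EE M v0 i j N p a (k + 1) := (kdata_Fil_le hij hN p a r _) hy
      obtain ⟨g1, hg1, ho1, rfl⟩ := hxE
      obtain ⟨g2, hg2, ho2, rfl⟩ := hyE
      have h1 : g1 ∈ N' := by
        rw [H p a (k - 1) g1 ho1, if_pos hk'']; exact hx
      have h2 : g2 ∈ N' := by
        rw [H p a (k + 1) g2 ho2, if_pos hk']; exact hy
      rw [RLq_mk, RLq_mk, ← map_add, mkQ_eq, RL_on hij true ho1, RL_on hij false ho2,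
        sub_add_cancel, ← ty_pred_eq i j p (k + 1), add_sub_cancel_right, hk] at hxy
      have hK : KK M v0 i j N ≤ T M v0 {t} N' := by
        rw [← T_KK (N := N) hti]
        exact T_mono hge
      have h3 := Submodule.add_mem _ (hK hxy) (Submodule.add_mem _
        (S_mem_T (e := true) hN' h1) (S_mem_T (e := false) hN' h2))
      simpa using h3
  · have hkt : ty i j p k = t' := by
      rcases ty_mem i j p k with h1 | h1 <;> rcases htt with ⟨h3, h4⟩ | ⟨h3, h4⟩
      · exact absurd (h1.trans h3.symm) hk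
      · rw [h1, h4]
      · rw [h1, h4]
      · exact absurd (h1.trans h3.symm) hk
    rw [if_neg hk]
    have hout : On (fun w => (en v0 w).1 ∉ ({t} : Set B)) f := by
      refine hf.mono (fun w hw => ?_)
      rw [hw, Set.mem_singleton_iff]
      exact hk
    rw [mem_T_iff_of_out hN' hout, H p a k f hf, if_pos hkt]

theorem KK_le_Tw {U : List B} (hU : ∀ x ∈ U, x = i ∨ x = j) {N' : Submodule (ZMod 2) (FM B)}
    (hge : KK M v0 i j N ≤ N') : KK M v0 i j N ≤ Tw M v0 U N' := by
  induction U generalizing N' with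
  | nil => exact hge
  | cons x U ih =>
    rw [Tw_cons]
    refine ih (fun y hy => hU y (List.mem_cons_of_mem _ hy)) ?_
    rw [← T_KK (N := N) (hU x List.mem_cons_self)]
    exact T_mono hge

omit [DecidableEq B] [Fintype B] in
theorem mem_alternatingWord {i j : B} (a : ℕ) :
    ∀ x ∈ CoxeterSystem.alternatingWord i j a, x = i ∨ x = j := by
  induction a generalizing i j with
  | zero => simp [CoxeterSystem.alternatingWord]
  | succ a ih =>
    intro x hx
    rw [CoxeterSystem.alternatingWord_succ, List.concat_eq_append, List.mem_append,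
      List.mem_singleton] at hx
    rcases hx with hx | hx
    · exact (ih x hx).symm
    · exact Or.inr hx

/-- description of both alternating operator words along the chains -/
theorem chain_desc (hij : i ≠ j) (hN : Closed M v0 N) (r : ℕ) :
    (∀ p a k f, On (fun w => en v0 w = ch i j p a k) f →
      (f ∈ Tw M v0 (CoxeterSystem.alternatingWord i j r) N ↔
        (KK M v0 i j N).mkQ f ∈ Fil (RLq M v0 i j N true) (RLq M v0 i j N false)
        (EE M v0 i j N p a) (if ty i j p k = j then r else r - 1) k)) ∧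
    (∀ p a k f, On (fun w => en v0 w = ch i j p a k) f →
      (f ∈ Tw M v0 (CoxeterSystem.alternatingWord j i r) N ↔
        (KK M v0 i j N).mkQ f ∈ Fil (RLq M v0 i j N true) (RLq M v0 i j N false)
        (EE M v0 i j N p a) (if ty i j p k = i then r else r - 1) k)) := by
  induction r with
  | zero =>
    constructor
    · intro p a k f hf
      simp only [CoxeterSystem.alternatingWord, Tw_nil, Nat.zero_sub, ite_self, Fil]
      exact (mkQ_mem_EE hN hf).symm
    · intro p a k f hf
      simp only [CoxeterSystem.alternatingWord, Tw_nil, Nat.zero_sub, ite_self, Fil]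
      exact (mkQ_mem_EE hN hf).symm
  | succ r ih =>
    obtain ⟨ih1, ih2⟩ := ih
    have hKN : KK M v0 i j N ≤ N := T_le hN
    constructor
    · have := chain_step hij hN (closed_Tw hN) (Tw_le hN)
        (KK_le_Tw (fun x hx => (mem_alternatingWord r x hx).symm) hKN)
        (t := j) (t' := i) (Or.inr ⟨rfl, rfl⟩) r ih2
      intro p a k f hf
      rw [CoxeterSystem.alternatingWord_succ, List.concat_eq_append, Tw_append, Tw_cons, Tw_nil,
        Nat.add_sub_cancel]
      exact this p a k f hf
    · have := chain_step hij hN (closed_Tw hN) (Tw_le hN)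
        (KK_le_Tw (fun x hx => mem_alternatingWord r x hx) hKN)
        (t := i) (t' := j) (Or.inl ⟨rfl, rfl⟩) r ih1
      intro p a k f hf
      rw [CoxeterSystem.alternatingWord_succ, List.concat_eq_append, Tw_append, Tw_cons, Tw_nil,
        Nat.add_sub_cancel]
      exact this p a k f hf

end quot

variable {i j : B}

theorem Tw_alt_eq_KK (hij : i ≠ j) (hM : M i j ≠ 0) {N : Submodule (ZMod 2) (FM B)}
    (hN : Closed M v0 N) :
    Tw M v0 (CoxeterSystem.alternatingWord i j (M i j)) N = KK M v0 i j N ∧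
    Tw M v0 (CoxeterSystem.alternatingWord j i (M i j)) N = KK M v0 i j N := by
  obtain ⟨n, hn⟩ : ∃ n, M i j = n + 1 := ⟨M i j - 1, by omega⟩
  have hKN : KK M v0 i j N ≤ N := T_le hN
  obtain ⟨d1, d2⟩ := chain_desc hij hN (M i j)
  have main : ∀ N' : Submodule (ZMod 2) (FM B), Closed M v0 N' → N' ≤ N →
      (∀ p a k f, On (fun w => en v0 w = ch i j p a k) f → f ∈ N' →
        ∃ r, n ≤ r ∧ (KK M v0 i j N).mkQ f ∈ Fil (RLq M v0 i j N true) (RLq M v0 i j N false)
        (EE M v0 i j N p a) r k) → N' ≤ KK M v0 i j N := by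
    intro N' hN' hle H f hf
    refine hom_induction (en v0) (Q := fun f => f ∈ KK M v0 i j N) (Submodule.zero_mem _)
      (fun _ _ h1 h2 => Submodule.add_mem _ h1 h2) f (fun v => ?_)
    have hfv : pr (fun w => en v0 w = v) f ∈ N' := hN'.gr (fun x => x = v) f hf
    have hon : On (fun w => en v0 w = v) (pr (fun w => en v0 w = v) f) := On_pr _ _
    by_cases hv : v.1 = i ∨ v.1 = j
    · obtain ⟨p, a, k, rfl, -⟩ := exists_ch v hv
      obtain ⟨r, hr, hm⟩ := H p a k _ hon hfv
      have := (kdata hij hN hn p a).Fil_vanish r 0 0 (by omega) _ _ hm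
      simp only [pow_zero, Module.End.one_apply] at this
      exact mkQ_eq_zero.1 this
    · push Not at hv
      exact mem_KK_of_out (hle hfv) (hon.mono (fun w hw => by rw [hw]; exact hv))
  constructor
  · apply le_antisymm
    · refine main _ (closed_Tw hN) (Tw_le hN) (fun p a k f hf hm => ?_)
      rw [d1 p a k f hf] at hm
      exact ⟨_, by split_ifs <;> omega, hm⟩
    · exact KK_le_Tw (fun x hx => mem_alternatingWord _ x hx) hKN
  · apply le_antisymm
    · refine main _ (closed_Tw hN) (Tw_le hN) (fun p a k f hf hm => ?_)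
      rw [d2 p a k f hf] at hm
      exact ⟨_, by split_ifs <;> omega, hm⟩
    · exact KK_le_Tw (fun x hx => (mem_alternatingWord _ x hx).symm) hKN

/-- C1: braid relation -/
theorem Tw_braid (hij : i ≠ j) (hM : M i j ≠ 0) {N : Submodule (ZMod 2) (FM B)}
    (hN : Closed M v0 N) :
    Tw M v0 (CoxeterSystem.alternatingWord i j (M i j)) N
      = Tw M v0 (CoxeterSystem.alternatingWord j i (M i j)) N := by
  rw [(Tw_alt_eq_KK hij hM hN).1, (Tw_alt_eq_KK hij hM hN).2]

/-- C2: saturation along alternating words (`alternatingWord i j a` ends in `j`) -/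
theorem sat_Tw_alt (hij : i ≠ j) {N : Submodule (ZMod 2) (FM B)}
    (hN : Closed M v0 N) (hi : Sat v0 i N) (hj : Sat v0 j N) {a : ℕ} (ha : a < M i j) :
    Sat v0 i (Tw M v0 (CoxeterSystem.alternatingWord i j a) N) := by
  intro v f hv hf hS
  obtain ⟨n, hn⟩ : ∃ n, M i j = n + 1 := ⟨M i j - 1, by omega⟩
  have hle : Tw M v0 (CoxeterSystem.alternatingWord i j a) N ≤ N := Tw_le hN
  have hfN : f ∈ N := hi v f hv hf (fun s => hle (hS s))
  obtain ⟨d1, -⟩ := chain_desc hij hN a
  obtain ⟨p, c, k, rfl, hk⟩ := exists_ch (i := i) (j := j) v (Or.inl hv)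
  rw [hv] at hk
  have hkp : ty i j p (k + 1) = j := by
    rcases ty_cases i j p k with ⟨-, h2, -⟩ | ⟨h1, -, -⟩
    · exact h2
    · exact absurd (hk.symm.trans h1) hij
  have hkm : ty i j p (k - 1) = j := by rw [ty_pred_eq, hkp]
  rw [d1 p c k f hf, if_neg (by rw [hk]; exact hij)]
  rcases Nat.eq_zero_or_pos a with h0 | h0
  · subst h0
    exact (mkQ_mem_EE hN hf).2 hfN
  obtain ⟨r, rfl⟩ : ∃ r, a = r + 1 := ⟨a - 1, by omega⟩
  rw [Nat.add_sub_cancel]
  refine (kdata hij hN hn p c).sat (kexact hij hN hi hj hn p c) (by omega)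
    ((mkQ_mem_EE hN hf).2 hfN) ?_ ?_
  · rw [RLq_mk, RL_on hij true hf, hkp]
    have ho : On (fun w => en v0 w = ch i j p c (k + 1)) (S (j, true) f) :=
      On_S (hf.mono (fun w hw => by
        have := move_ch_up i j p c k
        rw [hkp] at this
        rw [en_cons, hw, this]))
    have := (d1 p c (k + 1) _ ho).1 (hS (j, true))
    rwa [if_pos hkp] at this
  · rw [RLq_mk, RL_on hij false hf, hkp]
    have ho : On (fun w => en v0 w = ch i j p c (k - 1)) (S (j, false) f) :=
      On_S (hf.mono (fun w hw => by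
        have := move_ch_down i j p c k
        rw [hkm] at this
        rw [en_cons, hw, this]))
    have := (d1 p c (k - 1) _ ho).1 (hS (j, false))
    rwa [if_pos hkm] at this

end Helper66.MC
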