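import Pool.Agent.Helper66.MC.Defs

/-!
Piece B of the multi-cluster complex problem: the combinatorial reduction.
-/

set_option autoImplicit false

namespace Helper66.MC

section Periodic

variable {B : Type*} (om : List B) (hn : 0 < om.length)

theorem per_add (t : ℕ) : per om hn (t + om.length) = per om hn t := by
  simp [per]

theorem per_add_mul (t k : ℕ) : per om hn (t + k * om.length) = per om hn t := by
  simp [per]

theorem per_of_lt {t : ℕ} (ht : t < om.length) : per om hn t = om[t] := by
  simp [per, Nat.mod_eq_of_lt ht]

variable {om hn}

theorem per_eq_imp (hnd : om.Nodup) {u v : ℕ} (h : per om hn u = per om hn v) (huv : u < v) :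
    u + om.length ≤ v := by
  unfold per at h
  have h2 : u % om.length = v % om.length := (List.Nodup.getElem_inj_iff hnd).1 h
  have h3 : om.length ∣ v - u := by
    have := (Nat.modEq_iff_dvd' huv.le).1 h2
    exact this
  have h4 := Nat.le_of_dvd (by omega) h3
  omega

theorem exists_per (hall : ∀ b, b ∈ om) (t : ℕ) (b : B) :
    ∃ u, t ≤ u ∧ u < t + om.length ∧ per om hn u = b := by
  obtain ⟨i, hi, rfl⟩ := List.getElem_of_mem (hall b)
  -- choose u in [t, t+n) congruent to i
  have key : ∃ u, t ≤ u ∧ u < t + om.length ∧ u % om.length = i := by
    refine ⟨t + (i + (om.length - t % om.length)) % om.length, by omega, ?_, ?_⟩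
    · have := Nat.mod_lt (i + (om.length - t % om.length)) hn
      omega
    · have h1 : t % om.length < om.length := Nat.mod_lt _ hn
      rw [Nat.add_mod, Nat.mod_mod, ← Nat.add_mod]
      have h2 : t + (i + (om.length - t % om.length)) = i + om.length * (t / om.length + 1) := by
        have h3 := Nat.div_add_mod t om.length
        rw [Nat.mul_add, Nat.mul_one]
        omega
      rw [h2, Nat.add_mul_mod_self_left, Nat.mod_eq_of_lt hi]
  obtain ⟨u, h1, h2, h3⟩ := key
  exact ⟨u, h1, h2, by simp [per, h3]⟩

theorem nextTime_spec (hall : ∀ b, b ∈ om) (t : ℕ) (b : B) :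
    t ≤ nextTime (per om hn) t b ∧ per om hn (nextTime (per om hn) t b) = b := by
  have hne : {u | t ≤ u ∧ per om hn u = b}.Nonempty := by
    obtain ⟨u, h1, _, h3⟩ := exists_per (hn := hn) hall t b
    exact ⟨u, h1, h3⟩
  exact Nat.sInf_mem hne

theorem nextTime_le {t u : ℕ} {b : B} (h1 : t ≤ u) (h2 : per om hn u = b) :
    nextTime (per om hn) t b ≤ u := Nat.sInf_le ⟨h1, h2⟩

theorem nextTime_mono (hall : ∀ b, b ∈ om) {t t' : ℕ} (h : t ≤ t') (b : B) :
    nextTime (per om hn) t b ≤ nextTime (per om hn) t' b := by
  obtain ⟨h1, h2⟩ := nextTime_spec (hn := hn) hall t' b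
  exact nextTime_le (h.trans h1) h2

theorem fin_mono (hall : ∀ b, b ∈ om) (R : List B) {t t' : ℕ} (h : t ≤ t') :
    fin (per om hn) R t ≤ fin (per om hn) R t' := by
  induction R generalizing t t' with
  | nil => exact h
  | cons r R ih =>
    exact ih (Nat.add_le_add_right (nextTime_mono hall h r) 1)

/-- shifting the start by a period shifts the next time by at least a period -/
theorem nextTime_add (hall : ∀ b, b ∈ om) (t : ℕ) (b : B) :
    nextTime (per om hn) t b + om.length ≤ nextTime (per om hn) (t + om.length) b := by
  obtain ⟨h1, h2⟩ := nextTime_spec (hn := hn) hall (t + om.length) b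
  have h3 : per om hn (nextTime (per om hn) (t + om.length) b - om.length) = b := by
    rw [← per_add om hn, Nat.sub_add_cancel (by omega), h2]
  have h4 := nextTime_le (t := t) (by omega) h3
  omega

theorem fin_add (hall : ∀ b, b ∈ om) (R : List B) (t : ℕ) :
    fin (per om hn) R t + om.length ≤ fin (per om hn) R (t + om.length) := by
  induction R generalizing t with
  | nil => exact le_rfl
  | cons r R ih =>
    refine (ih _).trans ?_
    refine fin_mono hall R ?_
    have := nextTime_add (hn := hn) hall t r
    omega

/-- embeddings end late -/
theorem exists_last (hall : ∀ b, b ∈ om) (R : List B) (hR : R ≠ []) (L : List ℕ) (t : ℕ)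
    (hL : L.Pairwise (· < ·)) (ht : ∀ x ∈ L, t ≤ x) (hs : R.Sublist (L.map (per om hn))) :
    ∃ y ∈ L, R.getLast? = some (per om hn y) ∧ fin (per om hn) R t ≤ y + 1 := by
  induction L generalizing R t with
  | nil => simp at hs; exact absurd hs hR
  | cons x L ih =>
    obtain ⟨hx, hL'⟩ := List.pairwise_cons.1 hL
    have htx : t ≤ x := ht x (by simp)
    match R, hR with
    | r :: R, _ =>
      rw [List.map_cons] at hs
      by_cases hr : r = per om hn x
      · subst hr
        have hs' : R.Sublist (L.map (per om hn)) := List.cons_sublist_cons.1 hs
        have hfx : nextTime (per om hn) t (per om hn x) ≤ x := nextTime_le htx rfl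
        rcases R with _ | ⟨r', R'⟩
        · refine ⟨x, by simp, by simp, ?_⟩
          simp only [fin]
          omega
        · obtain ⟨y, hy1, hy2, hy3⟩ := ih (r' :: R') (by simp) (x + 1) hL'
            (fun y hy => hx y hy) hs'
          refine ⟨y, by simp [hy1], ?_, ?_⟩
          · rw [← hy2]; simp
          · refine le_trans ?_ hy3
            rw [fin]
            exact fin_mono hall _ (by omega)
      · have hs' : (r :: R).Sublist (L.map (per om hn)) := by
          cases hs with
          | cons _ h => exact h
          | cons_cons _ h => exact absurd rfl hr
        obtain ⟨y, hy1, hy2, hy3⟩ := ih (r :: R) (by simp) t hL'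
            (fun y hy => htx.trans (hx y hy).le) hs'
        exact ⟨y, by simp [hy1], hy2, hy3⟩

/-- the combinatorial heart: few deletions already block `R` -/
theorem exists_block (hall : ∀ b, b ∈ om) (hnd : om.Nodup) (I : Finset ℕ) (L : List ℕ)
    (hL : L.Pairwise (· < ·)) (R : List B) (hR : R ≠ []) (t b : ℕ) (ht : ∀ x ∈ L, t ≤ x)
    (hs : ¬ R.Sublist ((L.filter (fun x => decide (x ∉ I))).map (per om hn)))
    (hb : ∀ x ∈ L, R.getLast? = some (per om hn x) → x < fin (per om hn) R t + b * om.length) :
    ∃ D : Finset ℕ, D ⊆ I ∧ (∀ x ∈ D, x ∈ L) ∧ D.card ≤ b + 1 ∧
      ¬ R.Sublist ((L.filter (fun x => decide (x ∉ D))).map (per om hn)) := by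
  induction L generalizing R t b with
  | nil => exact ⟨∅, by simp, by simp, by simp, by simpa using hR⟩
  | cons x L ih =>
    obtain ⟨hx, hL'⟩ := List.pairwise_cons.1 hL
    have htx : t ≤ x := ht x (by simp)
    have hxL : x ∉ L := fun h => lt_irrefl _ (hx x h)
    match R, hR with
    | r :: R, _ =>
      by_cases hr : r = per om hn x
      · subst hr
        have hfx : nextTime (per om hn) t (per om hn x) ≤ x := nextTime_le htx rfl
        by_cases hxI : x ∈ I
        · -- encountered deletion
          have hs' : ¬ (per om hn x :: R).Sublist
              ((L.filter (fun x => decide (x ∉ I))).map (per om hn)) := by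
            simpa [List.filter_cons, hxI] using hs
          have hfin : fin (per om hn) (per om hn x :: R) t + om.length
              ≤ fin (per om hn) (per om hn x :: R) (x + 1) := by
            rw [fin, fin]
            refine (fin_add hall R _).trans (fin_mono hall R ?_)
            obtain ⟨h1, h2⟩ := nextTime_spec (hn := hn) hall (x + 1) (per om hn x)
            have h3 := per_eq_imp hnd h2.symm (by omega)
            omega
          rcases b with _ | b
          · refine ⟨{x}, by simpa using hxI, by simp, by simp, ?_⟩
            have hfl : (x :: L).filter (fun y => decide (y ∉ ({x} : Finset ℕ))) = L := by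
              rw [List.filter_cons]
              simp only [Finset.mem_singleton, not_true_eq_false, decide_false,
                Bool.false_eq_true, ↓reduceIte]
              rw [List.filter_eq_self]
              intro a ha
              simp only [decide_not, Bool.not_eq_eq_eq_not, Bool.not_true, decide_eq_false_iff_not]
              rintro rfl
              exact hxL ha
            rw [hfl]
            intro hsub
            obtain ⟨y, hy1, hy2, hy3⟩ := exists_last hall _ (by simp) L (x + 1) hL'
              (fun y hy => hx y hy) hsub
            have h4 := hb y (by simp [hy1]) hy2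
            omega
          · obtain ⟨D, hD1, hD2, hD3, hD4⟩ := ih hL' (per om hn x :: R) (by simp) (x + 1) b
              (fun y hy => hx y hy) hs' (by
                intro y hy hy2
                have h4 := hb y (by simp [hy]) hy2
                have h5 : (b + 1) * om.length = b * om.length + om.length := by ring
                omega)
            refine ⟨insert x D, ?_, ?_, ?_, ?_⟩
            · intro y hy
              rcases Finset.mem_insert.1 hy with rfl | hy
              · exact hxI
              · exact hD1 hy
            · intro y hy
              rcases Finset.mem_insert.1 hy with rfl | hy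
              · simp
              · simp [hD2 y hy]
            · exact (Finset.card_insert_le _ _).trans (by omega)
            · have hfl : (x :: L).filter (fun y => decide (y ∉ insert x D))
                  = L.filter (fun y => decide (y ∉ D)) := by
                rw [List.filter_cons]
                simp only [Finset.mem_insert, true_or, not_true_eq_false, decide_false,
                  Bool.false_eq_true, ↓reduceIte]
                apply List.filter_congr
                intro a ha
                have : a ≠ x := fun h => hxL (h ▸ ha)
                simp [this]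
              rw [hfl]
              exact hD4
        · -- x is kept
          have hs' : ¬ R.Sublist ((L.filter (fun x => decide (x ∉ I))).map (per om hn)) := by
            intro h
            apply hs
            simpa [List.filter_cons, hxI] using h
          have hRne : R ≠ [] := by
            rintro rfl
            exact hs' (List.nil_sublist _)
          obtain ⟨D, hD1, hD2, hD3, hD4⟩ := ih hL' R hRne (x + 1) b
              (fun y hy => hx y hy) hs' (by
                intro y hy hy2
                have hlast : (per om hn x :: R).getLast? = some (per om hn y) := by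
                  rw [← hy2]
                  rcases R with _ | ⟨r', R'⟩
                  · exact absurd rfl hRne
                  · simp
                have h4 := hb y (by simp [hy]) hlast
                have h5 : fin (per om hn) (per om hn x :: R) t ≤ fin (per om hn) R (x + 1) := by
                  rw [fin]
                  exact fin_mono hall R (by omega)
                omega)
          refine ⟨D, hD1, fun y hy => by simp [hD2 y hy], hD3, ?_⟩
          have hxD : x ∉ D := fun h => hxI (hD1 h)
          rw [List.filter_cons]
          simp only [hxD, not_false_eq_true, decide_true, ↓reduceIte, List.map_cons,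
            List.cons_sublist_cons]
          exact hD4
      · have hs' : ¬ (r :: R).Sublist ((L.filter (fun x => decide (x ∉ I))).map (per om hn)) := by
          intro h
          apply hs
          refine h.trans (List.Sublist.map _ ?_)
          exact List.Sublist.filter _ (List.sublist_cons_self _ _)
        obtain ⟨D, hD1, hD2, hD3, hD4⟩ := ih hL' (r :: R) (by simp) t b
            (fun y hy => htx.trans (hx y hy).le) hs' (fun y hy hy2 => hb y (by simp [hy]) hy2)
        refine ⟨D, hD1, fun y hy => by simp [hD2 y hy], hD3, ?_⟩
        intro h
        apply hD4
        rw [List.filter_cons] at h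
        split_ifs at h with hxd
        · rw [List.map_cons] at h
          cases h with
          | cons _ h => exact h
          | cons_cons _ h => exact absurd rfl hr
        · exact h

end Periodic

section Greedy

variable {B W : Type*} [Group W] {M : CoxeterMatrix B} (cs : CoxeterSystem M W) (q : ℕ → B)

open Classical in
/-- used times before `T`, as a list -/
noncomputable def usedList (T : ℕ) : List ℕ := (List.range T).filter (fun t => decide (Used cs q t))

theorem usedList_succ_of_used {T : ℕ} (h : Used cs q T) :
    usedList cs q (T + 1) = usedList cs q T ++ [T] := by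
  simp [usedList, List.range_succ, h]

theorem usedList_succ_of_not_used {T : ℕ} (h : ¬ Used cs q T) :
    usedList cs q (T + 1) = usedList cs q T := by
  simp [usedList, List.range_succ, h]

theorem greedy_succ_of_used {T : ℕ} (h : Used cs q T) :
    greedy cs q (T + 1) = greedy cs q T * cs.simple (q T) := by
  rw [greedy, if_pos]
  exact h

theorem greedy_succ_of_not_used {T : ℕ} (h : ¬ Used cs q T) :
    greedy cs q (T + 1) = greedy cs q T := by
  rw [greedy, if_neg]
  exact h

theorem used_length {T : ℕ} (h : Used cs q T) :
    cs.length (greedy cs q T * cs.simple (q T)) = cs.length (greedy cs q T) + 1 := by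
  rcases cs.length_mul_simple (greedy cs q T) (q T) with h1 | h1
  · exact h1
  · unfold Used at h
    omega

theorem wordProd_usedList (T : ℕ) :
    cs.wordProd ((usedList cs q T).map q) = greedy cs q T ∧
      (usedList cs q T).length = cs.length (greedy cs q T) := by
  induction T with
  | zero => simp [usedList, greedy]
  | succ T ih =>
    by_cases h : Used cs q T
    · rw [usedList_succ_of_used cs q h, greedy_succ_of_used cs q h]
      refine ⟨?_, ?_⟩
      · rw [List.map_append, cs.wordProd_append, ih.1]
        simp
      · rw [used_length cs q h, List.length_append, ih.2]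
        simp
    · rw [usedList_succ_of_not_used cs q h, greedy_succ_of_not_used cs q h]
      exact ih

theorem mem_usedList {T t : ℕ} : t ∈ usedList cs q T ↔ t < T ∧ Used cs q t := by
  simp [usedList]

theorem usedList_pairwise (T : ℕ) : (usedList cs q T).Pairwise (· < ·) :=
  List.Pairwise.filter _ List.pairwise_lt_range

theorem length_greedy_mono {s t : ℕ} (h : s ≤ t) :
    cs.length (greedy cs q s) ≤ cs.length (greedy cs q t) := by
  induction t, h using Nat.le_induction with
  | base => exact le_rfl
  | succ t _ ih =>
    refine ih.trans ?_
    by_cases h : Used cs q t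
    · rw [greedy_succ_of_used cs q h]
      exact h.le
    · rw [greedy_succ_of_not_used cs q h]

/-- if no letter of an interval is used the greedy product is constant there -/
theorem greedy_const {s t : ℕ} (hst : s ≤ t) (h : ∀ u, s ≤ u → u < t → ¬ Used cs q u) :
    greedy cs q t = greedy cs q s := by
  induction t, hst using Nat.le_induction with
  | base => rfl
  | succ t hst ih =>
    rw [greedy_succ_of_not_used cs q (h t hst (by omega)), ih (fun u h1 h2 => h u h1 (by omega))]

variable {w0 : W}

theorem greedy_stable (h0 : ∀ w, cs.length w ≤ cs.length w0) {s t : ℕ} (hst : s ≤ t)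
    (hs : greedy cs q s = w0) : greedy cs q t = w0 := by
  induction t, hst using Nat.le_induction with
  | base => exact hs
  | succ t hst ih =>
    rw [greedy_succ_of_not_used, ih]
    intro h
    have h1 := used_length cs q h
    rw [ih] at h1
    have := h0 (w0 * cs.simple (q t))
    omega

/-- a block of letters containing every letter increases the length unless `w0` is reached -/
theorem greedy_block (hasc : ∀ w, w ≠ w0 → ∃ i, ¬ cs.IsRightDescent w i) {s t : ℕ} (_hst : s ≤ t)
    (hall : ∀ b, ∃ u, s ≤ u ∧ u < t ∧ q u = b) (hs : greedy cs q s ≠ w0) :
    cs.length (greedy cs q s) < cs.length (greedy cs q t) := by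
  by_contra hcon
  push Not at hcon
  -- no letter is used
  have hno : ∀ u, s ≤ u → u < t → ¬ Used cs q u := by
    intro u h1 h2 h3
    have h4 := length_greedy_mono cs q h1
    have h5 := length_greedy_mono cs q (show u + 1 ≤ t by omega)
    rw [greedy_succ_of_used cs q h3, used_length cs q h3] at h5
    omega
  obtain ⟨i, hi⟩ := hasc _ hs
  obtain ⟨u, h1, h2, h3⟩ := hall i
  apply hno u h1 h2
  have h4 : greedy cs q u = greedy cs q s :=
    greedy_const cs q h1 (fun v hv1 hv2 => hno v hv1 (by omega))
  unfold Used
  rw [h4, h3]
  rcases cs.length_mul_simple (greedy cs q s) i with h5 | h5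
  · omega
  · exact absurd (show cs.IsRightDescent (greedy cs q s) i by
      unfold CoxeterSystem.IsRightDescent; omega) hi

theorem greedy_reaches [Finite W] (hasc : ∀ w, w ≠ w0 → ∃ i, ¬ cs.IsRightDescent w i)
    (h0 : ∀ w, cs.length w ≤ cs.length w0) (n : ℕ)
    (hall : ∀ (s : ℕ) (b : B), ∃ u, s ≤ u ∧ u < s + n ∧ q u = b) :
    greedy cs q (Nat.card W * n) = w0 := by
  classical
  have := Fintype.ofFinite W
  by_contra hcon
  have hne : ∀ j ≤ Nat.card W, greedy cs q (j * n) ≠ w0 := by
    intro j hj h
    exact hcon (greedy_stable cs q h0 (Nat.mul_le_mul_right n hj) h)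
  have hlt : ∀ j ≤ Nat.card W, cs.length (greedy cs q (j * n))
      < cs.length (greedy cs q ((j + 1) * n)) := by
    intro j hj
    refine greedy_block cs q hasc (Nat.mul_le_mul_right n (by omega)) ?_ (hne j hj)
    intro b
    obtain ⟨u, h1, h2, h3⟩ := hall (j * n) b
    exact ⟨u, h1, by rw [Nat.add_mul, Nat.one_mul]; exact h2, h3⟩
  have hmono : ∀ i j, i < j → j ≤ Nat.card W → cs.length (greedy cs q (i * n))
      < cs.length (greedy cs q (j * n)) := by
    intro i j hij
    induction j, hij using Nat.le_induction with
    | base => intro hj; exact hlt i (by omega)
    | succ j _ ih => intro hj; exact (ih (by omega)).trans (hlt j (by omega))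
  have hinj : Function.Injective (fun j : Fin (Nat.card W + 1) => greedy cs q (j.val * n)) := by
    intro i j hij
    rcases lt_trichotomy i j with h | h | h
    · have := hmono i.val j.val h (by omega)
      simp only at hij
      rw [hij] at this
      exact absurd this (lt_irrefl _)
    · exact h
    · have := hmono j.val i.val h (by omega)
      simp only at hij
      rw [hij] at this
      exact absurd this (lt_irrefl _)
  have := Fintype.card_le_of_injective _ hinj
  rw [Fintype.card_fin, ← Nat.card_eq_fintype_card] at this
  omega

end Greedy

section Lists

/-- strictly increasing lists: subset implies sublist -/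
theorem sublist_of_subset_lt {α : Type*} [LinearOrder α] {l₁ l₂ : List α}
    (h1 : l₁.Pairwise (· < ·)) (h2 : l₂.Pairwise (· < ·)) (h : l₁ ⊆ l₂) : l₁.Sublist l₂ := by
  refine List.sublist_of_subperm_of_pairwise (r := (· ≤ ·)) (List.subperm_of_subset ?_ h)
    (h1.imp le_of_lt) (h2.imp le_of_lt)
  exact h1.imp (fun h => ne_of_lt h)

theorem eq_of_mem_iff_lt {α : Type*} [LinearOrder α] {l₁ l₂ : List α}
    (h1 : l₁.Pairwise (· < ·)) (h2 : l₂.Pairwise (· < ·)) (h : ∀ x, x ∈ l₁ ↔ x ∈ l₂) :
    l₁ = l₂ :=
  (sublist_of_subset_lt h1 h2 (fun x hx => (h x).1 hx)).antisymm
    (sublist_of_subset_lt h2 h1 (fun x hx => (h x).2 hx))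

theorem length_filter_finRange {n : ℕ} (J : Finset (Fin n)) :
    ((List.finRange n).filter (fun i => decide (i ∈ J))).length = J.card := by
  have h : ((List.finRange n).filter (fun i => decide (i ∈ J))).Nodup :=
    (List.nodup_finRange n).filter _
  rw [← List.toFinset_card_of_nodup h]
  congr 1
  ext i
  simp

variable {B W : Type*} [Group W] {M : CoxeterMatrix B} (cs : CoxeterSystem M W) {w0 : W}

theorem HasW0.mono {cs : CoxeterSystem M W} {U U' : List B} (h : HasW0 cs w0 U)
    (hU : U.Sublist U') : HasW0 cs w0 U' := by
  obtain ⟨V, h1, h2⟩ := h
  exact ⟨V, h1.trans hU, h2⟩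

theorem face_iff (Q : List B) (I : Finset (Fin Q.length)) :
    (∃ J : Finset (Fin Q.length), Disjoint I J ∧
        cs.wordProd (((List.finRange Q.length).filter (fun i => decide (i ∈ J))).map Q.get) = w0 ∧
        J.card = cs.length w0) ↔
      HasW0 cs w0 (((List.finRange Q.length).filter (fun i => decide (i ∉ I))).map Q.get) := by
  constructor
  · rintro ⟨J, hd, hp, hc⟩
    refine ⟨_, ?_, hp, ?_⟩
    · apply List.Sublist.map
      apply List.monotone_filter_right
      intro i hi
      simp only [decide_eq_true_eq] at hi ⊢
      intro hI
      exact Finset.disjoint_left.1 hd hI hi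
    · rw [List.length_map, length_filter_finRange, hc]
  · rintro ⟨V, hV, hp, hl⟩
    obtain ⟨l', hl', rfl⟩ := List.sublist_map_iff.1 hV
    have hsub : l'.Sublist (List.finRange Q.length) := hl'.trans List.filter_sublist
    have hpw : l'.Pairwise (· < ·) := (List.pairwise_lt_finRange _).sublist hsub
    have heq : (List.finRange Q.length).filter (fun i => decide (i ∈ l'.toFinset)) = l' := by
      apply eq_of_mem_iff_lt ((List.pairwise_lt_finRange _).filter _) hpw
      intro x
      simp
    refine ⟨l'.toFinset, ?_, ?_, ?_⟩
    · rw [Finset.disjoint_right]
      intro i hi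
      rw [List.mem_toFinset] at hi
      have := hl'.subset hi
      simpa using this
    · rw [heq]
      exact hp
    · rw [← length_filter_finRange, heq, ← hl, List.length_map]

end Lists

section Times

variable {B W : Type*} [Group W] {M : CoxeterMatrix B} (cs : CoxeterSystem M W) (q : ℕ → B)

/-- the times of the letters of `c^k w0(c)` -/
noncomputable def times (n N k : ℕ) : List ℕ :=
  List.range (k * n) ++ (usedList cs q N).map (· + k * n)

theorem mem_times {n N k t : ℕ} :
    t ∈ times cs q n N k ↔ t < k * n ∨ ∃ u, u < N ∧ Used cs q u ∧ u + k * n = t := by
  simp [times, mem_usedList, and_assoc]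

theorem times_pairwise (n N k : ℕ) : (times cs q n N k).Pairwise (· < ·) := by
  rw [times, List.pairwise_append]
  refine ⟨List.pairwise_lt_range, ?_, ?_⟩
  · rw [List.pairwise_map]
    exact (usedList_pairwise cs q N).imp (fun h => by omega)
  · intro a ha b hb
    simp only [List.mem_range] at ha
    simp only [List.mem_map] at hb
    obtain ⟨u, _, rfl⟩ := hb
    omega

theorem hasW0_times {w0 : W} {n N : ℕ} (hn : 0 < n) (hN : greedy cs q N = w0)
    (hnest : ∀ t, Used cs q (t + n) → Used cs q t) (hper : ∀ t, q (t + n) = q t) (k : ℕ)
    (I : Finset ℕ) (hI : I.card ≤ k) :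
    HasW0 cs w0 (((times cs q n N k).filter (fun t => decide (t ∉ I))).map q) := by
  classical
  induction k generalizing I with
  | zero =>
    have : I = ∅ := by simpa using hI
    subst this
    refine ⟨_, List.Sublist.refl _, ?_⟩
    have h1 : (times cs q n N 0).filter (fun t => decide (t ∉ (∅ : Finset ℕ)))
        = usedList cs q N := by
      rw [List.filter_eq_self.2 (by simp)]
      simp [times]
    rw [h1, List.length_map, ← hN]
    exact wordProd_usedList cs q N
  | succ k ih =>
    -- the point to avoid
    obtain ⟨x, hx⟩ : ∃ x, I.Nonempty → x ∈ I := by
      by_cases h : I.Nonempty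
      · exact ⟨h.choose, fun _ => h.choose_spec⟩
      · exact ⟨0, fun h' => absurd h' h⟩
    let φ : ℕ → ℕ := fun t => if t < x then t else t + n
    have hφmono : ∀ a b, a < b → φ a < φ b := by
      intro a b hab
      simp only [φ]
      split_ifs <;> omega
    have hφx : ∀ a, φ a ≠ x := by
      intro a
      simp only [φ]
      split_ifs <;> omega
    have hφinj : Function.Injective φ := by
      intro a b hab
      rcases lt_trichotomy a b with h | h | h
      · exact absurd hab (hφmono a b h).ne
      · exact h
      · exact absurd hab (hφmono b a h).ne'
    have hφq : ∀ a, q (φ a) = q a := by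
      intro a
      simp only [φ]
      split_ifs
      · rfl
      · exact hper a
    have hφT : ∀ a ∈ times cs q n N k, φ a ∈ times cs q n N (k + 1) := by
      intro a ha
      rw [mem_times] at ha ⊢
      have hk : (k + 1) * n = k * n + n := by ring
      rw [hk]
      simp only [φ]
      rcases ha with ha | ⟨u, hu1, hu2, hu3⟩
      · left
        split_ifs <;> omega
      · split_ifs with hax
        · by_cases hun : u < n
          · left; omega
          · right
            refine ⟨u - n, by omega, ?_, by omega⟩
            apply hnest
            rwa [Nat.sub_add_cancel (by omega)]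
        · right
          exact ⟨u, hu1, hu2, by omega⟩
    let I' : Finset ℕ := (times cs q n N k).toFinset.filter (fun t => φ t ∈ I)
    have hI' : I'.card ≤ k := by
      by_cases hne : I.Nonempty
      · have h1 : (I'.image φ).card = I'.card := Finset.card_image_of_injective _ hφinj
        have h2 : I'.image φ ⊆ I.erase x := by
          intro y hy
          obtain ⟨a, ha, rfl⟩ := Finset.mem_image.1 hy
          rw [Finset.mem_erase]
          exact ⟨hφx a, (Finset.mem_filter.1 ha).2⟩
        have h3 := Finset.card_le_card h2
        rw [Finset.card_erase_of_mem (hx hne)] at h3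
        have h4 : 0 < I.card := Finset.card_pos.2 hne
        omega
      · have : I = ∅ := Finset.not_nonempty_iff_eq_empty.1 hne
        subst this
        simp [I']
    refine (ih I' hI').mono ?_
    have h1 : ((times cs q n N k).filter (fun t => decide (t ∉ I'))).map q
        = (((times cs q n N k).filter (fun t => decide (t ∉ I'))).map φ).map q := by
      rw [List.map_map]
      apply List.map_congr_left
      intro a _
      exact (hφq a).symm
    rw [h1]
    apply List.Sublist.map
    apply sublist_of_subset_lt
    · rw [List.pairwise_map]
      exact ((times_pairwise cs q n N k).filter _).imp (fun h => hφmono _ _ h)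
    · exact (times_pairwise cs q n N (k + 1)).filter _
    · intro y hy
      obtain ⟨a, ha, rfl⟩ := List.mem_map.1 hy
      rw [List.mem_filter] at ha ⊢
      refine ⟨hφT a ha.1, ?_⟩
      have h2 := ha.2
      simp only [decide_eq_true_eq] at h2 ⊢
      intro h3
      apply h2
      simp only [I', Finset.mem_filter, List.mem_toFinset]
      exact ⟨ha.1, h3⟩

end Times

section Words

variable {B : Type*} (om : List B) (hn : 0 < om.length)

theorem map_per_range : (List.range om.length).map (per om hn) = om := by
  apply List.ext_getElem
  · simp
  · intro i h1 h2
    simp [per_of_lt om hn h2]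

theorem flatten_replicate (m : ℕ) :
    (List.replicate m om).flatten = (List.range (m * om.length)).map (per om hn) := by
  induction m with
  | zero => simp
  | succ m ih =>
    rw [List.replicate_succ', List.flatten_append, ih]
    have h1 : (m + 1) * om.length = m * om.length + om.length := by ring
    rw [h1, List.range_add, List.map_append, List.map_map]
    congr 1
    rw [List.flatten_singleton]
    conv_lhs => rw [← map_per_range om hn]
    apply List.map_congr_left
    intro a _
    simp only [Function.comp]
    rw [Nat.add_comm, per_add_mul]

end Words

section Final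

variable {B W : Type*} [Group W] {M : CoxeterMatrix B} (cs : CoxeterSystem M W) (q : ℕ → B)

/-- the lexicographically first reduced subword for `w0` is the greedy one -/
theorem lex_first {w0 : W} (N : ℕ) (hN : greedy cs q N = w0)
    (P : Finset (Fin ((List.range N).map q).length))
    (hP : cs.wordProd (((List.finRange ((List.range N).map q).length).filter
      (fun i => decide (i ∈ P))).map ((List.range N).map q).get) = w0)
    (hPc : P.card = cs.length w0)
    (hlex : ∀ P' : Finset (Fin ((List.range N).map q).length),
      cs.wordProd (((List.finRange ((List.range N).map q).length).filter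
        (fun i => decide (i ∈ P'))).map ((List.range N).map q).get) = w0 →
        P'.card = cs.length w0 → P' ≠ P →
        ∃ x ∈ P, x ∉ P' ∧ ∀ y, y < x → (y ∈ P ↔ y ∈ P')) :
    ((List.finRange ((List.range N).map q).length).filter
      (fun i => decide (i ∈ P))).map ((List.range N).map q).get = (usedList cs q N).map q := by
  classical
  have hlen : ((List.range N).map q).length = N := by simp
  -- words of subsets in terms of times
  have hword : ∀ J : Finset (Fin ((List.range N).map q).length),
      ((List.finRange ((List.range N).map q).length).filter
        (fun i => decide (i ∈ J))).map ((List.range N).map q).get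
      = (((List.range N).filter (fun t => decide (∃ h : t < ((List.range N).map q).length,
          (⟨t, h⟩ : Fin _) ∈ J))).map q) := by
    intro J
    have h1 : (List.range N).filter (fun t => decide (∃ h : t < ((List.range N).map q).length,
          (⟨t, h⟩ : Fin _) ∈ J))
        = ((List.finRange ((List.range N).map q).length).filter
            (fun i => decide (i ∈ J))).map (fun i => i.val) := by
      apply eq_of_mem_iff_lt
      · exact List.pairwise_lt_range.filter _
      · rw [List.pairwise_map]
        exact ((List.pairwise_lt_finRange _).filter _).imp (fun h => h)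
      · intro t
        simp only [List.mem_filter, List.mem_range, decide_eq_true_eq, List.mem_map,
          List.mem_finRange, true_and]
        constructor
        · rintro ⟨_, h, hJ⟩
          exact ⟨⟨t, h⟩, hJ, rfl⟩
        · rintro ⟨i, hi, rfl⟩
          exact ⟨by have := i.2; omega, i.2, hi⟩
    rw [h1, List.map_map]
    apply List.map_congr_left
    intro i _
    simp
  -- the greedy set
  let G : Finset (Fin ((List.range N).map q).length) :=
    Finset.univ.filter (fun i => Used cs q i.val)
  have hG : (List.range N).filter (fun t => decide (∃ h : t < ((List.range N).map q).length,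
          (⟨t, h⟩ : Fin _) ∈ G)) = usedList cs q N := by
    apply eq_of_mem_iff_lt
    · exact List.pairwise_lt_range.filter _
    · exact usedList_pairwise cs q N
    · intro t
      rw [mem_usedList]
      simp only [List.mem_filter, List.mem_range, decide_eq_true_eq, G, Finset.mem_filter,
        Finset.mem_univ, true_and]
      constructor
      · rintro ⟨h1, _, h3⟩
        exact ⟨h1, h3⟩
      · rintro ⟨h1, h3⟩
        exact ⟨h1, by omega, h3⟩
  have hGP : G = P := by
    by_contra hne
    obtain ⟨x, hxP, hxG, hxy⟩ := hlex G
      (by rw [hword, hG, ← hN]; exact (wordProd_usedList cs q N).1)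
      (by
        rw [← length_filter_finRange, ← hN, ← (wordProd_usedList cs q N).2, ← hG]
        have := congrArg List.length (hword G)
        simpa only [List.length_map] using this) hne
    have hxN : x.val < N := by have := x.2; omega
    -- the prefix of the word of `P` up to `x`
    set p : ℕ → Bool := fun t => decide (∃ h : t < ((List.range N).map q).length,
          (⟨t, h⟩ : Fin _) ∈ P) with hp
    have hred : cs.IsReduced (((List.range N).filter p).map q) := by
      unfold CoxeterSystem.IsReduced
      rw [← hword, hP, List.length_map, length_filter_finRange, hPc]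
    have hpre : ((List.range (x.val + 1)).filter p).map q
        = (((List.range N).filter p).map q).take (((List.range (x.val + 1)).filter p).map q).length := by
      apply List.prefix_iff_eq_take.1
      apply List.IsPrefix.map
      apply List.IsPrefix.filter
      refine ⟨(List.range (N - (x.val + 1))).map (x.val + 1 + ·), ?_⟩
      rw [← List.range_add]
      congr 1
      omega
    have hred' : cs.IsReduced (((List.range (x.val + 1)).filter p).map q) := by
      rw [hpre]
      exact hred.take _
    have hpx : p x.val = true := by
      simp only [hp, decide_eq_true_eq]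
      exact ⟨x.2, hxP⟩
    have hpu : (List.range x.val).filter p = usedList cs q x.val := by
      unfold usedList
      apply List.filter_congr
      intro t ht
      rw [List.mem_range] at ht
      simp only [hp]
      congr 1
      apply propext
      constructor
      · rintro ⟨h, hJ⟩
        have := (hxy ⟨t, h⟩ ht).1 hJ
        simpa [G] using this
      · intro h
        have htl : t < ((List.range N).map q).length := by omega
        exact ⟨htl, (hxy ⟨t, htl⟩ ht).2 (by simpa [G] using h)⟩
    rw [List.range_succ, List.filter_append, hpu, List.filter_cons_of_pos hpx,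
      List.filter_nil, List.map_append] at hred'
    unfold CoxeterSystem.IsReduced at hred'
    rw [cs.wordProd_append, (wordProd_usedList cs q x.val).1, List.length_append] at hred'
    have hl1 : ((usedList cs q x.val).map q).length = cs.length (greedy cs q x.val) :=
      (List.length_map _).trans (wordProd_usedList cs q x.val).2
    rw [hl1] at hred'
    simp only [List.map_cons, List.map_nil, CoxeterSystem.wordProd_singleton,
      List.length_singleton] at hred'
    apply hxG
    simp only [G, Finset.mem_filter, Finset.mem_univ, true_and]
    unfold Used
    omega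
  rw [← hGP, hword, hG]

end Final

/-- PIECE B: the combinatorial reduction. -/
theorem reduction (B W : Type*) [Group W] [Finite W] (M : CoxeterMatrix B)
    (cs : CoxeterSystem M W) (om : List B) (hnd : om.Nodup) (hall : ∀ b, b ∈ om)
    (hn : 0 < om.length) (w0 : W) (h0 : ∀ w, cs.length w ≤ cs.length w0)
    (hasc : ∀ w, w ≠ w0 → ∃ i, ¬ cs.IsRightDescent w i)
    (hnest : ∀ t, Used cs (per om hn) (t + om.length) → Used cs (per om hn) t)
    (hkey : ∀ U, ¬ HasW0 cs w0 U → ∃ R : List B, R ≠ [] ∧ ¬ R.Sublist U ∧
      (∀ V, HasW0 cs w0 V → R.Sublist V) ∧
      ∀ t, Used cs (per om hn) t → R.getLast? = some (per om hn t) → t < fin (per om hn) R 0) :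
    ∀ (k : ℕ), 1 ≤ k →
    ∀ (s : List B), s = (List.replicate (Nat.card W) om).flatten →
    ∀ (P : Finset (Fin s.length)),
      cs.wordProd (((List.finRange s.length).filter (fun i => decide (i ∈ P))).map s.get) = w0 →
      P.card = cs.length w0 →
      (∀ P' : Finset (Fin s.length),
        cs.wordProd (((List.finRange s.length).filter (fun i => decide (i ∈ P'))).map s.get) = w0 →
        P'.card = cs.length w0 → P' ≠ P →
        ∃ x ∈ P, x ∉ P' ∧ ∀ y, y < x → (y ∈ P ↔ y ∈ P')) →
    ∀ (Q : List B),
      Q = (List.replicate k om).flatten
            ++ ((List.finRange s.length).filter (fun i => decide (i ∈ P))).map s.get →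
    ∀ I : Finset (Fin Q.length),
      (¬ ∃ J : Finset (Fin Q.length), Disjoint I J ∧
          cs.wordProd (((List.finRange Q.length).filter (fun i => decide (i ∈ J))).map Q.get) = w0 ∧
          J.card = cs.length w0) →
      (∀ x ∈ I, ∃ J : Finset (Fin Q.length), Disjoint (I.erase x) J ∧
          cs.wordProd (((List.finRange Q.length).filter (fun i => decide (i ∈ J))).map Q.get) = w0 ∧
          J.card = cs.length w0) →
      I.card = k + 1 := by
  classical
  intro k _ s hs P hP hPc hlex Q hQ I hI hmin
  have hs' := hs.trans (flatten_replicate om hn (Nat.card W))
  clear hs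
  subst hs'
  have hN : greedy cs (per om hn) (Nat.card W * om.length) = w0 :=
    greedy_reaches cs (per om hn) hasc h0 om.length (fun s b => exists_per hall s b)
  rw [lex_first cs (per om hn) _ hN P hP hPc hlex, flatten_replicate om hn k] at hQ
  set q := per om hn with hq
  set N := Nat.card W * om.length with hNdef
  have hQ' : Q = (times cs q om.length N k).map q := by
    rw [hQ, times, List.map_append]
    congr 1
    rw [List.map_map]
    apply List.map_congr_left
    intro a _
    simp only [Function.comp, hq]
    rw [per_add_mul]
  clear hQ hlex hP hPc P
  subst hQ'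
  -- times of positions
  have hlen : ((times cs q om.length N k).map q).length = (times cs q om.length N k).length := by
    simp
  let τ : Fin ((times cs q om.length N k).map q).length → ℕ :=
    fun j => (times cs q om.length N k)[j.val]'(by have := j.2; omega)
  have hτinj : Function.Injective τ := by
    intro a b hab
    have hnd' : (times cs q om.length N k).Nodup :=
      (times_pairwise cs q om.length N k).imp (fun h => ne_of_lt h)
    exact Fin.ext ((List.Nodup.getElem_inj_iff hnd').1 hab)
  have hτT : (List.finRange ((times cs q om.length N k).map q).length).map τ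
      = times cs q om.length N k := by
    apply List.ext_getElem
    · simp
    · intro i h1 h2
      simp [τ]
  have hword : ∀ (I' : Finset (Fin ((times cs q om.length N k).map q).length)) (D : Finset ℕ),
      (∀ j, τ j ∈ D ↔ j ∈ I') →
      ((List.finRange ((times cs q om.length N k).map q).length).filter
        (fun i => decide (i ∉ I'))).map ((times cs q om.length N k).map q).get
      = ((times cs q om.length N k).filter (fun t => decide (t ∉ D))).map q := by
    intro I' D hD
    conv_rhs => rw [← hτT]
    rw [List.filter_map, List.map_map]
    have h1 : (List.finRange ((times cs q om.length N k).map q).length).filter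
        (fun i => decide (i ∉ I'))
        = (List.finRange ((times cs q om.length N k).map q).length).filter
          ((fun t => decide (t ∉ D)) ∘ τ) := by
      apply List.filter_congr
      intro j _
      simp only [Function.comp]
      rw [decide_eq_decide, hD]
    rw [h1]
    apply List.map_congr_left
    intro j _
    simp [τ]
  have hmemI : ∀ (I' : Finset (Fin ((times cs q om.length N k).map q).length)) (j),
      τ j ∈ I'.image τ ↔ j ∈ I' := by
    intro I' j
    rw [Finset.mem_image]
    constructor
    · rintro ⟨a, ha, hab⟩
      rwa [← hτinj hab]
    · intro h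
      exact ⟨j, h, rfl⟩
  rw [face_iff] at hI
  -- lower bound
  have hlow : k + 1 ≤ I.card := by
    by_contra hcon
    apply hI
    rw [hword I (I.image τ) (hmemI I)]
    apply hasW0_times cs q hn hN hnest (per_add om hn) k
    exact Finset.card_image_le.trans (by omega)
  -- upper bound
  obtain ⟨R, hR, hR1, hR2, hR3⟩ := hkey _ hI
  rw [hword I (I.image τ) (hmemI I)] at hR1
  have hTH : HasW0 cs w0 ((usedList cs q N).map q) := by
    refine ⟨_, List.Sublist.refl _, ?_⟩
    rw [List.length_map, ← hN]
    exact wordProd_usedList cs q N
  obtain ⟨D, hD1, hD2, hD3, hD4⟩ := exists_block hall hnd (I.image τ) (times cs q om.length N k)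
    (times_pairwise cs q om.length N k) R hR 0 k (fun x _ => Nat.zero_le x) hR1 (by
      intro x hx hlast
      -- the last letter of `R` is a used letter
      obtain ⟨y, hy1, hy2, _⟩ := exists_last hall R hR (usedList cs q N) 0
        (usedList_pairwise cs q N) (fun x _ => Nat.zero_le x) (hR2 _ hTH)
      rw [mem_usedList] at hy1
      rw [mem_times] at hx
      rcases hx with hx | ⟨u, hu1, hu2, rfl⟩
      · have h1 : y < fin q R 0 := hR3 y hy1.2 hy2
        change x < fin q R 0 + k * om.length
        omega
      · have h2 : R.getLast? = some (q u) := by
          rw [hlast, hq, per_add_mul]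
        have h1 : u < fin q R 0 := hR3 u hu2 h2
        change u + k * om.length < fin q R 0 + k * om.length
        omega)
  have hIle : I.card ≤ k + 1 := by
    let I' : Finset (Fin ((times cs q om.length N k).map q).length) := I.filter (fun j => τ j ∈ D)
    have hI'mem : ∀ j, τ j ∈ D ↔ j ∈ I' := by
      intro j
      simp only [I', Finset.mem_filter]
      constructor
      · intro h
        exact ⟨(hmemI I j).1 (hD1 h), h⟩
      · exact fun h => h.2
    have hI'card : I'.card ≤ k + 1 := by
      have h1 : (I'.image τ).card = I'.card := Finset.card_image_of_injective _ hτinj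
      rw [← h1]
      refine (Finset.card_le_card ?_).trans hD3
      intro t ht
      obtain ⟨j, hj, rfl⟩ := Finset.mem_image.1 ht
      exact (hI'mem j).2 hj
    by_cases hII : I' = I
    · rw [← hII]; exact hI'card
    · exfalso
      have hss : I' ⊆ I := Finset.filter_subset _ _
      obtain ⟨x, hxI, hxI'⟩ : ∃ x ∈ I, x ∉ I' := by
        by_contra hcon
        push Not at hcon
        exact hII (Finset.Subset.antisymm hss hcon)
      have hface := (face_iff cs _ _).1 (hmin x hxI)
      have hface' : HasW0 cs w0 (((List.finRange ((times cs q om.length N k).map q).length).filter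
        (fun i => decide (i ∉ I'))).map ((times cs q om.length N k).map q).get) := by
        refine hface.mono ?_
        apply List.Sublist.map
        apply List.monotone_filter_right
        intro i hi
        simp only [decide_eq_true_eq, Finset.mem_erase, not_and] at hi ⊢
        intro hiI'
        exact hi (fun h => hxI' (h ▸ hiI')) (hss hiI')
      rw [hword I' D hI'mem] at hface'
      exact hD4 (hR2 _ hface')
  omega

end Helper66.MC
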