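import Pool.Agent.Helper66.MC.Assembly
import Pool.Agent.Helper66.MC.Reduction

/-!
Multi-cluster complexes: the structure of all non-faces, for words indexed by times.
-/

set_option autoImplicit false

namespace Helper66.MC

variable {B W : Type*} [Group W] [Finite W] {M : CoxeterMatrix B} (cs : CoxeterSystem M W)

/-- Every non-face has more than `k` elements and contains a non-face with at most `k + 1` elements. -/
theorem nonface_core (om : List B) (hnd : om.Nodup) (hall : ∀ b, b ∈ om)
    (hn : 0 < om.length) (w0 : W)
    (hnest : ∀ t, Used cs (per om hn) (t + om.length) → Used cs (per om hn) t)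
    (hkey : ∀ U, ¬ HasW0 cs w0 U → ∃ R : List B, R ≠ [] ∧ ¬ R.Sublist U ∧
      (∀ V, HasW0 cs w0 V → R.Sublist V) ∧
      ∀ t, Used cs (per om hn) t → R.getLast? = some (per om hn t) → t < fin (per om hn) R 0)
    (N : ℕ) (hN : greedy cs (per om hn) N = w0) (k : ℕ) (Q : List B)
    (hQ : Q = (times cs (per om hn) om.length N k).map (per om hn))
    (I : Finset (Fin Q.length))
    (hI : ¬ HasW0 cs w0 (((List.finRange Q.length).filter (fun i => decide (i ∉ I))).map Q.get)) :
    k + 1 ≤ I.card ∧ ∃ I' : Finset (Fin Q.length), I' ⊆ I ∧ I'.card ≤ k + 1 ∧
      ¬ HasW0 cs w0 (((List.finRange Q.length).filter (fun i => decide (i ∉ I'))).map Q.get) := by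
  classical
  set q := per om hn with hq
  subst hQ
  -- times of positions
  have hlen : ((times cs q om.length N k).map q).length = (times cs q om.length N k).length := by
    simp
  let τ : Fin ((times cs q om.length N k).map q).length → ℕ :=
    fun j => (times cs q om.length N k)[j.val]'(by have := j.2; omega)
  have hτinj : Function.Injective τ := by
    intro a b hab
    have hnd' : (times cs q om.length N k).Nodup :=
      (times_pairwise cs q om.length N k).imp (fun h => ne_of_lt h)
    exact Fin.ext ((List.Nodup.getElem_inj_iff hnd').1 hab)
  have hτT : (List.finRange ((times cs q om.length N k).map q).length).map τ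
      = times cs q om.length N k := by
    apply List.ext_getElem
    · simp
    · intro i h1 h2
      simp [τ]
  have hword : ∀ (I' : Finset (Fin ((times cs q om.length N k).map q).length)) (D : Finset ℕ),
      (∀ j, τ j ∈ D ↔ j ∈ I') →
      ((List.finRange ((times cs q om.length N k).map q).length).filter
        (fun i => decide (i ∉ I'))).map ((times cs q om.length N k).map q).get
      = ((times cs q om.length N k).filter (fun t => decide (t ∉ D))).map q := by
    intro I' D hD
    conv_rhs => rw [← hτT]
    rw [List.filter_map, List.map_map]
    have h1 : (List.finRange ((times cs q om.length N k).map q).length).filter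
        (fun i => decide (i ∉ I'))
        = (List.finRange ((times cs q om.length N k).map q).length).filter
          ((fun t => decide (t ∉ D)) ∘ τ) := by
      apply List.filter_congr
      intro j _
      simp only [Function.comp]
      rw [decide_eq_decide, hD]
    rw [h1]
    apply List.map_congr_left
    intro j _
    simp [τ]
  have hmemI : ∀ (I' : Finset (Fin ((times cs q om.length N k).map q).length)) (j),
      τ j ∈ I'.image τ ↔ j ∈ I' := by
    intro I' j
    rw [Finset.mem_image]
    constructor
    · rintro ⟨a, ha, hab⟩
      rwa [← hτinj hab]
    · intro h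
      exact ⟨j, h, rfl⟩
  -- lower bound
  have hlow : k + 1 ≤ I.card := by
    by_contra hcon
    apply hI
    rw [hword I (I.image τ) (hmemI I)]
    apply hasW0_times cs q hn hN hnest (per_add om hn) k
    exact Finset.card_image_le.trans (by omega)
  -- upper bound
  obtain ⟨R, hR, hR1, hR2, hR3⟩ := hkey _ hI
  rw [hword I (I.image τ) (hmemI I)] at hR1
  have hTH : HasW0 cs w0 ((usedList cs q N).map q) := by
    refine ⟨_, List.Sublist.refl _, ?_⟩
    rw [List.length_map, ← hN]
    exact wordProd_usedList cs q N
  obtain ⟨D, hD1, hD2, hD3, hD4⟩ := exists_block hall hnd (I.image τ) (times cs q om.length N k)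
    (times_pairwise cs q om.length N k) R hR 0 k (fun x _ => Nat.zero_le x) hR1 (by
      intro x hx hlast
      -- the last letter of `R` is a used letter
      obtain ⟨y, hy1, hy2, _⟩ := exists_last hall R hR (usedList cs q N) 0
        (usedList_pairwise cs q N) (fun x _ => Nat.zero_le x) (hR2 _ hTH)
      rw [mem_usedList] at hy1
      rw [mem_times] at hx
      rcases hx with hx | ⟨u, hu1, hu2, rfl⟩
      · have h1 : y < fin q R 0 := hR3 y hy1.2 hy2
        change x < fin q R 0 + k * om.length
        omega
      · have h2 : R.getLast? = some (q u) := by
          rw [hlast, hq, per_add_mul]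
        have h1 : u < fin q R 0 := hR3 u hu2 h2
        change u + k * om.length < fin q R 0 + k * om.length
        omega)
  refine ⟨hlow, I.filter (fun j => τ j ∈ D), Finset.filter_subset _ _, ?_, ?_⟩
  all_goals
    set I' : Finset (Fin ((times cs q om.length N k).map q).length) :=
      I.filter (fun j => τ j ∈ D) with hI'def
    have hI'mem : ∀ j, τ j ∈ D ↔ j ∈ I' := by
      intro j
      simp only [I', Finset.mem_filter]
      constructor
      · intro h
        exact ⟨(hmemI I j).1 (hD1 h), h⟩
      · exact fun h => h.2
  · have h1 : (I'.image τ).card = I'.card := Finset.card_image_of_injective _ hτinj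
    rw [← h1]
    refine (Finset.card_le_card ?_).trans hD3
    intro t ht
    obtain ⟨j, hj, rfl⟩ := Finset.mem_image.1 ht
    exact (hI'mem j).2 hj
  · intro hface'
    rw [hword I' D hI'mem] at hface'
    exact hD4 (hR2 _ hface')

end Helper66.MC
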