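import Mathlib

/-!
The mesh module (preprojective algebra over `ZMod 2` of the unfolded graph), words of steps,
the mesh submodule and its exactness.
-/

set_option autoImplicit false

namespace Helper66.MC

open Finsupp

abbrev Step (B : Type*) := B × Bool
abbrev St (B : Type*) := B × (Sym2 B → ℤ)
abbrev FM (B : Type*) := List (Step B) →₀ ZMod 2

def sgn (e : Bool) : ℤ := if e then 1 else -1

theorem sgn_not (e : Bool) : sgn (!e) = - sgn e := by
  cases e <;> simp [sgn]

section proj

variable {α : Type*}

open Classical in
/-- projection onto the words satisfying `p` -/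
noncomputable def pr (p : α → Prop) : (α →₀ ZMod 2) →ₗ[ZMod 2] (α →₀ ZMod 2) where
  toFun f := f.filter p
  map_add' _ _ := filter_add
  map_smul' _ _ := filter_smul

theorem pr_apply (p : α → Prop) (f : α →₀ ZMod 2) (w : α) [Decidable (p w)] :
    pr p f w = if p w then f w else 0 := by
  classical
  simp only [pr, LinearMap.coe_mk, AddHom.coe_mk, filter_apply]
  split_ifs <;> rfl

theorem pr_single_pos {p : α → Prop} {w : α} (h : p w) (c : ZMod 2) :
    pr p (single w c) = single w c := by
  classical
  simp only [pr, LinearMap.coe_mk, AddHom.coe_mk]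
  exact filter_single_of_pos _ h

theorem pr_single_neg {p : α → Prop} {w : α} (h : ¬ p w) (c : ZMod 2) :
    pr p (single w c) = 0 := by
  classical
  simp only [pr, LinearMap.coe_mk, AddHom.coe_mk]
  exact filter_single_of_neg _ h

/-- supported on `p` -/
def On (p : α → Prop) (f : α →₀ ZMod 2) : Prop := ∀ w, f w ≠ 0 → p w

theorem pr_eq_self_iff {p : α → Prop} {f : α →₀ ZMod 2} : pr p f = f ↔ On p f := by
  classical
  constructor
  · intro h w hw
    by_contra hp
    rw [← h, pr_apply, if_neg hp] at hw
    exact hw rfl
  · intro h
    ext w
    rw [pr_apply]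
    split_ifs with hp
    · rfl
    · by_contra hne
      exact hp (h w (fun h0 => hne h0.symm))

theorem On.pr_eq {p : α → Prop} {f : α →₀ ZMod 2} (h : On p f) : pr p f = f :=
  pr_eq_self_iff.2 h

theorem On_pr (p : α → Prop) (f : α →₀ ZMod 2) : On p (pr p f) := by
  classical
  intro w hw
  by_contra h
  rw [pr_apply, if_neg h] at hw
  exact hw rfl

theorem On.mono {p q : α → Prop} (h : ∀ w, p w → q w) {f : α →₀ ZMod 2} (hf : On p f) : On q f :=
  fun w hw => h w (hf w hw)

theorem On.pr_eq_zero {p q : α → Prop} {f : α →₀ ZMod 2} (hf : On p f) (h : ∀ w, p w → ¬ q w) :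
    pr q f = 0 := by
  classical
  ext w
  rw [pr_apply]
  split_ifs with hq
  · by_contra hne
    exact h w (hf w hne) hq
  · rfl

theorem On_single {p : α → Prop} {w : α} (h : p w) (c : ZMod 2) : On p (single w c) := by
  classical
  intro w' hw'
  rw [single_apply] at hw'
  split_ifs at hw' with e
  · rw [← e]; exact h
  · exact absurd rfl hw'

theorem On_zero (p : α → Prop) : On p (0 : α →₀ ZMod 2) := fun w hw => absurd rfl hw

theorem On.add {p : α → Prop} {f g : α →₀ ZMod 2} (hf : On p f) (hg : On p g) : On p (f + g) := by
  rw [← pr_eq_self_iff] at *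
  rw [map_add, hf, hg]

theorem On.sub {p : α → Prop} {f g : α →₀ ZMod 2} (hf : On p f) (hg : On p g) : On p (f - g) := by
  rw [← pr_eq_self_iff] at *
  rw [map_sub, hf, hg]

theorem On.smul {p : α → Prop} {f : α →₀ ZMod 2} (c : ZMod 2) (hf : On p f) : On p (c • f) := by
  rw [← pr_eq_self_iff] at *
  rw [map_smul, hf]

theorem pr_pr (p q : α → Prop) (f : α →₀ ZMod 2) : pr p (pr q f) = pr (fun w => p w ∧ q w) f := by
  classical
  ext w
  simp only [pr_apply]
  by_cases h1 : p w <;> by_cases h2 : q w <;> simp [h1, h2]

theorem pr_add_pr_not (p : α → Prop) (f : α →₀ ZMod 2) : pr p f + pr (fun w => ¬ p w) f = f := by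
  classical
  ext w
  rw [Finsupp.add_apply, pr_apply, pr_apply]
  by_cases hp : p w <;> simp [hp]

/-- a predicate on vectors that holds on homogeneous pieces and is additive holds everywhere -/
theorem hom_induction {β : Type*} (g : α → β) {Q : (α →₀ ZMod 2) → Prop} (h0 : Q 0)
    (hadd : ∀ f f', Q f → Q f' → Q (f + f')) (f : α →₀ ZMod 2)
    (hh : ∀ b, Q (pr (fun w => g w = b) f)) : Q f := by
  classical
  have key : ∀ (s : Finset β), Q (pr (fun w => g w ∈ s) f) := by
    intro s
    induction s using Finset.induction_on with
    | empty =>
      have : pr (fun w => g w ∈ (∅ : Finset β)) f = 0 := by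
        ext w; rw [pr_apply]; simp
      rw [this]; exact h0
    | insert b s hb ih =>
      have : pr (fun w => g w ∈ insert b s) f
          = pr (fun w => g w = b) f + pr (fun w => g w ∈ s) f := by
        ext w
        rw [Finsupp.add_apply, pr_apply, pr_apply, pr_apply]
        by_cases h1 : g w = b
        · have : ¬ (g w ∈ s) := by rw [h1]; exact hb
          simp [h1, hb]
        · simp [h1]
      rw [this]
      exact hadd _ _ (hh b) ih
  have : pr (fun w => g w ∈ f.support.image g) f = f := by
    rw [pr_eq_self_iff]
    intro w hw
    exact Finset.mem_image_of_mem g (Finsupp.mem_support_iff.2 hw)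
  rw [← this]
  exact key _

end proj

section mesh

variable {B : Type*}

/-- append a step (words are stored with the last step first) -/
noncomputable def S (s : Step B) : FM B →ₗ[ZMod 2] FM B := lmapDomain (ZMod 2) (ZMod 2) (List.cons s)

@[simp] theorem S_single (s : Step B) (w : List (Step B)) (c : ZMod 2) :
    S s (single w c) = single (s :: w) c := by
  simp [S]

/-- remove the last step `s` -/
noncomputable def rem (s : Step B) : FM B →ₗ[ZMod 2] FM B :=
  lcomapDomain (List.cons s) (List.cons_injective)

theorem rem_apply (s : Step B) (f : FM B) (w : List (Step B)) : rem s f w = f (s :: w) := by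
  simp [rem, lcomapDomain]

@[simp] theorem rem_S_same (s : Step B) (f : FM B) : rem s (S s f) = f := by
  ext w
  rw [rem_apply, S, lmapDomain_apply, mapDomain_apply (List.cons_injective)]

theorem rem_S_ne {s s' : Step B} (h : s ≠ s') (f : FM B) : rem s (S s' f) = 0 := by
  ext w
  rw [rem_apply, S, lmapDomain_apply, mapDomain_of_notMem_range]
  · rfl
  · rintro ⟨w', hw'⟩
    exact h (List.cons.inj hw').1.symm

@[simp] theorem rem_nil (s : Step B) (c : ZMod 2) : rem s (single [] c) = 0 := by
  ext w
  rw [rem_apply, single_eq_of_ne (by simp)]
  rfl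

theorem pr_S (p : List (Step B) → Prop) (s : Step B) (f : FM B) :
    pr p (S s f) = S s (pr (fun w => p (s :: w)) f) := by
  classical
  induction f using Finsupp.induction_linear with
  | zero => simp
  | add f g hf hg => simp only [map_add, hf, hg]
  | single w c =>
    rw [S_single]
    by_cases h : p (s :: w)
    · rw [pr_single_pos h, pr_single_pos (p := fun w => p (s :: w)) h, S_single]
    · rw [pr_single_neg h, pr_single_neg (p := fun w => p (s :: w)) h, map_zero]

theorem On_S {p : List (Step B) → Prop} {s : Step B} {f : FM B}
    (h : On (fun w => p (s :: w)) f) : On p (S s f) := by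
  rw [← pr_eq_self_iff, pr_S, h.pr_eq]

theorem pr_rem (p : List (Step B) → Prop) (s : Step B) (f : FM B) :
    pr p (rem s f) = rem s (pr (fun w => p w.tail) f) := by
  classical
  ext w
  rw [pr_apply, rem_apply, rem_apply, pr_apply]
  rfl

variable [DecidableEq B] (M : CoxeterMatrix B)

/-- the state after one step -/
def move (v : St B) (s : Step B) : St B :=
  (s.1, Function.update v.2 s(v.1, s.1) (v.2 s(v.1, s.1) + sgn s.2))

theorem move_move (v : St B) (s : Step B) : move (move v s) (v.1, !s.2) = v := by
  obtain ⟨i, a⟩ := v
  obtain ⟨j, e⟩ := s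
  simp only [move, Prod.mk.injEq, true_and]
  rw [Sym2.eq_swap]
  simp [sgn_not]

theorem move_inj {v v' : St B} {s : Step B} (h1 : v.1 = v'.1) (h : move v s = move v' s) :
    v = v' := by
  have e1 := move_move v s
  have e2 := move_move v' s
  rw [h, h1] at e1
  rw [← e1, e2]

/-- labels in range -/
def InRange (v : St B) : Prop := ∀ i j : B, i ≠ j → 1 ≤ v.2 s(i, j) ∧ v.2 s(i, j) + 1 ≤ M i j

variable (v0 : St B)

/-- end state of a word -/
def en : List (Step B) → St B
  | [] => v0
  | s :: w => move (en w) s

/-- valid words (paths) -/
def Valid : List (Step B) → Prop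
  | [] => InRange M v0
  | s :: w => Valid w ∧ s.1 ≠ (en v0 w).1 ∧ InRange M (en v0 (s :: w))

@[simp] theorem en_nil : en v0 ([] : List (Step B)) = v0 := rfl
@[simp] theorem en_cons (s : Step B) (w : List (Step B)) : en v0 (s :: w) = move (en v0 w) s := rfl

theorem Valid.inRange {w : List (Step B)} (h : Valid M v0 w) : InRange M (en v0 w) := by
  cases w with
  | nil => exact h
  | cons s w => exact h.2.2

variable [Fintype B]

/-- the mesh at the end of the word `w` as a linear map (for end type `i`) -/
noncomputable def meshMap (i : B) : FM B →ₗ[ZMod 2] FM B :=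
  ∑ j ∈ Finset.univ.erase i, ∑ e : Bool, S (i, !e) ∘ₗ S (j, e)

theorem meshMap_apply (i : B) (f : FM B) :
    meshMap i f = ∑ j ∈ Finset.univ.erase i, ∑ e : Bool, S (i, !e) (S (j, e) f) := by
  simp [meshMap, LinearMap.sum_apply]

/-- iterated appending -/
noncomputable def app (u : List (Step B)) : FM B →ₗ[ZMod 2] FM B :=
  u.foldr (fun s g => S s ∘ₗ g) LinearMap.id

@[simp] theorem app_nil (f : FM B) : app ([] : List (Step B)) f = f := rfl
@[simp] theorem app_cons (s : Step B) (u : List (Step B)) (f : FM B) :
    app (s :: u) f = S s (app u f) := rfl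

/-- generators of the mesh submodule -/
inductive Gen : FM B → Prop
  | inv (w : List (Step B)) (h : ¬ Valid M v0 w) : Gen (single w 1)
  | mesh (u w : List (Step B)) : Gen (app u (meshMap (en v0 w).1 (single w 1)))

/-- the mesh submodule -/
noncomputable def K : Submodule (ZMod 2) (FM B) := Submodule.span (ZMod 2) {f | Gen M v0 f}

theorem single_mem_K {w : List (Step B)} (h : ¬ Valid M v0 w) (c : ZMod 2) :
    single w c ∈ K M v0 := by
  have : single w c = c • (single w 1 : FM B) := by simp
  rw [this]
  exact Submodule.smul_mem _ _ (Submodule.subset_span (Gen.inv w h))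

theorem S_mem_K (s : Step B) {f : FM B} (hf : f ∈ K M v0) : S s f ∈ K M v0 := by
  induction hf using Submodule.span_induction with
  | mem f hf =>
    cases hf with
    | inv w h =>
      rw [S_single]
      exact single_mem_K M v0 (w := s :: w) (fun h' => h h'.1) 1
    | mesh u w => exact Submodule.subset_span (Gen.mesh (s :: u) w)
  | zero => rw [map_zero]; exact Submodule.zero_mem _
  | add f g _ _ hf hg => rw [map_add]; exact Submodule.add_mem _ hf hg
  | smul c f _ hf => rw [map_smul]; exact Submodule.smul_mem _ _ hf

/-- everything supported on invalid words is in `K` -/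
theorem mem_K_of_On {f : FM B} (h : On (fun w => ¬ Valid M v0 w) f) : f ∈ K M v0 := by
  classical
  rw [← f.sum_single]
  refine Submodule.sum_mem _ (fun w hw => ?_)
  exact single_mem_K M v0 (h w (Finsupp.mem_support_iff.1 hw)) _

theorem mesh_mem_K {i : B} {f : FM B} (h : On (fun w => (en v0 w).1 = i) f) :
    meshMap i f ∈ K M v0 := by
  classical
  rw [← f.sum_single, Finsupp.sum, map_sum]
  refine Submodule.sum_mem _ (fun w hw => ?_)
  have hw' := h w (Finsupp.mem_support_iff.1 hw)
  have : single w (f w) = f w • (single w 1 : FM B) := by simp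
  rw [this, map_smul]
  refine Submodule.smul_mem _ _ (Submodule.subset_span ?_)
  have := Gen.mesh (M := M) (v0 := v0) [] w
  rw [hw'] at this
  exact this

/-- admissible statistics -/
structure Adm {β : Type*} (g : List (Step B) → β) : Prop where
  cons : ∀ s w w', g w = g w' → g (s :: w) = g (s :: w')
  mesh : ∀ w j e j' e', j ≠ (en v0 w).1 → j' ≠ (en v0 w).1 →
    g (((en v0 w).1, !e) :: (j, e) :: w) = g (((en v0 w).1, !e') :: (j', e') :: w)

theorem K_graded {β : Type*} {g : List (Step B) → β} (hg : Adm v0 g) (p : β → Prop) {f : FM B}
    (hf : f ∈ K M v0) : pr (fun w => p (g w)) f ∈ K M v0 := by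
  classical
  induction hf using Submodule.span_induction with
  | mem f hf =>
    cases hf with
    | inv w h =>
      by_cases hp : p (g w)
      · rw [pr_single_pos (p := fun w => p (g w)) hp]; exact single_mem_K M v0 h 1
      · rw [pr_single_neg (p := fun w => p (g w)) hp]; exact Submodule.zero_mem _
    | mesh u w =>
      -- all words in the support have the same statistic
      have key : ∀ u : List (Step B), ∀ j e j' e', j ≠ (en v0 w).1 → j' ≠ (en v0 w).1 →
          g (u ++ ((en v0 w).1, !e) :: (j, e) :: w) = g (u ++ ((en v0 w).1, !e') :: (j', e') :: w) := by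
        intro u
        induction u with
        | nil => intro j e j' e' h h'; exact hg.mesh w j e j' e' h h'
        | cons s u ih => intro j e j' e' h h'; exact hg.cons _ _ _ (ih j e j' e' h h')
      have happ : ∀ u l : List (Step B), app u (single l 1 : FM B) = single (u ++ l) 1 := by
        intro u l
        induction u with
        | nil => rfl
        | cons s u ih => rw [app_cons, ih, S_single]; rfl
      have hval : app u (meshMap (en v0 w).1 (single w 1)) =
          ∑ j ∈ Finset.univ.erase (en v0 w).1, ∑ e : Bool,
            single (u ++ ((en v0 w).1, !e) :: (j, e) :: w) 1 := by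
        rw [meshMap_apply, map_sum]
        refine Finset.sum_congr rfl (fun j _ => ?_)
        rw [map_sum]
        refine Finset.sum_congr rfl (fun e _ => ?_)
        rw [S_single, S_single, happ]
      by_cases hne : ∃ j e, j ≠ (en v0 w).1 ∧ p (g (u ++ ((en v0 w).1, !e) :: (j, e) :: w))
      · obtain ⟨j0, e0, hj0, hp⟩ := hne
        have : pr (fun w => p (g w)) (app u (meshMap (en v0 w).1 (single w 1)))
            = app u (meshMap (en v0 w).1 (single w 1)) := by
          rw [hval, map_sum]
          refine Finset.sum_congr rfl (fun j hj => ?_)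
          rw [map_sum]
          refine Finset.sum_congr rfl (fun e _ => ?_)
          rw [pr_single_pos]
          rw [key u j e j0 e0 (Finset.ne_of_mem_erase hj) hj0]
          exact hp
        rw [this]
        exact Submodule.subset_span (Gen.mesh u w)
      · push Not at hne
        have : pr (fun w => p (g w)) (app u (meshMap (en v0 w).1 (single w 1))) = 0 := by
          rw [hval, map_sum]
          refine Finset.sum_eq_zero (fun j hj => ?_)
          rw [map_sum]
          refine Finset.sum_eq_zero (fun e _ => ?_)
          rw [pr_single_neg]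
          exact hne j e (Finset.ne_of_mem_erase hj)
        rw [this]
        exact Submodule.zero_mem _
  | zero => rw [map_zero]; exact Submodule.zero_mem _
  | add f g _ _ hf hg => rw [map_add]; exact Submodule.add_mem _ hf hg
  | smul c f _ hf => rw [map_smul]; exact Submodule.smul_mem _ _ hf

theorem adm_en : Adm v0 (en v0) where
  cons s w w' h := by rw [en_cons, en_cons, h]
  mesh w j e j' e' _ _ := by
    simp only [en_cons]
    rw [move_move (en v0 w) (j, e), move_move (en v0 w) (j', e')]

theorem adm_length : Adm v0 (List.length) where
  cons s w w' h := by simp [h]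
  mesh w j e j' e' _ _ := by simp

/-- exactness of the mesh submodule at an in-range state -/
theorem K_exact_aux {f : FM B} (hf : f ∈ K M v0) (v : St B) (hv : InRange M v) :
    ∃ h : FM B, On (fun w => en v0 w = v) h ∧ ∀ (o : B) (e : Bool), o ≠ v.1 →
      pr (fun w => en v0 w = move v (o, e)) (rem (v.1, !e) f) - S (o, e) h ∈ K M v0 := by
  classical
  induction hf using Submodule.span_induction with
  | mem f hf =>
    cases hf with
    | inv w h =>
      refine ⟨0, On_zero _, fun o e ho => ?_⟩
      rw [map_zero, sub_zero]
      cases w with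
      | nil => rw [rem_nil, map_zero]; exact Submodule.zero_mem _
      | cons s w =>
        rw [← S_single]
        by_cases hs : (v.1, !e) = s
        · subst hs
          rw [rem_S_same]
          by_cases hw : en v0 w = move v (o, e)
          · rw [pr_single_pos (p := fun w => en v0 w = move v (o, e)) hw]
            apply single_mem_K
            intro hval
            apply h
            refine ⟨hval, ?_, ?_⟩
            · rw [hw]; exact fun h => ho h.symm
            · rw [en_cons, hw, move_move v (o, e)]
              exact hv
          · rw [pr_single_neg (p := fun w => en v0 w = move v (o, e)) hw]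
            exact Submodule.zero_mem _
        · rw [rem_S_ne hs, map_zero]; exact Submodule.zero_mem _
    | mesh u w =>
      cases u with
      | cons s u =>
        refine ⟨0, On_zero _, fun o e ho => ?_⟩
        rw [map_zero, sub_zero, app_cons]
        have hmem : app u (meshMap (en v0 w).1 (single w 1)) ∈ K M v0 :=
          Submodule.subset_span (Gen.mesh u w)
        by_cases hs : (v.1, !e) = s
        · subst hs
          rw [rem_S_same]
          exact K_graded M v0 (adm_en v0) (fun x => x = move v (o, e)) hmem
        · rw [rem_S_ne hs, map_zero]; exact Submodule.zero_mem _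
      | nil =>
        rw [app_nil]
        by_cases hi : (en v0 w).1 = v.1
        · -- same type
          have hrem : ∀ e, rem (v.1, !e) (meshMap (en v0 w).1 (single w 1))
              = ∑ j ∈ Finset.univ.erase v.1, single ((j, e) :: w) 1 := by
            intro e
            rw [hi, meshMap_apply, map_sum]
            refine Finset.sum_congr rfl (fun j _ => ?_)
            rw [Fintype.sum_bool, map_add]
            cases e
            · rw [rem_S_ne (by simp), zero_add, rem_S_same, S_single]
            · rw [rem_S_same, rem_S_ne (by simp), add_zero, S_single]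
          by_cases hw : en v0 w = v
          · refine ⟨single w 1, On_single (p := fun w => en v0 w = v) hw 1, fun o e ho => ?_⟩
            rw [hrem, map_sum, S_single]
            rw [Finset.sum_eq_single o]
            · rw [pr_single_pos (p := fun w => en v0 w = move v (o, e)) (by simp only [en_cons, hw]), sub_self]
              exact Submodule.zero_mem _
            · intro j _ hj
              rw [pr_single_neg]
              intro h
              rw [en_cons, hw] at h
              exact hj (congrArg Prod.fst h)
            · intro h
              exact absurd (Finset.mem_erase.2 ⟨ho, Finset.mem_univ _⟩) h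
          · refine ⟨0, On_zero _, fun o e ho => ?_⟩
            rw [map_zero, sub_zero, hrem, map_sum]
            refine Submodule.sum_mem _ (fun j _ => ?_)
            rw [pr_single_neg]
            · exact Submodule.zero_mem _
            · intro h
              rw [en_cons] at h
              have hj : j = o := congrArg Prod.fst h
              subst hj
              exact hw (move_inj hi h)
        · refine ⟨0, On_zero _, fun o e ho => ?_⟩
          rw [map_zero, sub_zero, meshMap_apply, map_sum, map_sum]
          refine Submodule.sum_mem _ (fun j _ => ?_)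
          rw [map_sum, map_sum]
          refine Submodule.sum_mem _ (fun e' _ => ?_)
          rw [rem_S_ne, map_zero]
          · exact Submodule.zero_mem _
          · intro h
            exact hi (congrArg Prod.fst h).symm
  | zero => exact ⟨0, On_zero _, fun o e ho => by simp⟩
  | add f g _ _ hf hg =>
    obtain ⟨h1, ho1, H1⟩ := hf
    obtain ⟨h2, ho2, H2⟩ := hg
    refine ⟨h1 + h2, ho1.add ho2, fun o e ho => ?_⟩
    rw [map_add, map_add, map_add, add_sub_add_comm]
    exact Submodule.add_mem _ (H1 o e ho) (H2 o e ho)
  | smul c f _ hf =>
    obtain ⟨h1, ho1, H1⟩ := hf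
    refine ⟨c • h1, ho1.smul c, fun o e ho => ?_⟩
    rw [map_smul, map_smul, map_smul, ← smul_sub]
    exact Submodule.smul_mem _ _ (H1 o e ho)

/-- exactness of the mesh complex -/
theorem K_exact (v : St B) (hv : InRange M v) (x : B → Bool → FM B)
    (hx : ∀ o e, o ≠ v.1 → On (fun w => en v0 w = move v (o, e)) (x o e))
    (hsum : ∑ o ∈ Finset.univ.erase v.1, ∑ e : Bool, S (v.1, !e) (x o e) ∈ K M v0) :
    ∃ h : FM B, On (fun w => en v0 w = v) h ∧ ∀ (o : B) (e : Bool), o ≠ v.1 →
      x o e - S (o, e) h ∈ K M v0 := by
  classical
  obtain ⟨h, hh, H⟩ := K_exact_aux M v0 hsum v hv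
  refine ⟨h, hh, fun o e ho => ?_⟩
  have := H o e ho
  have hcomp : pr (fun w => en v0 w = move v (o, e)) (rem (v.1, !e)
      (∑ o ∈ Finset.univ.erase v.1, ∑ e : Bool, S (v.1, !e) (x o e))) = x o e := by
    have h1 : rem (v.1, !e) (∑ o ∈ Finset.univ.erase v.1, ∑ e : Bool, S (v.1, !e) (x o e))
        = ∑ o ∈ Finset.univ.erase v.1, x o e := by
      rw [map_sum]
      refine Finset.sum_congr rfl (fun j _ => ?_)
      rw [Fintype.sum_bool, map_add]
      cases e
      · rw [rem_S_ne (by simp), zero_add, rem_S_same]
      · rw [rem_S_same, rem_S_ne (by simp), add_zero]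
    rw [h1, map_sum, Finset.sum_eq_single o]
    · exact (hx o e ho).pr_eq
    · intro j hj hjo
      refine (hx j e (Finset.ne_of_mem_erase hj)).pr_eq_zero (fun w hw h => hjo ?_)
      rw [hw] at h
      exact congrArg Prod.fst h
    · intro h
      exact absurd (Finset.mem_erase.2 ⟨ho, Finset.mem_univ _⟩) h
  rwa [hcomp] at this

end mesh

end Helper66.MC
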