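import Pool.Agent.Helper66.MC.Closed
import Pool.Agent.Helper66.MC.Defs

/-!
Operators of words, saturation, type words, times of words.
-/

set_option autoImplicit false

namespace Helper66.MC

open Finsupp

variable {B : Type*} [DecidableEq B] [Fintype B] (M : CoxeterMatrix B) (v0 : St B)

/-- apply the operators `T {i}` of the letters of `U` from left to right -/
noncomputable def Tw (U : List B) (N : Submodule (ZMod 2) (FM B)) : Submodule (ZMod 2) (FM B) :=
  U.foldl (fun N i => T M v0 {i} N) N

/-- `N` is saturated at type `i` -/
def Sat (i : B) (N : Submodule (ZMod 2) (FM B)) : Prop :=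
  ∀ (v : St B) (f : FM B), v.1 = i → On (fun w => en v0 w = v) f → (∀ s, S s f ∈ N) → f ∈ N

omit [DecidableEq B] [Fintype B] in
/-- the types visited by a word, in reading order -/
def tyw (w : List (Step B)) : List B := v0.1 :: (w.map Prod.fst).reverse

omit [DecidableEq B] [Fintype B] in
/-- the time of the last vertex of a word, relative to the periodic word `q` -/
noncomputable def tm (q : ℕ → B) : List (Step B) → ℕ
  | [] => nextTime q 0 v0.1
  | s :: w => nextTime q (tm q w + 1) s.1

@[simp] theorem Tw_nil (N : Submodule (ZMod 2) (FM B)) : Tw M v0 [] N = N := rfl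
@[simp] theorem Tw_cons (i : B) (U : List B) (N : Submodule (ZMod 2) (FM B)) :
    Tw M v0 (i :: U) N = Tw M v0 U (T M v0 {i} N) := rfl
theorem Tw_append (U V : List B) (N : Submodule (ZMod 2) (FM B)) :
    Tw M v0 (U ++ V) N = Tw M v0 V (Tw M v0 U N) := by
  simp [Tw, List.foldl_append]

variable {M v0}

theorem closed_Tw {U : List B} {N : Submodule (ZMod 2) (FM B)} (hN : Closed M v0 N) :
    Closed M v0 (Tw M v0 U N) := by
  induction U generalizing N with
  | nil => exact hN
  | cons i U ih => exact ih (closed_T M v0 {i} N)

theorem Tw_mono {U : List B} {N N' : Submodule (ZMod 2) (FM B)} (h : N ≤ N') :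
    Tw M v0 U N ≤ Tw M v0 U N' := by
  induction U generalizing N N' with
  | nil => exact h
  | cons i U ih => exact ih (T_mono h)

theorem Tw_le {U : List B} {N : Submodule (ZMod 2) (FM B)} (hN : Closed M v0 N) :
    Tw M v0 U N ≤ N := by
  induction U generalizing N with
  | nil => exact le_rfl
  | cons i U ih => exact (ih (closed_T M v0 {i} N)).trans (T_le hN)

end Helper66.MC
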